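import Pool.Agent.H98.Gomoku.Fam

set_option autoImplicit false

/-!
From tables to the strategy.
-/
namespace Pool.Agent.H98.Gomoku
open G

/-! ### octagons -/

/-- the cells near `p` on the four lines avoid the octagon -/
def MR.isoB (r : MR) (p : Cell) : Bool :=
  (List.range 9).all fun t =>
    (!decide (r.In (p.1 + ((t : ℤ) - 4), p.2)) && !decide (r.In (p.1, p.2 + ((t : ℤ) - 4)))) &&
    (!decide (r.In (p.1 + ((t : ℤ) - 4), p.2 + ((t : ℤ) - 4))) &&
      !decide (r.In (p.1 + ((t : ℤ) - 4), p.2 - ((t : ℤ) - 4))))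

theorem near_of_window {w : Finset Cell} (hw : IsW w) {p c : Cell} (hp : p ∈ w) (hc : c ∈ w) :
    ∃ t : ℕ, t < 9 ∧ (c = (p.1 + ((t : ℤ) - 4), p.2) ∨ c = (p.1, p.2 + ((t : ℤ) - 4)) ∨
      c = (p.1 + ((t : ℤ) - 4), p.2 + ((t : ℤ) - 4)) ∨ c = (p.1 + ((t : ℤ) - 4), p.2 - ((t : ℤ) - 4))) := by
  obtain ⟨a, d, hd, rfl⟩ := hw
  obtain ⟨i, hi, rfl⟩ := mem_wnd.1 hp
  obtain ⟨j, hj, rfl⟩ := mem_wnd.1 hc
  refine ⟨j + 4 - i, by omega, ?_⟩
  rcases hd with rfl | rfl | rfl | rfl
  · left
    simp only [wc]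
    ext <;> push_cast [show i ≤ j + 4 by omega] <;> ring
  · right; left
    simp only [wc]
    ext <;> push_cast [show i ≤ j + 4 by omega] <;> ring
  · right; right; left
    simp only [wc]
    ext <;> push_cast [show i ≤ j + 4 by omega] <;> ring
  · right; right; right
    simp only [wc]
    ext <;> push_cast [show i ≤ j + 4 by omega] <;> ring

theorem MR.iso_of_isoB {r : MR} {p : Cell} (h : r.isoB p = true) : r.Iso p := by
  intro w hw hp c hc hin
  obtain ⟨t, ht, hcs⟩ := near_of_window hw hp hc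
  unfold MR.isoB at h
  rw [List.all_eq_true] at h
  have h' := h t (List.mem_range.2 ht)
  simp only [Bool.and_eq_true, Bool.not_eq_true', decide_eq_false_iff_not] at h'
  rcases hcs with rfl | rfl | rfl | rfl
  · exact h'.1.1 hin
  · exact h'.1.2 hin
  · exact h'.2.1 hin
  · exact h'.2.2 hin

theorem MR.iso_of_high {r : MR} {p : Cell} (h : r.y1 + 5 ≤ p.2) : r.Iso p := by
  intro w hw hp c hc hin
  obtain ⟨t, ht, hcs⟩ := near_of_window hw hp hc
  have h2 := hin.2.1.2
  rcases hcs with rfl | rfl | rfl | rfl <;> simp only at h2 <;> omega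

def mOK (r : MR) : Bool :=
  ((List.range 1024).all fun i => !Nat.testBit r.K i || decide (r.In (cl i))) &&
    (Nat.beq (sdf r.K FULL) 0 && Nat.beq (sdf r.A BOX) 0) && r.ps.all fun p => r.isoB (cl p)

theorem mOK_K {r : MR} (h : mOK r = true) (i : ℕ) (hi : r.K.testBit i = true) : r.In (cl i) := by
  unfold mOK at h
  rw [Bool.and_eq_true, Bool.and_eq_true, Bool.and_eq_true, List.all_eq_true] at h
  obtain ⟨⟨h1, h2, _⟩, _⟩ := h
  have h3 := zero_of_beq h2 i
  rw [tb_sdf, hi, full_tb] at h3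
  have h4 : i < 1024 := by simpa using h3
  have h5 := h1 i (List.mem_range.2 h4)
  rw [hi] at h5
  simpa using h5

theorem mOK_A {r : MR} (h : mOK r = true) : Nat.beq (sdf r.A BOX) 0 = true := by
  unfold mOK at h
  rw [Bool.and_eq_true, Bool.and_eq_true, Bool.and_eq_true] at h
  exact h.1.2.2

theorem mOK_ps {r : MR} (h : mOK r = true) {p : ℕ} (hp : p ∈ r.ps) : r.Iso (cl p) := by
  unfold mOK at h
  rw [Bool.and_eq_true, List.all_eq_true] at h
  exact MR.iso_of_isoB (h.2 p hp)

/-- table of one proof -/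
def mTab1 (A : ℕ) (ps : List ℕ) : ℕ :=
  ps.foldr (fun p a => Nat.lor (Nat.shiftLeft A (1024 * p)) a) 0

theorem mTab1_tb (A : ℕ) (hA : ∀ i, A.testBit i = true → i < 1024) (ps : List ℕ) {p q : ℕ}
    (hq : q < 1024) (h : (mTab1 A ps).testBit (1024 * p + q) = true) :
    p ∈ ps ∧ A.testBit q = true := by
  induction ps with
  | nil => simp [mTab1] at h
  | cons a L ih =>
    have e : mTab1 A (a :: L) = Nat.lor (Nat.shiftLeft A (1024 * a)) (mTab1 A L) := rfl
    rw [e, tb_lor, Bool.or_eq_true] at h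
    rcases h with h | h
    · rw [tb_shl, Bool.and_eq_true, decide_eq_true_iff] at h
      obtain ⟨h1, h2⟩ := h
      have h3 := hA _ h2
      have h4 : a = p := by omega
      refine ⟨by rw [h4]; exact List.mem_cons_self, ?_⟩
      rw [h4, show 1024 * p + q - 1024 * p = q by omega] at h2
      exact h2
    · obtain ⟨h1, h2⟩ := ih h
      exact ⟨List.mem_cons_of_mem _ h1, h2⟩

def mTab (L : List MR) : ℕ := L.foldr (fun r a => Nat.lor (mTab1 (sdf FULL r.A) r.ps) a) 0

theorem TOK.m {L : List MR} (hok : L.all mOK = true) (h : ∀ g ∈ L, MG g) : TOK (mTab L) := by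
  induction L with
  | nil => exact TOK.zero
  | cons a L ih =>
    rw [List.all_cons, Bool.and_eq_true] at hok
    have e : mTab (a :: L) = Nat.lor (mTab1 (sdf FULL a.A) a.ps) (mTab L) := rfl
    rw [e]
    refine TOK.lor ?_ (ih hok.2 fun g hg => h g (List.mem_cons_of_mem _ hg))
    obtain ⟨N, hN⟩ := h a List.mem_cons_self
    refine ⟨N, ?_⟩
    rintro p q ⟨hp, hq, ht⟩ hl
    obtain ⟨h1, h2⟩ := mTab1_tb _ (by
      intro i hi
      rw [tb_sdf, full_tb] at hi
      simp at hi
      exact hi.1) _ (ix_lt hq) ht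
    apply hN p q hl
    · have := mOK_ps hok.1 h1
      rwa [cl_ix hp] at this
    · intro _
      rw [tb_sdf] at h2
      simp at h2
      exact h2.2

/-- first stone high up -/
def HOK (L : List MR) : Prop :=
  Bd fun p q => ∃ r ∈ L, r.y1 + 5 ≤ p.2 ∧ (InB q → r.A.testBit (ix q) = false)

theorem HOK.m {L : List MR} (h : ∀ g ∈ L, MG g) : HOK L := by
  have key : ∀ r ∈ L, Bd fun p q => r.y1 + 5 ≤ p.2 ∧ (InB q → r.A.testBit (ix q) = false) := by
    intro r hr
    obtain ⟨N, hN⟩ := h r hr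
    refine ⟨N, ?_⟩
    rintro p q ⟨h1, h2⟩ hl
    exact hN p q hl (MR.iso_of_high h1) h2
  exact Bd.list key

/-! ### coverage -/

/-- symmetries on indices -/
def gi (g i : ℕ) : ℕ :=
  if g = 0 then i else if g = 1 then (32 - i / 32) + 32 * (32 - i % 32)
  else if g = 2 then (i / 32 + 1) + 32 * (i % 32 - 1) else (33 - i % 32) + 32 * (31 - i / 32)

theorem gs_near {g : ℕ} {c : Cell} (h : Near 14 c) : InB (gs g c) ∧ ix (gs g c) = gi g (ix c) := by
  have hc : InB c := by unfold Near at h; unfold InB; omega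
  have h1 := ix_eq hc
  unfold Near at h
  by_cases h0 : g = 0
  · subst h0
    exact ⟨by simpa [gs] using hc, by simp [gs, gi]⟩
  by_cases h1' : g = 1
  · subst h1'
    have hb : InB (gs 1 c) := by
      simp only [gs, InB]
      norm_num
      omega
    refine ⟨hb, ?_⟩
    have h2 := ix_eq hb
    simp only [gs] at h2 ⊢
    norm_num at h2 ⊢
    simp only [gi]
    norm_num
    omega
  by_cases h2' : g = 2
  · subst h2'
    have hb : InB (gs 2 c) := by
      simp only [gs, InB]
      norm_num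
      omega
    refine ⟨hb, ?_⟩
    have h2 := ix_eq hb
    simp only [gs] at h2 ⊢
    norm_num at h2 ⊢
    simp only [gi]
    norm_num
    omega
  · have hb : InB (gs g c) := by
      simp only [gs, InB, h0, h1', h2', if_false]
      omega
    refine ⟨hb, ?_⟩
    have h2 := ix_eq hb
    simp only [gs, h0, h1', h2', if_false] at h2 ⊢
    simp only [gi, h0, h1', h2', if_false]
    omega

theorem gs_far {g : ℕ} {n : ℤ} {c : Cell} (h : ¬ Near (n + 1) c) : ¬ Near n (gs g c) := by
  intro hn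
  apply h
  unfold Near at hn ⊢
  unfold gs at hn
  split_ifs at hn <;> first | omega | (simp only at hn; omega)

/-- a bit of a number -/
def tb1 (T n : ℕ) : Bool := Nat.beq (Nat.land (Nat.shiftRight T n) 1) 1

theorem tb1_iff {T n : ℕ} (h : tb1 T n = true) : T.testBit n = true := by
  unfold tb1 at h
  have h1 := Nat.eq_of_beq_eq_true h
  have h2 := congrArg (fun m => m.testBit 0) h1
  simp only [tb_land, tb_shr] at h2
  simpa using h2

def covG (T p q g : ℕ) : Bool := tb1 T (1024 * gi g p + gi g q) || tb1 T (1024 * gi g q + gi g p)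

def cov (T p q : ℕ) : Bool := (covG T p q 0 || covG T p q 1) || (covG T p q 2 || covG T p q 3)

theorem cov_bd {T : ℕ} (hT : TOK T) :
    Bd fun p q => Near 14 p ∧ Near 14 q ∧ cov T (ix p) (ix q) = true := by
  have key : ∀ g : ℕ, Bd fun p q => Near 14 p ∧ Near 14 q ∧ covG T (ix p) (ix q) g = true := by
    intro g
    refine (Bd.or (hT.gs g) (Bd.swap (hT.gs g))).imp ?_
    rintro p q ⟨hp, hq, h⟩
    obtain ⟨p1, p2⟩ := gs_near (g := g) hp
    obtain ⟨q1, q2⟩ := gs_near (g := g) hq
    unfold covG at h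
    rw [Bool.or_eq_true] at h
    rcases h with h | h
    · left
      refine ⟨p1, q1, ?_⟩
      rw [p2, q2]
      exact tb1_iff h
    · right
      refine ⟨q1, p1, ?_⟩
      rw [p2, q2]
      exact tb1_iff h
  refine (Bd.or (Bd.or (key 0) (key 1)) (Bd.or (key 2) (key 3))).imp ?_
  rintro p q ⟨hp, hq, h⟩
  unfold cov at h
  rw [Bool.or_eq_true, Bool.or_eq_true, Bool.or_eq_true] at h
  rcases h with (h | h) | (h | h)
  · exact Or.inl (Or.inl ⟨hp, hq, h⟩)
  · exact Or.inl (Or.inr ⟨hp, hq, h⟩)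
  · exact Or.inr (Or.inl ⟨hp, hq, h⟩)
  · exact Or.inr (Or.inr ⟨hp, hq, h⟩)

def rcov (R R0 p : ℕ) : Bool := (tb1 R0 p || tb1 R (gi 1 p)) || (tb1 R (gi 2 p) || tb1 R (gi 3 p))

theorem rcov_bd {R R0 : ℕ} (hR : ROK 13 R) (hR0 : ROK 14 R0) :
    Bd fun p q => Near 14 p ∧ ¬ Near 14 q ∧ rcov R R0 (ix p) = true := by
  have key : ∀ g : ℕ, Bd fun p q => Near 14 p ∧ ¬ Near 14 q ∧ tb1 R (gi g (ix p)) = true := by
    intro g
    refine (hR.gs g).imp ?_
    rintro p q ⟨hp, hq, h⟩
    obtain ⟨p1, p2⟩ := gs_near (g := g) hp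
    refine ⟨p1, ?_, gs_far hq⟩
    rw [p2]
    exact tb1_iff h
  refine (Bd.or (Bd.or hR0 (key 1)) (Bd.or (key 2) (key 3))).imp ?_
  rintro p q ⟨hp, hq, h⟩
  have hpb : InB p := by unfold Near at hp; unfold InB; omega
  unfold rcov at h
  rw [Bool.or_eq_true, Bool.or_eq_true, Bool.or_eq_true] at h
  rcases h with (h | h) | (h | h)
  · exact Or.inl (Or.inl ⟨hpb, tb1_iff h, hq⟩)
  · exact Or.inl (Or.inr ⟨hp, hq, h⟩)
  · exact Or.inr (Or.inl ⟨hp, hq, h⟩)
  · exact Or.inr (Or.inr ⟨hp, hq, h⟩)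

/-- the cells at distance at most 14 -/
def nearL (f : ℕ → Bool) : Bool :=
  (List.range 29).all fun x => (List.range 29).all fun y => f (x + 2 + 32 * (y + 2))

theorem nearL_iff {f : ℕ → Bool} (h : nearL f = true) {c : Cell} (hc : Near 14 c) :
    f (ix c) = true := by
  unfold nearL at h
  rw [List.all_eq_true] at h
  have hb : InB c := by unfold Near at hc; unfold InB; omega
  have h1 := ix_eq hb
  unfold Near at hc
  have h2 := h (c.1.toNat - 2) (List.mem_range.2 (by omega))
  rw [List.all_eq_true] at h2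
  have h3 := h2 (c.2.toNat - 2) (List.mem_range.2 (by omega))
  rwa [show c.1.toNat - 2 + 2 + 32 * (c.2.toNat - 2 + 2) = ix c by omega] at h3

/-- all second moves near `p` are won -/
def rowOK (T p : ℕ) : Bool :=
  nearL fun q => (Nat.beq q p || (Nat.beq q 528 || Nat.beq q 497)) || cov T p q

/-- first moves up to distance 10 -/
def check1 (T R R0 : ℕ) (P : List ℕ) : Bool := P.all fun p => rcov R R0 p && rowOK T p

/-- first moves at distance 11 to 14 -/
def check2 (T : ℕ) : Bool :=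
  (List.range 4).all fun y => (List.range 15).all fun x => (Nat.ble (y + 12) x) || rowOK T (528 + x + 32 * (y + 11))

/-- first moves far away -/
def check3 (L : List MR) (R R0 : ℕ) : Bool :=
  nearL fun q => (Nat.beq q 528 || Nat.beq q 497) || (rcov R R0 q ||
    L.any fun r => decide (r.y1 ≤ 26) && !Nat.testBit r.A q)

theorem row_bd {T p : ℕ} (hT : TOK T) (hp : Near 14 (cl p)) (hp' : p < 1024) (h : rowOK T p = true) :
    Bd fun p' q => p' = cl p ∧ Near 14 q := by
  refine ⟨(cov_bd hT).choose, ?_⟩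
  have hN := (cov_bd hT).choose_spec
  rintro p' q ⟨rfl, hq⟩ hl
  apply hN _ q _ hl
  refine ⟨hp, hq, ?_⟩
  have h1 := nearL_iff h hq
  rw [Bool.or_eq_true, Bool.or_eq_true, Bool.or_eq_true] at h1
  have hqb : InB q := by unfold Near at hq; unfold InB; omega
  obtain ⟨l1, l2, l3, l4, l5⟩ := hl
  rcases h1 with (h1 | h1 | h1) | h1
  · exfalso
    apply l5
    rw [← Nat.eq_of_beq_eq_true h1, cl_ix hqb]
  · exfalso
    apply l3
    rw [← cl528, ← Nat.eq_of_beq_eq_true h1, cl_ix hqb]
  · exfalso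
    apply l4
    rw [← cl497, ← Nat.eq_of_beq_eq_true h1, cl_ix hqb]
  · rwa [ix_cl]

theorem near_of_cl {p : ℕ} (h : p ∈ (List.range 1024).filter (fun p => decide (Near 14 (cl p)))) :
    Near 14 (cl p) := by
  rw [List.mem_filter] at h
  simpa using h.2

/-- all second moves after the first move `p` are won -/
theorem bd1 {T R R0 : ℕ} {P : List ℕ} (hT : TOK T) (hR : ROK 13 R) (hR0 : ROK 14 R0)
    (hP : (P.all fun p => decide (Near 14 (cl p)) && Nat.blt p 1024) = true)
    (h : check1 T R R0 P = true) : Bd fun p _ => ∃ a ∈ P, p = cl a := by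
  rw [List.all_eq_true] at hP
  unfold check1 at h
  rw [List.all_eq_true] at h
  have key : ∀ a ∈ P, Bd fun p _ => p = cl a := by
    intro a ha
    have h1 := hP a ha
    have h2 := h a ha
    simp only [Bool.and_eq_true, decide_eq_true_iff, Nat.blt_eq] at h1 h2
    refine (Bd.or (row_bd hT h1.1 h1.2 h2.2) (rcov_bd hR hR0)).imp ?_
    rintro p q rfl
    by_cases hq : Near 14 q
    · exact Or.inl ⟨rfl, hq⟩
    · exact Or.inr ⟨h1.1, hq, by rw [ix_cl]; exact h2.1⟩
  exact Bd.list key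

theorem bd2 {T : ℕ} {L : List MR} (hT : TOK T) (h : check2 T = true) (hL : HOK L)
    (hA : ∃ r ∈ L, r.y1 ≤ 22 ∧ Nat.beq (sdf r.A BOX) 0 = true) :
    Bd fun p _ => 16 ≤ p.1 ∧ p.1 ≤ p.2 ∧ 27 ≤ p.2 ∧ p.2 ≤ 30 := by
  have hrow : ∀ a ∈ List.range 1024, Bd fun p q => p = cl a ∧ Near 14 q ∧ 16 ≤ p.1 ∧ p.1 ≤ p.2 ∧
      27 ≤ p.2 ∧ p.2 ≤ 30 := by
    intro a ha
    by_cases hc : 16 ≤ (cl a).1 ∧ (cl a).1 ≤ (cl a).2 ∧ 27 ≤ (cl a).2 ∧ (cl a).2 ≤ 30
    · unfold check2 at h
      rw [List.all_eq_true] at h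
      simp only [cl] at hc
      have h1 := h (a / 32 - 27) (List.mem_range.2 (by omega))
      rw [List.all_eq_true] at h1
      have h2 := h1 (a % 32 - 16) (List.mem_range.2 (by omega))
      rw [show 528 + (a % 32 - 16) + 32 * (a / 32 - 27 + 11) = a by omega, Bool.or_eq_true,
        Nat.ble_eq] at h2
      rcases h2 with h2 | h2
      · omega
      · refine (row_bd hT ?_ (List.mem_range.1 ha) h2).imp fun p q hh => ⟨hh.1, hh.2.1⟩
        simp only [Near, cl]
        omega
    · refine ⟨0, ?_⟩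
      rintro p q ⟨rfl, _, h1⟩ _
      exact absurd h1 hc
  refine (Bd.or (Bd.list hrow) hL).imp ?_
  rintro p q hp
  by_cases hq : Near 14 q
  · left
    have hpb : InB p := by unfold InB; omega
    exact ⟨ix p, List.mem_range.2 (ix_lt hpb), (cl_ix hpb).symm, hq, hp⟩
  · right
    obtain ⟨r, hr, h1, h2⟩ := hA
    refine ⟨r, hr, by omega, far_of_box h2 ?_⟩
    intro hn
    apply hq
    unfold Near at hn ⊢
    omega

theorem Bd.imp' {P Q : Cell → Cell → Prop} (h : Bd P) (hPQ : ∀ p q, Leg p q → Q p q → P p q) :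
    Bd Q := by
  obtain ⟨N, h⟩ := h
  exact ⟨N, fun p q hq hl => h p q (hPQ p q hl hq) hl⟩

theorem bd3 {R R0 : ℕ} {L : List MR} (hR : ROK 13 R) (hR0 : ROK 14 R0) (hL : HOK L)
    (h : check3 L R R0 = true)
    (hA : ∃ r ∈ L, r.y1 ≤ 22 ∧ Nat.beq (sdf r.A BOX) 0 = true) :
    Bd fun p _ => 31 ≤ p.2 := by
  refine Bd.imp' (Bd.or (Bd.swap (rcov_bd hR hR0)) hL) ?_
  rintro p q ⟨l1, l2, l3, l4, l5⟩ hp
  by_cases hq : Near 14 q
  · have hqb : InB q := by unfold Near at hq; unfold InB; omega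
    have h1 := nearL_iff h hq
    rw [Bool.or_eq_true, Bool.or_eq_true, Bool.or_eq_true] at h1
    rcases h1 with (h1 | h1) | (h1 | h1)
    · exfalso
      apply l3
      rw [← cl528, ← Nat.eq_of_beq_eq_true h1, cl_ix hqb]
    · exfalso
      apply l4
      rw [← cl497, ← Nat.eq_of_beq_eq_true h1, cl_ix hqb]
    · left
      refine ⟨hq, ?_, h1⟩
      unfold Near
      omega
    · right
      rw [List.any_eq_true] at h1
      obtain ⟨r, hr, h2⟩ := h1
      rw [Bool.and_eq_true, decide_eq_true_iff] at h2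
      exact ⟨r, hr, by omega, fun _ => by simpa using h2.2⟩
  · right
    obtain ⟨r, hr, h1, h2⟩ := hA
    refine ⟨r, hr, by omega, far_of_box h2 ?_⟩
    intro hn
    apply hq
    unfold Near at hn ⊢
    omega

/-! ### the first moves -/

/-- linear symmetry about Black's first stone -/
def rot (k : ℕ) (c : Cell) : Cell := mv k (16 - (lin k c0).1, 16 - (lin k c0).2) c

theorem rot_c0 (k : ℕ) : rot k c0 = c0 := by
  unfold rot mv
  ext <;> simp [c0]

theorem rot_eq (k : ℕ) (x y : ℤ) : rot k (16 + x, 16 + y) = (16 + (lin k (x, y)).1, 16 + (lin k (x, y)).2) := by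
  unfold rot mv lin c0
  split_ifs <;> simp <;> ring_nf <;> simp

theorem rot_cover (w : Cell) : ∃ k, k < 8 ∧ ∃ x y : ℤ, 0 ≤ x ∧ x ≤ y ∧ w = rot k (16 + x, 16 + y) := by
  obtain ⟨a, b⟩ := w
  rcases le_total 0 (a - 16) with ha | ha <;> rcases le_total 0 (b - 16) with hb | hb
  · rcases le_total (a - 16) (b - 16) with h | h
    · refine ⟨0, by norm_num, a - 16, b - 16, by omega, by omega, ?_⟩
      rw [rot_eq]; simp [lin]
    · refine ⟨4, by norm_num, b - 16, a - 16, by omega, by omega, ?_⟩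
      rw [rot_eq]; simp [lin]
  · rcases le_total (a - 16) (16 - b) with h | h
    · refine ⟨2, by norm_num, a - 16, 16 - b, by omega, by omega, ?_⟩
      rw [rot_eq]; simp [lin]
    · refine ⟨6, by norm_num, 16 - b, a - 16, by omega, by omega, ?_⟩
      rw [rot_eq]; simp [lin]
  · rcases le_total (16 - a) (b - 16) with h | h
    · refine ⟨1, by norm_num, 16 - a, b - 16, by omega, by omega, ?_⟩
      rw [rot_eq]; simp [lin]
    · refine ⟨5, by norm_num, b - 16, 16 - a, by omega, by omega, ?_⟩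
      rw [rot_eq]; simp [lin]
  · rcases le_total (16 - a) (16 - b) with h | h
    · refine ⟨3, by norm_num, 16 - a, 16 - b, by omega, by omega, ?_⟩
      rw [rot_eq]; simp [lin]
    · refine ⟨7, by norm_num, 16 - b, 16 - a, by omega, by omega, ?_⟩
      rw [rot_eq]; simp [lin]

/-- first moves in the list, up to symmetry -/
def octOK (P : List ℕ) : Bool :=
  (List.range 11).all fun y => (List.range 11).all fun x =>
    (Nat.blt y x || Nat.beq y 0) || (P.elem (528 + x + 32 * y) || (Nat.beq x 0 && P.elem (528 - 32 * y)))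

def pOKs (P : List ℕ) : Bool :=
  P.all fun p => (decide (Near 14 (cl p)) && Nat.blt p 1024) && !Nat.beq p 497

theorem final {T R R0 : ℕ} {P : List ℕ} {L : List MR} (hT : TOK T) (hR : ROK 13 R) (hR0 : ROK 14 R0)
    (hM : ∀ g ∈ L, MG g)
    (hP : pOKs P = true) (ho : octOK P = true) (h1 : check1 T R R0 P = true)
    (h2 : check2 T = true) (h3 : check3 L R R0 = true)
    (hA : (L.any fun r => decide (r.y1 ≤ 22) && Nat.beq (sdf r.A BOX) 0) = true) :
    ∃ N, Win N ∅ ∅ := by
  have hA' : ∃ r ∈ L, r.y1 ≤ 22 ∧ Nat.beq (sdf r.A BOX) 0 = true := by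
    rw [List.any_eq_true] at hA
    obtain ⟨r, hr, h⟩ := hA
    rw [Bool.and_eq_true, decide_eq_true_iff] at h
    exact ⟨r, hr, h⟩
  unfold pOKs at hP
  rw [List.all_eq_true] at hP
  have hP1 : (P.all fun p => decide (Near 14 (cl p)) && Nat.blt p 1024) = true := by
    rw [List.all_eq_true]
    intro p hp
    have := hP p hp
    rw [Bool.and_eq_true] at this
    exact this.1
  have hL := HOK.m hM
  obtain ⟨N, hN⟩ := Bd.or (bd1 hT hR hR0 hP1 h1) (Bd.or (bd2 hT h2 hL hA') (bd3 hR hR0 hL h3 hA'))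
  have hW : ∀ p : Cell, p ≠ c0 → p ≠ c1 → ((∃ a ∈ P, p = cl a) ∨
      (16 ≤ p.1 ∧ p.1 ≤ p.2 ∧ 27 ≤ p.2 ∧ p.2 ≤ 30) ∨ 31 ≤ p.2) → Win (N + 1) {c0} {p} := by
    intro p hp0 hp1 hp
    refine ⟨c1, by decide, by simpa using hp1.symm, Or.inr ?_⟩
    intro e he he'
    simp only [Finset.mem_insert, Finset.mem_singleton, not_or] at he he'
    refine ⟨no_five_small ?_, ?_⟩
    · exact lt_of_le_of_lt (Finset.card_insert_le _ _) (by simp)
    · exact (hN p e hp ⟨hp0, hp1, he.2, he.1, he'⟩).congr (Finset.pair_comm _ _) (Finset.pair_comm _ _)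
  have hrot : ∀ k, k < 8 → ∀ p : Cell, Win (N + 1) {c0} {p} → Win (N + 1) {c0} {rot k p} := by
    intro k hk p hp
    refine (hp.map hk (16 - (lin k c0).1, 16 - (lin k c0).2)).congr ?_ ?_
    · rw [Finset.image_singleton]
      exact congrArg _ (rot_c0 k)
    · rw [Finset.image_singleton]
      rfl
  have hoct : ∀ x y : ℤ, 0 ≤ x → x ≤ y → (x, y) ≠ ((0, 0) : Cell) → Win (N + 1) {c0} {(16 + x, 16 + y)} := by
    intro x y hx hxy hne
    have hy : 1 ≤ y := by
      by_contra h
      apply hne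
      ext <;> simp <;> omega
    have hne0 : ((16 + x, 16 + y) : Cell) ≠ c0 := by
      unfold c0
      intro h
      rw [Prod.mk.injEq] at h
      omega
    have hne1 : ((16 + x, 16 + y) : Cell) ≠ c1 := by
      unfold c1
      intro h
      rw [Prod.mk.injEq] at h
      omega
    by_cases hy2 : y ≤ 10
    · unfold octOK at ho
      rw [List.all_eq_true] at ho
      have g1 := ho y.toNat (List.mem_range.2 (by omega))
      rw [List.all_eq_true] at g1
      have g2 := g1 x.toNat (List.mem_range.2 (by omega))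
      rw [Bool.or_eq_true, Bool.or_eq_true, Bool.or_eq_true, Bool.and_eq_true, Nat.blt_eq,
        List.elem_eq_mem, List.elem_eq_mem, decide_eq_true_iff, decide_eq_true_iff] at g2
      rcases g2 with (g2 | g2) | (g2 | ⟨g2, g3⟩)
      · omega
      · have := Nat.eq_of_beq_eq_true g2
        omega
      · apply hW _ hne0 hne1
        left
        refine ⟨_, g2, ?_⟩
        simp only [cl]
        ext
        · show 16 + x = (((528 + x.toNat + 32 * y.toNat) % 32 : ℕ) : ℤ)
          omega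
        · show 16 + y = (((528 + x.toNat + 32 * y.toNat) / 32 : ℕ) : ℤ)
          omega
      · have hx0 := Nat.eq_of_beq_eq_true g2
        have e : ((16 + x, 16 + y) : Cell) = rot 2 (16 + x, 16 + (-y)) := by
          rw [rot_eq]
          simp [lin]
        rw [e]
        apply hrot 2 (by norm_num)
        have hcl : ((16 + x, 16 + (-y)) : Cell) = cl (528 - 32 * y.toNat) := by
          simp only [cl]
          ext
          · show 16 + x = (((528 - 32 * y.toNat) % 32 : ℕ) : ℤ)
            omega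
          · show 16 + -y = (((528 - 32 * y.toNat) / 32 : ℕ) : ℤ)
            omega
        apply hW
        · unfold c0
          intro h
          rw [Prod.mk.injEq] at h
          omega
        · unfold c1
          intro h
          rw [Prod.mk.injEq] at h
          omega
        · left
          exact ⟨_, g3, hcl⟩
    · apply hW _ hne0 hne1
      right
      by_cases hy3 : y ≤ 14
      · left
        exact ⟨by show 16 ≤ 16 + x; omega, by show 16 + x ≤ 16 + y; omega,
          by show 27 ≤ 16 + y; omega, by show 16 + y ≤ 30; omega⟩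
      · right
        show 31 ≤ 16 + y
        omega
  refine ⟨N + 2, c0, by simp, by simp, Or.inr ?_⟩
  intro e he _
  refine ⟨no_five_small (by simp), ?_⟩
  obtain ⟨k, hk, x, y, hx, hxy, rfl⟩ := rot_cover e
  have e1 : (insert c0 ∅ : Finset Cell) = {c0} := by simp
  have e2 : (insert (rot k (16 + x, 16 + y)) ∅ : Finset Cell) = {rot k (16 + x, 16 + y)} := by simp
  rw [e1, e2]
  apply hrot k hk
  apply hoct x y hx hxy
  rintro h
  rw [Prod.mk.injEq] at h
  apply he
  rw [h.1, h.2]
  have : ((16 + 0, 16 + 0) : Cell) = c0 := by decide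
  rw [this, rot_c0]
  simp

end Pool.Agent.H98.Gomoku
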