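set_option autoImplicit false

/-!
The strategy checker. Everything is written with the basic operations on natural numbers, for which
the kernel has fast evaluation, and in continuation passing style.

Boards of cells are numbers with bit `x + 32 * y` for the cell `(x, y)`; boards of windows are numbers
with bit `2048 * k + p + 132` for the window with direction `k` and first cell `p`.
-/
namespace Pool.Agent.H98.Gomoku.G

abbrev K := Nat → Nat → Nat → Nat → List Nat → Bool
abbrev BNT := Nat → List Nat → Nat → Nat → Nat → Nat → Nat → Nat → Nat → K → Bool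

def PAT : Nat := 0x1000000020000000400000008000000100000000000000000000000000000000000000000000000000000000000000000000000000000000000000000000000000000000000000000000000000000000000000000000000000000000000000000000000000000000000000000000000000000000000000000000000000000000000000000000000000000000000000000000000000000000000000000000000000000000000000000000000000000000000000000000000000000000000000000000000000000000000000000000000000000000000000000000000000000000000000000000000000000000000000000000000000000000000000000000000010000000080000000400000002000000010000000000000000000000000000000000000000000000000000000000000000000000000000000000000000000000000000000000000000000000000000000000000000000000000000000000000000000000000000000000000000000000000000000000000000000000000000000000000000000000000000000000000000000000000000000000000000000000000000000000000000000000000000000000000000000000000000000000000000000000000000000000000000000000000000000000000000000000000000000000000000000000000000000000000000000000000000000000000000000000100000001000000010000000100000001000000000000000000000000000000000000000000000000000000000000000000000000000000000000000000000000000000000000000000000000000000000000000000000000000000000000000000000000000000000000000000000000000000000000000000000000000000000000000000000000000000000000000000000000000000000000000000000000000000000000000000000000000000000000000000000000000000000000000000000000000000000000000000000000000000000000000000000000000000000000000000000000000000000000000000000000000000000000000000000001f00000000000000000000000000000000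
def WT : Nat := 0x1000000020000000400000008000000100000010000000080000000400000002000000010000000100000001000000010000000100000001000000000000000000000000000000000000001f
def ST : Nat := 0x1f212001
def INNER : Nat := 0xffffff00ffffff00ffffff00ffffff00ffffff00ffffff00ffffff00ffffff00ffffff00ffffff00ffffff00ffffff00ffffff00ffffff00ffffff00ffffff00ffffff00ffffff00ffffff00ffffff00ffffff00ffffff00ffffff00ffffff000000000000000000000000000000000
def FULL : Nat := 0xffffffffffffffffffffffffffffffffffffffffffffffffffffffffffffffffffffffffffffffffffffffffffffffffffffffffffffffffffffffffffffffffffffffffffffffffffffffffffffffffffffffffffffffffffffffffffffffffffffffffffffffffffffffffffffffffffffffffffffffffffffffffffffffff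
def M160 : Nat := 0xffffffffffffffffffffffffffffffffffffffff

/-- force a natural number before going on -/
def fc (n : Nat) (f : Nat → Bool) : Bool := Nat.rec (f 0) (fun m _ => f (Nat.succ m)) n

/-- `a \\ b` -/
def sdf (a b : Nat) : Nat := Nat.xor a (Nat.land a b)

def sp1 (y s : Nat) : Nat :=
  Nat.lor (Nat.lor (Nat.lor y (Nat.shiftLeft y s)) (Nat.lor (Nat.shiftLeft y (Nat.mul 2 s)) (Nat.shiftLeft y (Nat.mul 3 s)))) (Nat.shiftLeft y (Nat.mul 4 s))

/-- cells of the windows in a window board -/
def spread (z : Nat) : Nat :=
  cond (Nat.beq z 0) 0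
    (Nat.land (Nat.shiftRight (Nat.lor (Nat.lor (sp1 z 1) (sp1 (Nat.shiftRight z 2048) 32))
      (Nat.lor (sp1 (Nat.shiftRight z 4096) 33) (sp1 (Nat.shiftRight z 6144) 31))) 132) FULL)

/-- window mask of a window token -/
def wmask (d p : Nat) : Nat := Nat.shiftLeft (Nat.land (Nat.shiftRight WT (Nat.mul 160 d)) M160) p
def sh (d : Nat) : Nat := Nat.land (Nat.shiftRight ST (Nat.mul 8 d)) 255

/-- add a White stone (window pattern `m`) to the count boards -/
def addC (m c1 c2 c3 c4 : Nat) (k : Nat → Nat → Nat → Nat → Bool) : Bool :=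
  k (Nat.lor c1 m) (Nat.lor c2 (Nat.land c1 m)) (Nat.lor c3 (Nat.land c2 m)) (Nat.lor c4 (Nat.land c3 m))

/-- a five token `t` : layout tag 2, d 2, i 3, unused 3, p 10 -/
def five (t B fr : Nat) (k : Nat → Bool) : Bool :=
  (fun d i p =>
    (fun fb m => cond (Nat.beq (Nat.land fr fb) fb) (cond (Nat.beq (Nat.land (Nat.lor B fb) m) m) (k fb) false) false)
      (Nat.shiftLeft 1 (Nat.add p (Nat.mul i (sh d)))) (wmask d p))
    (Nat.land (Nat.shiftRight t 2) 3) (Nat.land (Nat.shiftRight t 4) 7) (Nat.shiftRight t 10)

/-- a step token: tag 2, d 2, ib 3, iw 3, p 10; continuation gets b-index, w-index, B', fr' , new cells -/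
def step (t B fr : Nat) (k : Nat → Nat → Nat → Nat → Nat → Bool) : Bool :=
  (fun d p =>
    (fun s =>
      (fun b w =>
        (fun bb wb m =>
          cond (Nat.beq (Nat.land fr bb) bb)
            (cond (Nat.beq (Nat.land (Nat.xor fr bb) wb) wb)
              (cond (Nat.beq (Nat.land (Nat.lor (Nat.lor B bb) wb) m) m)
                (k b w (Nat.lor B bb) (Nat.xor (Nat.xor fr bb) wb) (Nat.lor bb wb)) false) false) false)
          (Nat.shiftLeft 1 b) (Nat.shiftLeft 1 w) (wmask d p))
        (Nat.add p (Nat.mul (Nat.land (Nat.shiftRight t 4) 7) s)) (Nat.add p (Nat.mul (Nat.land (Nat.shiftRight t 7) 7) s)))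
      (sh d))
    (Nat.land (Nat.shiftRight t 2) 3) (Nat.shiftRight t 10)

/-- sequence mode: `pd` = window pattern of the pending White reply, `z` = used cells -/
noncomputable def seq (l : List Nat) : Nat → Nat → Nat → Nat → Nat → Nat → Nat → Nat → Nat → K → Bool :=
  List.rec (motive := fun _ => Nat → Nat → Nat → Nat → Nat → Nat → Nat → Nat → Nat → K → Bool)
    (fun _ _ _ _ _ _ _ _ _ _ => false)
    (fun t rest ih B fr pd bl c1 c2 c3 c4 z k =>
      cond (Nat.beq (Nat.land t 3) 0)
        (five t B fr fun fb =>
          cond (Nat.beq (sdf c4 bl) 0) (k (Nat.lor z fb) (sdf c3 bl) (sdf c2 bl) (sdf c1 bl) rest) false)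
        (step t B fr fun _ w B' fr' u =>
          addC pd c1 c2 c3 c4 fun c1' c2' c3' c4' =>
            ih B' fr' (Nat.shiftLeft PAT w) bl c1' c2' c3' c4' (Nat.lor z u) k))
    l

/-- defaults loop -/
def defL (bn : BNT) (n : Nat) : Nat → List Nat → Nat → Nat → Nat → Nat → Nat → Nat → Nat →
    Nat → Nat → Nat → Nat → Nat → (Nat → K) → Bool :=
  Nat.rec (motive := fun _ => Nat → List Nat → Nat → Nat → Nat → Nat → Nat → Nat → Nat →
    Nat → Nat → Nat → Nat → Nat → (Nat → K) → Bool)
    (fun _ l _ _ _ _ _ _ _ E z z1 z2 z3 k => fc E fun E => fc z fun z => fc z1 fun z1 => fc z2 fun z2 => fc z3 fun z3 => k E z z1 z2 z3 l)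
    (fun _ ih lv l B fr bl c1 c2 c3 c4 E z z1 z2 z3 k =>
      bn lv l B fr bl c1 c2 c3 c4 fun y y1 y2 y3 l' =>
        ih lv l' B fr bl c1 c2 c3 c4 (Nat.land E (Nat.lor y (spread y1))) (Nat.lor z y) (Nat.lor z1 y2) (Nat.lor z2 y3) (Nat.lor z3 y3) k)
    n

/-- explicit replies loop -/
noncomputable def expL (bn : BNT) (n : Nat) : Nat → List Nat → Nat → Nat → Nat → Nat → Nat → Nat → Nat →
    Nat → Nat → Nat → Nat → Nat → K → Bool :=
  Nat.rec (motive := fun _ => Nat → List Nat → Nat → Nat → Nat → Nat → Nat → Nat → Nat →
    Nat → Nat → Nat → Nat → Nat → K → Bool)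
    (fun _ l _ _ _ _ _ _ _ E z z1 z2 z3 k => cond (Nat.beq E 0) (k z z1 z2 z3 l) false)
    (fun _ ih lv l B fr bl c1 c2 c3 c4 E z z1 z2 z3 k =>
      List.rec (motive := fun _ => Bool) false (fun e l' _ =>
        (fun eb =>
          cond (Nat.beq (Nat.land fr eb) eb)
            (addC (Nat.shiftLeft PAT e) c1 c2 c3 c4 fun c1' c2' c3' c4' =>
              bn lv l' B (Nat.xor fr eb) bl c1' c2' c3' c4' fun y y1 y2 y3 l'' =>
                ih lv l'' B fr bl c1 c2 c3 c4 (sdf E eb) (Nat.lor z y) (Nat.lor z1 y1) (Nat.lor z2 y2) (Nat.lor z3 y3) k)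
            false)
          (Nat.shiftLeft 1 e)) l)
    n

/-- node: token layout tag 2, b 10, nd 5; next token is the number of explicit replies -/
noncomputable def node (bn : BNT) (lv : Nat) (t : Nat) (l : List Nat) (B fr bl c1 c2 c3 c4 : Nat) (k : K) : Bool :=
  Nat.rec (motive := fun _ => Bool) false (fun lv' _ =>
    List.rec (motive := fun _ => Bool) false (fun ne l' _ =>
      (fun b bb =>
        cond (Nat.beq (Nat.land fr bb) bb)
          (fc (Nat.lor B bb) fun B' => fc (Nat.xor fr bb) fun fr' => fc (Nat.lor bl (Nat.shiftLeft PAT b)) fun bl' =>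
            cond (Nat.beq (sdf c4 bl') 0)
              (defL bn (Nat.land (Nat.shiftRight t 12) 31) lv' l' B' fr' bl' c1 c2 c3 c4
                (Nat.xor FULL (Nat.xor INNER fr')) bb (sdf c3 bl') (sdf c2 bl') (sdf c1 bl')
                fun E z z1 z2 z3 l'' => expL bn ne lv l'' B' fr' bl' c1 c2 c3 c4 E z z1 z2 z3 k)
              false)
          false)
        (Nat.land (Nat.shiftRight t 2) 1023) (Nat.shiftLeft 1 (Nat.land (Nat.shiftRight t 2) 1023))) l) lv

/-- pairing: the cells of the pair are counted as White's, windows through both are ignored -/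
noncomputable def pairT (bn : BNT) (lv : Nat) (t : Nat) (l : List Nat) (B fr bl c1 c2 c3 c4 : Nat) (k : K) : Bool :=
  List.rec (motive := fun _ => Bool) false (fun y l' _ =>
    (fun x =>
      (fun xb yb xp yp =>
        cond (Nat.beq (Nat.land fr xb) xb)
          (cond (Nat.beq (Nat.land (Nat.xor fr xb) yb) yb)
            (addC xp c1 c2 c3 c4 fun c1 c2 c3 c4 => addC yp c1 c2 c3 c4 fun c1 c2 c3 c4 =>
              bn lv l' B (Nat.xor (Nat.xor fr xb) yb) (Nat.lor bl (Nat.land xp yp)) c1 c2 c3 c4
                fun z z1 z2 z3 r => k (Nat.lor z (Nat.lor xb yb)) z1 z2 z3 r)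
            false)
          false)
        (Nat.shiftLeft 1 x) (Nat.shiftLeft 1 y) (Nat.shiftLeft PAT x) (Nat.shiftLeft PAT y))
      (Nat.shiftRight t 2)) l

noncomputable def bnStep (bn : BNT) : BNT := fun lv l B fr bl c1 c2 c3 c4 k =>
  List.rec (motive := fun _ => Bool) false (fun t l' _ =>
    Nat.rec (motive := fun _ => Bool)
      (five t B fr fun fb => k fb 0 0 0 l')
      (fun q _ => Nat.rec (motive := fun _ => Bool)
        (step t B fr fun b w B' fr' u => seq l' B' fr' (Nat.shiftLeft PAT w) (Nat.lor bl (Nat.shiftLeft PAT b)) c1 c2 c3 c4 u k)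
        (fun r _ => Nat.rec (motive := fun _ => Bool)
          (node bn lv t l' B fr bl c1 c2 c3 c4 k)
          (fun _ _ => pairT bn lv t l' B fr bl c1 c2 c3 c4 k) r) q)
      (Nat.land t 3)) l

noncomputable def bn (fuel : Nat) : BNT := Nat.rec (motive := fun _ => BNT) (fun _ _ _ _ _ _ _ _ _ _ => false) (fun _ ih => bnStep ih) fuel

/-- split a big number into tokens of 20 bits -/
def toks (d : Nat) : Nat → List Nat → List Nat :=
  Nat.rec (motive := fun _ => Nat → List Nat → List Nat) (fun n l => n :: l)
    (fun d ih n l => ih (Nat.land n (Nat.sub (Nat.pow 2 (Nat.mul 20 (Nat.pow 2 d))) 1)) (ih (Nat.shiftRight n (Nat.mul 20 (Nat.pow 2 d))) l)) d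

/-- put black stones -/
def startB : List Nat → Nat → Nat → Nat → (Nat → Nat → Nat → Bool) → Bool
  | [], B, fr, bl, k => k B fr bl
  | b :: bs, B, fr, bl, k =>
    cond (Nat.beq (Nat.land fr (Nat.shiftLeft 1 b)) (Nat.shiftLeft 1 b))
      (startB bs (Nat.lor B (Nat.shiftLeft 1 b)) (Nat.xor fr (Nat.shiftLeft 1 b)) (Nat.lor bl (Nat.shiftLeft PAT b)) k)
      false

/-- put white stones -/
def startW : List Nat → Nat → Nat → Nat → Nat → Nat → (Nat → Nat → Nat → Nat → Nat → Bool) → Bool
  | [], fr, c1, c2, c3, c4, k => k fr c1 c2 c3 c4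
  | w :: ws, fr, c1, c2, c3, c4, k =>
    cond (Nat.beq (Nat.land fr (Nat.shiftLeft 1 w)) (Nat.shiftLeft 1 w))
      (addC (Nat.shiftLeft PAT w) c1 c2 c3 c4 fun c1 c2 c3 c4 =>
        startW ws (Nat.xor fr (Nat.shiftLeft 1 w)) c1 c2 c3 c4 k)
      false

/-- check a strategy tree from the position with the given stones -/
noncomputable def run (bs ws : List Nat) (lv : Nat) (l : List Nat) (k : K) : Bool :=
  startB bs 0 INNER 0 fun B fr bl => startW ws fr 0 0 0 0 fun fr c1 c2 c3 c4 =>
    bn 1000000 lv l B fr bl c1 c2 c3 c4 k

/-- check a strategy tree -/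
noncomputable def posC (bs ws : List Nat) (l : List Nat) : Bool := run bs ws 3 l fun _ _ _ _ _ => true

/-- check a strategy tree that works for one more white stone outside the mask -/
noncomputable def famC (bs ws : List Nat) (A : Nat) (l : List Nat) : Bool :=
  run bs ws 2 l fun z z1 _ _ _ => Nat.beq (sdf (Nat.lor z (spread z1)) A) 0

/-- the same without white stones and with a board for the relevant cells -/
noncomputable def mC (A K : Nat) (l : List Nat) : Bool :=
  run [497, 528] [] 2 l fun z z1 _ z3 _ =>
    cond (Nat.beq (sdf (Nat.lor z (spread z1)) A) 0) (Nat.beq (sdf (Nat.lor z (spread z3)) K) 0) false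

/-- number with the bits of a list -/
def ofL (l : List Nat) : Nat := l.foldr (fun j a => Nat.lor (Nat.shiftLeft 1 j) a) 0

/-- side conditions of a node with move `b`, masks `As` and explicit replies `Ex` -/
def nodeOK (bs ws : List Nat) (b : Nat) (As Ex : List Nat) : Bool :=
  ((startB (b :: bs) 0 INNER 0 fun _ fr bl => startW ws fr 0 0 0 0 fun _ _ _ _ c4 => Nat.beq (sdf c4 bl) 0) &&
    ((bs ++ ws).all fun i => !Nat.beq i b && Nat.ble i 1023) && Nat.ble b 1023) &&
    (!As.isEmpty && Nat.beq (sdf (As.foldr Nat.land FULL) (ofL (b :: (bs ++ (ws ++ Ex))))) 0)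

/-- positions shown to be won -/
inductive Pos : List Nat → List Nat → Prop
  | leaf {bs ws : List Nat} (l : List Nat) (h : posC bs ws l = true) : Pos bs ws
  | node {bs ws : List Nat} (b : Nat) (As Ex : List Nat)
      (hA : ∀ A ∈ As, ∃ l, famC (b :: bs) ws A l = true)
      (hE : ∀ e ∈ Ex, Pos (b :: bs) (e :: ws))
      (h : nodeOK bs ws b As Ex = true) : Pos bs ws

theorem allNil {α : Type} {P : α → Prop} : ∀ x ∈ ([] : List α), P x := fun x h => nomatch h

theorem allCons {α : Type} {P : α → Prop} {a : α} {l : List α} (h : P a) (t : ∀ x ∈ l, P x) :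
    ∀ x ∈ a :: l, P x := fun x hx => by
  cases hx with
  | head => exact h
  | tail _ hx => exact t x hx

/-- list of won pairs `(o, p, q)`: index of the first black stone and of the white stones -/
inductive PosL : List (Nat × Nat × Nat) → Prop
  | nil : PosL []
  | cons {o p q : Nat} {L : List (Nat × Nat × Nat)} (h : Pos [o, Nat.sub o 31] [p, q]) (t : PosL L) :
      PosL ((o, p, q) :: L)

/-- list of families `(r, A)` -/
inductive FamL : List (Nat × Nat) → Prop
  | nil : FamL []
  | cons {r A : Nat} {L : List (Nat × Nat)} (h : ∃ l, famC [497, 528] [r] A l = true)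
      (t : FamL L) : FamL ((r, A) :: L)

end Pool.Agent.H98.Gomoku.G
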