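import Pool.Agent.H98.Gomoku.Board
import Pool.Agent.H98.Gomoku.Chk

set_option autoImplicit false

namespace Pool.Agent.H98.Gomoku
open G

theorem tb_lor (a b i : ℕ) : (Nat.lor a b).testBit i = (a.testBit i || b.testBit i) := Nat.testBit_or a b i
theorem tb_land (a b i : ℕ) : (Nat.land a b).testBit i = (a.testBit i && b.testBit i) := Nat.testBit_and a b i
theorem tb_xor (a b i : ℕ) : (Nat.xor a b).testBit i = (a.testBit i ^^ b.testBit i) := Nat.testBit_xor a b i
theorem tb_sdf (a b i : ℕ) : (sdf a b).testBit i = (a.testBit i && !b.testBit i) := by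
  unfold sdf
  rw [tb_xor, tb_land]
  cases a.testBit i <;> cases b.testBit i <;> rfl
theorem tb_shl (a n i : ℕ) : (Nat.shiftLeft a n).testBit i = (decide (n ≤ i) && a.testBit (i - n)) :=
  Nat.testBit_shiftLeft a
theorem tb_shr (a n i : ℕ) : (Nat.shiftRight a n).testBit i = a.testBit (n + i) :=
  Nat.testBit_shiftRight a
theorem tb_one (b i : ℕ) : (Nat.shiftLeft 1 b).testBit i = decide (i = b) := by
  rw [tb_shl]
  by_cases h : i = b
  · subst h; simp
  · by_cases h2 : b ≤ i
    · have h3 : i - b ≠ 0 := by omega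
      have h4 : Nat.testBit 1 (i - b) = false := by
        rw [Nat.testBit_one_eq_true_iff_self_eq_zero.not.mpr h3 |> Bool.eq_false_iff.mpr]
      simp [h, h4]
    · simp [h, h2]

theorem sub_of_beq {a b : ℕ} (h : Nat.beq (Nat.land a b) b = true) {i : ℕ} (hi : b.testBit i = true) :
    a.testBit i = true := by
  have h' := Nat.eq_of_beq_eq_true h
  have := congrArg (fun n => n.testBit i) h'
  simp only [tb_land, hi, Bool.and_true] at this
  exact this

theorem zero_of_beq {a : ℕ} (h : Nat.beq a 0 = true) (i : ℕ) : a.testBit i = false := by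
  rw [Nat.eq_of_beq_eq_true h, Nat.zero_testBit]

theorem tb_ofL (l : List ℕ) (i : ℕ) : (ofL l).testBit i = true ↔ i ∈ l := by
  induction l with
  | nil => simp [ofL]
  | cons a l ih =>
    have : ofL (a :: l) = Nat.lor (Nat.shiftLeft 1 a) (ofL l) := rfl
    rw [this, tb_lor, tb_one, Bool.or_eq_true, ih, decide_eq_true_iff, List.mem_cons]

def patL : List ℕ := [132, 131, 130, 129, 128, 2180, 2148, 2116, 2084, 2052, 4228, 4195, 4162, 4129, 4096,
  6276, 6245, 6214, 6183, 6152]

theorem pat_eq : PAT = ofL patL := by decide +kernel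

theorem tb_pat {j : ℕ} (h : PAT.testBit j = true) : ∃ k t, k < 4 ∧ t < 5 ∧ j + t * sk k = 2048 * k + 132 := by
  rw [pat_eq, tb_ofL] at h
  simp only [patL, List.mem_cons, List.not_mem_nil, or_false] at h
  rcases h with h | h | h | h | h | h | h | h | h | h | h | h | h | h | h | h | h | h | h | h <;> subst h
  · exact ⟨0, 0, by norm_num, by norm_num, by decide⟩
  · exact ⟨0, 1, by norm_num, by norm_num, by decide⟩
  · exact ⟨0, 2, by norm_num, by norm_num, by decide⟩
  · exact ⟨0, 3, by norm_num, by norm_num, by decide⟩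
  · exact ⟨0, 4, by norm_num, by norm_num, by decide⟩
  · exact ⟨1, 0, by norm_num, by norm_num, by decide⟩
  · exact ⟨1, 1, by norm_num, by norm_num, by decide⟩
  · exact ⟨1, 2, by norm_num, by norm_num, by decide⟩
  · exact ⟨1, 3, by norm_num, by norm_num, by decide⟩
  · exact ⟨1, 4, by norm_num, by norm_num, by decide⟩
  · exact ⟨2, 0, by norm_num, by norm_num, by decide⟩
  · exact ⟨2, 1, by norm_num, by norm_num, by decide⟩
  · exact ⟨2, 2, by norm_num, by norm_num, by decide⟩
  · exact ⟨2, 3, by norm_num, by norm_num, by decide⟩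
  · exact ⟨2, 4, by norm_num, by norm_num, by decide⟩
  · exact ⟨3, 0, by norm_num, by norm_num, by decide⟩
  · exact ⟨3, 1, by norm_num, by norm_num, by decide⟩
  · exact ⟨3, 2, by norm_num, by norm_num, by decide⟩
  · exact ⟨3, 3, by norm_num, by norm_num, by decide⟩
  · exact ⟨3, 4, by norm_num, by norm_num, by decide⟩

theorem pat_tb : ∀ k, k < 4 → ∀ t, t < 5 → PAT.testBit (2048 * k + 132 - t * sk k) = true := by
  decide +kernel

theorem pat_mem {w : Finset Cell} {k p : ℕ} (hr : Rep w k p) {x : Cell} (hx : x ∈ w) :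
    (Nat.shiftLeft PAT (ix x)).testBit (wb k p) = true := by
  obtain ⟨_, t, ht, he⟩ := (hr.mem x).1 hx
  have hk := hr.hk
  have hs : sk k ≤ 33 := by
    unfold sk; split_ifs <;> omega
  have h1 : t * sk k ≤ 132 := by
    calc t * sk k ≤ 4 * 33 := Nat.mul_le_mul (by omega) hs
      _ = 132 := by norm_num
  rw [tb_shl, Bool.and_eq_true, decide_eq_true_iff]
  refine ⟨by unfold wb; omega, ?_⟩
  have : wb k p - ix x = 2048 * k + 132 - t * sk k := by unfold wb; omega
  rw [this]
  exact pat_tb k hk t ht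

theorem mem_pat {w : Finset Cell} {k p : ℕ} (hr : Rep w k p) {x : Cell} (hx : InB x)
    (h : (Nat.shiftLeft PAT (ix x)).testBit (wb k p) = true) : x ∈ w := by
  rw [tb_shl, Bool.and_eq_true, decide_eq_true_iff] at h
  obtain ⟨h1, h2⟩ := h
  obtain ⟨k', t, hk', ht, he⟩ := tb_pat h2
  have hx' := ix_lt hx
  have hp := hr.hp
  have hk := hr.hk
  have hs : sk k' ≤ 33 := by
    unfold sk; split_ifs <;> omega
  have h3 : t * sk k' ≤ 132 := by
    calc t * sk k' ≤ 4 * 33 := Nat.mul_le_mul (by omega) hs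
      _ = 132 := by norm_num
  have hkk : k = k' := by unfold wb at he h1; omega
  subst hkk
  refine (hr.mem x).2 ⟨hx, t, ht, ?_⟩
  unfold wb at he h1
  omega

theorem wmask_tb : ∀ d, d < 4 → ∀ t, t < 5 →
    (Nat.land (Nat.shiftRight WT (Nat.mul 160 d)) M160).testBit (t * sk d) = true := by
  decide +kernel

theorem sh_eq : ∀ d, d < 4 → sh d = sk d := by
  decide +kernel

theorem wmask_bit {d p t : ℕ} (hd : d < 4) (ht : t < 5) : (wmask d p).testBit (p + t * sk d) = true := by
  unfold wmask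
  rw [tb_shl, Bool.and_eq_true, decide_eq_true_iff]
  refine ⟨by omega, ?_⟩
  have : p + t * sk d - p = t * sk d := by omega
  rw [this]
  exact wmask_tb d hd t ht

theorem inner_tb : ∀ x, x < 32 → ∀ y, y < 32 → (INNER.testBit (x + 32 * y) = decide (4 ≤ x ∧ x < 28 ∧ 4 ≤ y ∧ y < 28)) := by
  decide +kernel

theorem INNER_lt : INNER < 2 ^ 1024 := by decide +kernel

theorem inner_iff {i : ℕ} : INNER.testBit i = true ↔ i < 1024 ∧ Inner (cl i) := by
  constructor
  · intro h
    have hi : i < 1024 := by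
      by_contra hc
      have := Nat.testBit_eq_false_of_lt (lt_of_lt_of_le INNER_lt (Nat.pow_le_pow_right (by norm_num) (Nat.le_of_not_lt hc)))
      rw [this] at h
      exact absurd h (by simp)
    refine ⟨hi, ?_⟩
    have := inner_tb (i % 32) (by omega) (i / 32) (by omega)
    rw [show i % 32 + 32 * (i / 32) = i by omega, h] at this
    have h' := of_decide_eq_true this.symm
    simp only [Inner, cl]
    omega
  · rintro ⟨hi, h⟩
    have := inner_tb (i % 32) (by omega) (i / 32) (by omega)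
    rw [show i % 32 + 32 * (i / 32) = i by omega] at this
    rw [this, decide_eq_true_iff]
    simp only [Inner, cl] at h
    omega

theorem inner_ix {c : Cell} (h : Inner c) : INNER.testBit (ix c) = true := by
  rw [inner_iff, cl_ix h.inB]
  exact ⟨ix_lt h.inB, h⟩

theorem FULL_eq : FULL = 2 ^ 1024 - 1 := by decide +kernel

theorem full_tb {i : ℕ} : FULL.testBit i = decide (i < 1024) := by
  rw [FULL_eq, Nat.testBit_two_pow_sub_one]

/-- windows given by a mask whose cells are all inner cells are real windows -/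
theorem real_window {k p : ℕ} (hk : k < 4) (h : ∀ t, t < 5 → INNER.testBit (p + t * sk k) = true) :
    ∃ w, IsW w ∧ ∀ c ∈ w, ∃ t, t < 5 ∧ c = cl (p + t * sk k) := by
  have h0 := inner_iff.1 (h 0 (by norm_num))
  have h1 := inner_iff.1 (h 1 (by norm_num))
  have h2 := inner_iff.1 (h 2 (by norm_num))
  have h3 := inner_iff.1 (h 3 (by norm_num))
  have h4 := inner_iff.1 (h 4 (by norm_num))
  simp only [Inner, cl] at h0 h1 h2 h3 h4
  have hk' : k = 0 ∨ k = 1 ∨ k = 2 ∨ k = 3 := by omega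
  rcases hk' with rfl | rfl | rfl | rfl
  · refine ⟨wnd (cl p) (1, 0), ⟨_, _, Or.inl rfl, rfl⟩, ?_⟩
    intro c hc
    obtain ⟨t, ht, rfl⟩ := mem_wnd.1 hc
    refine ⟨t, ht, ?_⟩
    simp only [sk, if_true] at *
    have ht' : t = 0 ∨ t = 1 ∨ t = 2 ∨ t = 3 ∨ t = 4 := by omega
    rcases ht' with rfl | rfl | rfl | rfl | rfl <;> simp only [wc, cl, Prod.mk.injEq] <;> omega
  · refine ⟨wnd (cl p) (0, 1), ⟨_, _, Or.inr (Or.inl rfl), rfl⟩, ?_⟩
    intro c hc
    obtain ⟨t, ht, rfl⟩ := mem_wnd.1 hc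
    refine ⟨t, ht, ?_⟩
    have hs : sk 1 = 32 := rfl
    rw [hs] at *
    have ht' : t = 0 ∨ t = 1 ∨ t = 2 ∨ t = 3 ∨ t = 4 := by omega
    rcases ht' with rfl | rfl | rfl | rfl | rfl <;> simp only [wc, cl, Prod.mk.injEq] <;> omega
  · refine ⟨wnd (cl p) (1, 1), ⟨_, _, Or.inr (Or.inr (Or.inl rfl)), rfl⟩, ?_⟩
    intro c hc
    obtain ⟨t, ht, rfl⟩ := mem_wnd.1 hc
    refine ⟨t, ht, ?_⟩
    have hs : sk 2 = 33 := rfl
    rw [hs] at *
    have ht' : t = 0 ∨ t = 1 ∨ t = 2 ∨ t = 3 ∨ t = 4 := by omega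
    rcases ht' with rfl | rfl | rfl | rfl | rfl <;> simp only [wc, cl, Prod.mk.injEq] <;> omega
  · refine ⟨wnd (cl (p + 4 * 31)) (1, -1), ⟨_, _, Or.inr (Or.inr (Or.inr rfl)), rfl⟩, ?_⟩
    intro c hc
    obtain ⟨t, ht, rfl⟩ := mem_wnd.1 hc
    refine ⟨4 - t, by omega, ?_⟩
    have hs : sk 3 = 31 := rfl
    rw [hs] at *
    have ht' : t = 0 ∨ t = 1 ∨ t = 2 ∨ t = 3 ∨ t = 4 := by omega
    rcases ht' with rfl | rfl | rfl | rfl | rfl <;> simp only [wc, cl, Prod.mk.injEq] <;> omega

end Pool.Agent.H98.Gomoku
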