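import Pool.Agent.H98.Gomoku.Game

set_option autoImplicit false

/-!
The 32 x 32 working area, its linear indexing, and the windows that meet the inner area.
-/

namespace Pool.Agent.H98.Gomoku

/-- a window, as a set of cells -/
def IsW (w : Finset Cell) : Prop := ∃ a d : Cell, Dir d ∧ w = wnd a d

theorem IsW.card {w : Finset Cell} (h : IsW w) : w.card = 5 := by
  obtain ⟨a, d, hd, rfl⟩ := h
  exact wnd_card hd

theorem five_iff {S : Finset Cell} : Five S ↔ ∃ w, IsW w ∧ w ⊆ S :=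
  ⟨fun ⟨a, d, hd, h⟩ => ⟨_, ⟨a, d, hd, rfl⟩, h⟩, fun ⟨_, ⟨a, d, hd, hw⟩, h⟩ => ⟨a, d, hd, hw ▸ h⟩⟩

/-- linear index -/
def ix (c : Cell) : ℕ := (c.1 + 32 * c.2).toNat

def InB (c : Cell) : Prop := 0 ≤ c.1 ∧ c.1 < 32 ∧ 0 ≤ c.2 ∧ c.2 < 32
def Inner (c : Cell) : Prop := 4 ≤ c.1 ∧ c.1 < 28 ∧ 4 ≤ c.2 ∧ c.2 < 28

instance (c : Cell) : Decidable (InB c) := by unfold InB; infer_instance
instance (c : Cell) : Decidable (Inner c) := by unfold Inner; infer_instance

theorem Inner.inB {c : Cell} (h : Inner c) : InB c := by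
  obtain ⟨h1, h2, h3, h4⟩ := h
  exact ⟨by omega, by omega, by omega, by omega⟩

theorem ix_eq {c : Cell} (h : InB c) : (ix c : ℤ) = c.1 + 32 * c.2 := by
  obtain ⟨h1, h2, h3, h4⟩ := h
  unfold ix
  omega

theorem ix_lt {c : Cell} (h : InB c) : ix c < 1024 := by
  have := ix_eq h
  obtain ⟨h1, h2, h3, h4⟩ := h
  omega

theorem ix_inj {c c' : Cell} (h : InB c) (h' : InB c') (he : ix c = ix c') : c = c' := by
  have e1 := ix_eq h
  have e2 := ix_eq h'
  obtain ⟨h1, h2, h3, h4⟩ := h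
  obtain ⟨g1, g2, g3, g4⟩ := h'
  ext <;> omega

/-- cell of an index -/
def cl (i : ℕ) : Cell := ((i % 32 : ℕ), (i / 32 : ℕ))

theorem cl_inB {i : ℕ} (h : i < 1024) : InB (cl i) := by
  simp only [InB, cl]
  omega

theorem ix_cl {i : ℕ} : ix (cl i) = i := by
  simp only [ix, cl]
  omega

theorem cl_ix {c : Cell} (h : InB c) : cl (ix c) = c :=
  ix_inj (cl_inB (ix_lt h)) h ix_cl

/-- step of the linear index in the four directions -/
def sk (k : ℕ) : ℕ := if k = 0 then 1 else if k = 1 then 32 else if k = 2 then 33 else 31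

/-- `w` is the window with direction `k` and linear start index `p`, inside the working area -/
structure Rep (w : Finset Cell) (k p : ℕ) : Prop where
  hk : k < 4
  hp : p + 4 * sk k < 1024
  mem : ∀ c, c ∈ w ↔ InB c ∧ ∃ t, t < 5 ∧ ix c = p + t * sk k
  cell : ∀ t, t < 5 → ∃ c ∈ w, ix c = p + t * sk k
  isW : IsW w

theorem rep_of_inner {w : Finset Cell} (hw : IsW w) {c : Cell} (hc : c ∈ w) (hi : Inner c) :
    ∃ k p, Rep w k p := by
  obtain ⟨a, d, hd, rfl⟩ := hw
  obtain ⟨t, ht, rfl⟩ := mem_wnd.1 hc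
  obtain ⟨a1, a2⟩ := a
  obtain ⟨h1, h2, h3, h4⟩ := hi
  rcases hd with rfl | rfl | rfl | rfl
  · simp only [wc] at h1 h2 h3 h4
    have hin : ∀ s : ℕ, s < 5 → InB (wc (a1, a2) (1, 0) s) := by
      intro s hs
      simp only [InB, wc]
      omega
    have hix : ∀ s : ℕ, s < 5 → ix (wc (a1, a2) (1, 0) s) = (a1 + 32 * a2).toNat + s * 1 := by
      intro s hs
      have := ix_eq (hin s hs)
      simp only [wc] at this ⊢
      omega
    refine ⟨0, (a1 + 32 * a2).toNat, ⟨by norm_num, ?_, ?_, ?_, ⟨_, _, Or.inl rfl, rfl⟩⟩⟩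
    · simp only [sk]; simp; omega
    · intro c
      constructor
      · intro h
        obtain ⟨s, hs, rfl⟩ := mem_wnd.1 h
        exact ⟨hin s hs, s, hs, hix s hs⟩
      · rintro ⟨hcb, s, hs, he⟩
        refine mem_wnd.2 ⟨s, hs, ?_⟩
        exact ix_inj (hin s hs) hcb ((hix s hs).trans he.symm)
    · intro s hs
      exact ⟨_, mem_wnd.2 ⟨s, hs, rfl⟩, hix s hs⟩
  · simp only [wc] at h1 h2 h3 h4
    have hin : ∀ s : ℕ, s < 5 → InB (wc (a1, a2) (0, 1) s) := by
      intro s hs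
      simp only [InB, wc]
      omega
    have hix : ∀ s : ℕ, s < 5 → ix (wc (a1, a2) (0, 1) s) = (a1 + 32 * a2).toNat + s * 32 := by
      intro s hs
      have := ix_eq (hin s hs)
      simp only [wc] at this ⊢
      omega
    refine ⟨1, (a1 + 32 * a2).toNat, ⟨by norm_num, ?_, ?_, ?_, ⟨_, _, Or.inr (Or.inl rfl), rfl⟩⟩⟩
    · simp only [sk]; simp; omega
    · intro c
      constructor
      · intro h
        obtain ⟨s, hs, rfl⟩ := mem_wnd.1 h
        exact ⟨hin s hs, s, hs, hix s hs⟩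
      · rintro ⟨hcb, s, hs, he⟩
        refine mem_wnd.2 ⟨s, hs, ?_⟩
        exact ix_inj (hin s hs) hcb ((hix s hs).trans he.symm)
    · intro s hs
      exact ⟨_, mem_wnd.2 ⟨s, hs, rfl⟩, hix s hs⟩
  · simp only [wc] at h1 h2 h3 h4
    have hin : ∀ s : ℕ, s < 5 → InB (wc (a1, a2) (1, 1) s) := by
      intro s hs
      simp only [InB, wc]
      omega
    have hix : ∀ s : ℕ, s < 5 → ix (wc (a1, a2) (1, 1) s) = (a1 + 32 * a2).toNat + s * 33 := by
      intro s hs
      have := ix_eq (hin s hs)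
      simp only [wc] at this ⊢
      omega
    refine ⟨2, (a1 + 32 * a2).toNat, ⟨by norm_num, ?_, ?_, ?_, ⟨_, _, Or.inr (Or.inr (Or.inl rfl)), rfl⟩⟩⟩
    · simp only [sk]; simp; omega
    · intro c
      constructor
      · intro h
        obtain ⟨s, hs, rfl⟩ := mem_wnd.1 h
        exact ⟨hin s hs, s, hs, hix s hs⟩
      · rintro ⟨hcb, s, hs, he⟩
        refine mem_wnd.2 ⟨s, hs, ?_⟩
        exact ix_inj (hin s hs) hcb ((hix s hs).trans he.symm)
    · intro s hs
      exact ⟨_, mem_wnd.2 ⟨s, hs, rfl⟩, hix s hs⟩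
  · -- the window is run through backwards
    simp only [wc] at h1 h2 h3 h4
    have hin : ∀ s : ℕ, s < 5 → InB (wc (a1, a2) (1, -1) s) := by
      intro s hs
      simp only [InB, wc]
      omega
    have hix : ∀ s : ℕ, s < 5 → ix (wc (a1, a2) (1, -1) s) = (a1 + 4 + 32 * (a2 - 4)).toNat + (4 - s) * 31 := by
      intro s hs
      have := ix_eq (hin s hs)
      simp only [wc] at this ⊢
      omega
    refine ⟨3, (a1 + 4 + 32 * (a2 - 4)).toNat, ⟨by norm_num, ?_, ?_, ?_, ⟨_, _, Or.inr (Or.inr (Or.inr rfl)), rfl⟩⟩⟩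
    · simp only [sk]; simp; omega
    · intro c
      constructor
      · intro h
        obtain ⟨s, hs, rfl⟩ := mem_wnd.1 h
        exact ⟨hin s hs, 4 - s, by omega, hix s hs⟩
      · rintro ⟨hcb, s, hs, he⟩
        refine mem_wnd.2 ⟨4 - s, by omega, ?_⟩
        have h' := hix (4 - s) (by omega)
        have h'' : 4 - (4 - s) = s := by omega
        rw [h''] at h'
        exact ix_inj (hin _ (by omega)) hcb (h'.trans he.symm)
    · intro s hs
      have h' := hix (4 - s) (by omega)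
      have h'' : 4 - (4 - s) = s := by omega
      rw [h''] at h'
      exact ⟨_, mem_wnd.2 ⟨4 - s, by omega, rfl⟩, h'⟩

/-- bit of a window in a window board -/
def wb (k p : ℕ) : ℕ := 2048 * k + p + 132

end Pool.Agent.H98.Gomoku
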