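import Pool.Agent.H98.Gomoku.Board

set_option autoImplicit false

/-!
Symmetries of the game: the eight linear symmetries and the translations.
-/
namespace Pool.Agent.H98.Gomoku

/-- the eight linear symmetries -/
def lin (k : ℕ) (c : Cell) : Cell :=
  if k = 0 then c else if k = 1 then (-c.1, c.2) else if k = 2 then (c.1, -c.2)
  else if k = 3 then (-c.1, -c.2) else if k = 4 then (c.2, c.1) else if k = 5 then (-c.2, c.1)
  else if k = 6 then (c.2, -c.1) else (-c.2, -c.1)

/-- a symmetry followed by a translation -/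
def mv (k : ℕ) (v c : Cell) : Cell := ((lin k c).1 + v.1, (lin k c).2 + v.2)

def inv (k : ℕ) : ℕ := if k = 5 then 6 else if k = 6 then 5 else k

theorem inv_lin {k : ℕ} (hk : k < 8) (c : Cell) : lin (inv k) (lin k c) = c := by
  have : k = 0 ∨ k = 1 ∨ k = 2 ∨ k = 3 ∨ k = 4 ∨ k = 5 ∨ k = 6 ∨ k = 7 := by omega
  rcases this with rfl | rfl | rfl | rfl | rfl | rfl | rfl | rfl <;> simp [lin, inv]

theorem lin_inv {k : ℕ} (hk : k < 8) (c : Cell) : lin k (lin (inv k) c) = c := by
  have : k = 0 ∨ k = 1 ∨ k = 2 ∨ k = 3 ∨ k = 4 ∨ k = 5 ∨ k = 6 ∨ k = 7 := by omega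
  rcases this with rfl | rfl | rfl | rfl | rfl | rfl | rfl | rfl <;> simp [lin, inv]

theorem lin_add {k : ℕ} (a b : Cell) : lin k (a.1 + b.1, a.2 + b.2) =
    ((lin k a).1 + (lin k b).1, (lin k a).2 + (lin k b).2) := by
  unfold lin
  split_ifs <;> simp <;> ring_nf <;> simp

theorem lin_neg {k : ℕ} (a : Cell) : lin k (-a.1, -a.2) = (-(lin k a).1, -(lin k a).2) := by
  unfold lin
  split_ifs <;> simp

/-- the inverse move -/
def imv (k : ℕ) (v c : Cell) : Cell := lin (inv k) (c.1 - v.1, c.2 - v.2)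

theorem imv_mv {k : ℕ} (hk : k < 8) (v c : Cell) : imv k v (mv k v c) = c := by
  unfold imv mv
  simp only [add_sub_cancel_right]
  exact inv_lin hk c

theorem mv_imv {k : ℕ} (hk : k < 8) (v c : Cell) : mv k v (imv k v c) = c := by
  unfold imv mv
  rw [lin_inv hk]
  simp

theorem mv_inj {k : ℕ} (hk : k < 8) (v : Cell) : Function.Injective (mv k v) := by
  intro a b h
  rw [← imv_mv hk v a, h, imv_mv hk v b]

theorem mv_window {k : ℕ} (v : Cell) {w : Finset Cell} (hw : IsW w) : IsW (w.image (mv k v)) := by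
  obtain ⟨a, d, hd, rfl⟩ := hw
  have h1 : Dir (lin k d) ∨ Dir (-(lin k d).1, -(lin k d).2) := by
    rcases hd with rfl | rfl | rfl | rfl <;> unfold lin <;> split_ifs <;> simp [Dir]
  have hwc : ∀ t : ℕ, mv k v (wc a d t) = wc (mv k v a) (lin k d) t := by
    intro t
    unfold mv wc
    rw [show ((a.1 + t * d.1, a.2 + t * d.2) : Cell) = (a.1 + ((t * d.1, t * d.2) : Cell).1,
      a.2 + ((t * d.1, t * d.2) : Cell).2) from rfl, lin_add]
    have : lin k ((t : ℤ) * d.1, (t : ℤ) * d.2) = ((t : ℤ) * (lin k d).1, (t : ℤ) * (lin k d).2) := by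
      unfold lin
      split_ifs <;> simp
    rw [this]
    ext <;> simp <;> ring
  rcases h1 with h1 | h1
  · refine ⟨mv k v a, lin k d, h1, ?_⟩
    ext c
    rw [Finset.mem_image]
    constructor
    · rintro ⟨x, hx, rfl⟩
      obtain ⟨t, ht, rfl⟩ := mem_wnd.1 hx
      exact mem_wnd.2 ⟨t, ht, (hwc t).symm⟩
    · intro hc
      obtain ⟨t, ht, rfl⟩ := mem_wnd.1 hc
      exact ⟨wc a d t, mem_wnd.2 ⟨t, ht, rfl⟩, hwc t⟩
  · refine ⟨wc (mv k v a) (lin k d) 4, _, h1, ?_⟩
    have hrev : ∀ t : ℕ, t < 5 → wc (wc (mv k v a) (lin k d) 4) (-(lin k d).1, -(lin k d).2) (4 - t) =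
        wc (mv k v a) (lin k d) t := by
      intro t ht
      unfold wc
      rw [Nat.cast_sub (by omega)]
      ext <;> simp <;> ring
    ext c
    rw [Finset.mem_image]
    constructor
    · rintro ⟨x, hx, rfl⟩
      obtain ⟨t, ht, rfl⟩ := mem_wnd.1 hx
      exact mem_wnd.2 ⟨4 - t, by omega, by rw [hrev t ht, hwc]⟩
    · intro hc
      obtain ⟨t, ht, rfl⟩ := mem_wnd.1 hc
      refine ⟨wc a d (4 - t), mem_wnd.2 ⟨4 - t, by omega, rfl⟩, ?_⟩
      rw [hwc, ← hrev (4 - t) (by omega)]
      congr 1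
      omega

theorem imv_window {k : ℕ} (hk : k < 8) (v : Cell) {w : Finset Cell} (hw : IsW w) :
    IsW (w.image (imv k v)) := by
  have : imv k v = mv (inv k) (-(lin (inv k) v).1, -(lin (inv k) v).2) := by
    funext c
    unfold imv mv
    have := lin_add (k := inv k) c (-v.1, -v.2)
    rw [lin_neg] at this
    simp only [sub_eq_add_neg]
    exact this
  rw [this]
  exact mv_window _ hw

theorem Win.map {k : ℕ} (hk : k < 8) (v : Cell) {n : ℕ} : ∀ {B W : Finset Cell}, Win n B W →
    Win n (B.image (mv k v)) (W.image (mv k v)) := by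
  have hmem : ∀ (S : Finset Cell) (c : Cell), c ∈ S.image (mv k v) ↔ imv k v c ∈ S := by
    intro S c
    rw [Finset.mem_image]
    constructor
    · rintro ⟨x, hx, rfl⟩
      rwa [imv_mv hk]
    · intro h
      exact ⟨_, h, mv_imv hk v c⟩
  induction n with
  | zero => intro B W h; exact h.elim
  | succ n ih =>
    intro B W h
    obtain ⟨b, hb1, hb2, h3⟩ := h
    refine ⟨mv k v b, by rw [hmem, imv_mv hk]; exact hb1, by rw [hmem, imv_mv hk]; exact hb2, ?_⟩
    rcases h3 with h3 | h3
    · left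
      obtain ⟨w, hw, hs⟩ := five_iff.1 h3
      refine five_iff.2 ⟨w.image (mv k v), mv_window v hw, ?_⟩
      rw [← Finset.image_insert]
      exact Finset.image_subset_image hs
    · right
      intro e he heW
      rw [← Finset.image_insert] at he ⊢
      obtain ⟨g1, g2⟩ := h3 (imv k v e) (by rw [← hmem]; exact he) (by rw [← hmem]; exact heW)
      have hins : insert e (W.image (mv k v)) = (insert (imv k v e) W).image (mv k v) := by
        rw [Finset.image_insert, mv_imv hk]
      rw [hins]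
      refine ⟨?_, ih g2⟩
      intro h5
      obtain ⟨w, hw, hs⟩ := five_iff.1 h5
      apply g1
      refine five_iff.2 ⟨w.image (imv k v), imv_window hk v hw, ?_⟩
      intro c hc
      obtain ⟨x, hx, rfl⟩ := Finset.mem_image.1 hc
      have := hs hx
      rwa [hmem] at this

end Pool.Agent.H98.Gomoku
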