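import Pool.Agent.H98.Gomoku.Sem

set_option autoImplicit false

/-!
White's first stone far away from everything that matters: Black answers the fours White can make
with it one by one.
-/
namespace Pool.Agent.H98.Gomoku

/-- points of a line -/
def lp (a d : Cell) (t : ℤ) : Cell := (a.1 + t * d.1, a.2 + t * d.2)

/-- the eight directions -/
def SDir (d : Cell) : Prop :=
  (d = (1, 0) ∨ d = (0, 1) ∨ d = (1, 1) ∨ d = (1, -1)) ∨
    (d = (-1, 0) ∨ d = (0, -1) ∨ d = (-1, -1) ∨ d = (-1, 1))

theorem Dir.sdir {d : Cell} (h : Dir d) : SDir d := Or.inl h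

theorem Dir.sdir_neg {d : Cell} (h : Dir d) : SDir (-d.1, -d.2) := by
  rcases h with rfl | rfl | rfl | rfl <;> right <;> decide

theorem lp_inj {a d : Cell} (h : SDir d) {s t : ℤ} (he : lp a d s = lp a d t) : s = t := by
  rcases h with (rfl | rfl | rfl | rfl) | (rfl | rfl | rfl | rfl) <;>
    simp only [lp, Prod.mk.injEq] at he <;> omega

theorem line_window {a d : Cell} (hd : SDir d) {w : Finset Cell} (hw : IsW w) {s t : ℤ}
    (hst : s ≠ t) (hs : lp a d s ∈ w) (ht : lp a d t ∈ w) :
    ∃ s0 : ℤ, ∀ c, c ∈ w ↔ ∃ i : ℕ, i < 5 ∧ c = lp a d (s0 + i) := by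
  obtain ⟨a', d', hd', rfl⟩ := hw
  rw [mem_wnd] at hs ht
  obtain ⟨i, hi, hie⟩ := hs
  obtain ⟨j, hj, hje⟩ := ht
  rcases hd' with rfl | rfl | rfl | rfl <;>
    rcases hd with (rfl | rfl | rfl | rfl) | (rfl | rfl | rfl | rfl) <;>
    simp only [wc, lp, Prod.mk.injEq] at hie hje <;>
    first
    | (exfalso; omega)
    | (refine ⟨s - i, fun c => ?_⟩
       rw [mem_wnd]
       constructor
       · rintro ⟨k, hk, rfl⟩
         refine ⟨k, hk, ?_⟩
         simp only [wc, lp, Prod.mk.injEq]
         constructor <;> omega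
       · rintro ⟨k, hk, rfl⟩
         refine ⟨k, hk, ?_⟩
         simp only [wc, lp, Prod.mk.injEq]
         constructor <;> omega)
    | (refine ⟨s + i - 4, fun c => ?_⟩
       rw [mem_wnd]
       constructor
       · rintro ⟨k, hk, rfl⟩
         refine ⟨4 - k, by omega, ?_⟩
         simp only [wc, lp, Prod.mk.injEq]
         constructor <;> omega
       · rintro ⟨k, hk, rfl⟩
         refine ⟨4 - k, by omega, ?_⟩
         simp only [wc, lp, Prod.mk.injEq]
         constructor <;> omega)

/-! ### the one dimensional game -/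

def cnt5 (ν s : ℕ) : ℕ :=
  (ν.testBit s).toNat + (ν.testBit (s + 1)).toNat + (ν.testBit (s + 2)).toNat +
    (ν.testBit (s + 3)).toNat + (ν.testBit (s + 4)).toNat

def blk5 (β s : ℕ) : Bool :=
  β.testBit s || β.testBit (s + 1) || β.testBit (s + 2) || β.testBit (s + 3) || β.testBit (s + 4)

def extra (s o : ℕ) : ℕ := if 4 ≤ s ∧ s ≤ 8 then 0 else o

def okW (ν β o : ℕ) : Bool :=
  (List.range 13).all fun s => blk5 β s || decide (cnt5 ν s + extra s o ≤ 3)

def blkOK (ν β o b : ℕ) : Bool :=
  (List.range 13).all fun s => blk5 β s || decide (cnt5 ν s + extra s o ≤ 3) ||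
    decide (4 ≤ s ∧ s ≤ 8 ∧ s ≤ b ∧ b ≤ s + 4)

def safe : ℕ → ℕ → ℕ → ℕ → ℕ → Bool
  | _, 0, o, ν, β => okW ν β o
  | 0, _ + 1, _, _, _ => false
  | m + 1, lv + 1, o, ν, β => okW ν β o && (safe m lv (o + 1) ν β &&
      (List.range 9).all fun i => ν.testBit (i + 4) || (β.testBit (i + 4) ||
        (safe m lv o (ν ||| 2 ^ (i + 4)) β || (List.range 9).any fun j =>
          (!(ν ||| 2 ^ (i + 4)).testBit (j + 4)) && (blkOK (ν ||| 2 ^ (i + 4)) β o (j + 4) &&
            safe m (lv + 1) o (ν ||| 2 ^ (i + 4)) (β ||| 2 ^ (j + 4))))))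

def initB : Bool := (List.range 5).all fun p => (List.range 5).all fun q => (List.range 5).all fun r =>
  decide (p = q) || (decide (p = r) || (decide (q = r) || (!decide (p = 0 ∨ q = 0 ∨ r = 0) ||
    safe 4 2 0 (2 ^ (p + 4) ||| 2 ^ (q + 4) ||| 2 ^ (r + 4)) (2 ^ 3))))

theorem initB_true : initB = true := by decide +kernel

theorem init_safe {p q r : ℕ} (hp : p < 5) (hq : q < 5) (hr : r < 5) (h1 : p ≠ q) (h2 : p ≠ r)
    (h3 : q ≠ r) (h0 : p = 0 ∨ q = 0 ∨ r = 0) :
    safe 4 2 0 (2 ^ (p + 4) ||| 2 ^ (q + 4) ||| 2 ^ (r + 4)) (2 ^ 3) = true := by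
  have h := initB_true
  unfold initB at h
  rw [List.all_eq_true] at h
  have h := h p (List.mem_range.2 hp)
  rw [List.all_eq_true] at h
  have h := h q (List.mem_range.2 hq)
  rw [List.all_eq_true] at h
  have h := h r (List.mem_range.2 hr)
  simp only [h1, h2, h3, h0, decide_false, Bool.false_or, decide_true, Bool.not_true] at h
  exact h

theorem tb_or_pow {n i j : ℕ} : (n ||| 2 ^ i).testBit j = (n.testBit j || decide (i = j)) := by
  rw [Nat.testBit_or, Nat.testBit_two_pow]

theorem blk_false {β s : ℕ} (h : ∀ i, i < 5 → β.testBit (s + i) = false) : blk5 β s = false := by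
  unfold blk5
  have h0 := h 0 (by norm_num)
  have h1 := h 1 (by norm_num)
  have h2 := h 2 (by norm_num)
  have h3 := h 3 (by norm_num)
  have h4 := h 4 (by norm_num)
  rw [Nat.add_zero] at h0
  rw [h0, h1, h2, h3, h4]
  rfl

/-- the stones on the interesting part of the line -/
structure Lay (a d : Cell) (ν o : ℕ) (V O : Finset Cell) : Prop where
  mem : ∀ c, c ∈ V → c ∈ O ∨ ∃ t : ℕ, 4 ≤ t ∧ t ≤ 12 ∧ ν.testBit t = true ∧ c = lp a d ((t : ℤ) - 4)
  mem' : ∀ t : ℕ, 4 ≤ t → t ≤ 12 → ν.testBit t = true → lp a d ((t : ℤ) - 4) ∈ V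
  off : ∀ t : ℕ, 4 ≤ t → t ≤ 12 → lp a d ((t : ℤ) - 4) ∉ O
  sub : O ⊆ V
  card : O.card ≤ o

theorem Lay.count {a d : Cell} (hd : SDir d) {ν o : ℕ} {V O X : Finset Cell} (L : Lay a d ν o V O)
    (ho : o ≤ 2) {β : ℕ} (hβ : ∀ t : ℕ, t < 17 → β.testBit t = true → lp a d ((t : ℤ) - 4) ∈ X)
    {w : Finset Cell} (hw : IsW w) (hd' : Disjoint w X) :
    (w ∩ V).card ≤ 3 ∨ ∃ s, s < 13 ∧ blk5 β s = false ∧ (w ∩ V).card ≤ cnt5 ν s + extra s o ∧
      ∀ b : ℕ, s ≤ b → b ≤ s + 4 → lp a d ((b : ℤ) - 4) ∈ w := by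
  classical
  have hsplit : (w ∩ V).card ≤ ((w ∩ V).filter (fun c => c ∉ O)).card + (w ∩ O).card := by
    have h1 : w ∩ V ⊆ ((w ∩ V).filter (fun c => c ∉ O)) ∪ (w ∩ O) := by
      intro c hc
      by_cases hO : c ∈ O
      · exact Finset.mem_union_right _ (Finset.mem_inter.2 ⟨(Finset.mem_inter.1 hc).1, hO⟩)
      · exact Finset.mem_union_left _ (Finset.mem_filter.2 ⟨hc, hO⟩)
    exact (Finset.card_le_card h1).trans (Finset.card_union_le _ _)
  have hO2 : (w ∩ O).card ≤ o := (Finset.card_le_card Finset.inter_subset_right).trans L.card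
  have hline : ∀ c ∈ (w ∩ V).filter (fun c => c ∉ O), ∃ t : ℕ, 4 ≤ t ∧ t ≤ 12 ∧
      ν.testBit t = true ∧ c = lp a d ((t : ℤ) - 4) := by
    intro c hc
    rw [Finset.mem_filter, Finset.mem_inter] at hc
    rcases L.mem c hc.1.2 with h | h
    · exact absurd h hc.2
    · exact h
  by_cases hone : ((w ∩ V).filter (fun c => c ∉ O)).card ≤ 1
  · left
    omega
  · push Not at hone
    obtain ⟨c1, hc1, c2, hc2, hne⟩ := Finset.one_lt_card.1 hone
    obtain ⟨t1, a1, a2, a3, rfl⟩ := hline c1 hc1
    obtain ⟨t2, b1, b2, b3, rfl⟩ := hline c2 hc2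
    have hw1 := (Finset.mem_inter.1 (Finset.mem_filter.1 hc1).1).1
    have hw2 := (Finset.mem_inter.1 (Finset.mem_filter.1 hc2).1).1
    have hne' : ((t1 : ℤ) - 4) ≠ ((t2 : ℤ) - 4) := fun h => hne (by rw [h])
    obtain ⟨s0, hs0⟩ := line_window hd hw hne' hw1 hw2
    obtain ⟨i1, hi1, hie1⟩ := (hs0 _).1 hw1
    have e1 := lp_inj hd hie1
    obtain ⟨s, hs⟩ : ∃ s : ℕ, (s : ℤ) = s0 + 4 := ⟨(s0 + 4).toNat, by omega⟩
    have hcell : ∀ c, c ∈ w ↔ ∃ i : ℕ, i < 5 ∧ c = lp a d (((s + i : ℕ) : ℤ) - 4) := by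
      intro c
      rw [hs0]
      constructor
      · rintro ⟨i, hi, rfl⟩
        exact ⟨i, hi, by congr 1; push_cast; omega⟩
      · rintro ⟨i, hi, rfl⟩
        exact ⟨i, hi, by congr 1; push_cast; omega⟩
    right
    refine ⟨s, by omega, ?_, ?_, ?_⟩
    · apply blk_false
      intro i hi
      by_contra hb
      have hx := hβ (s + i) (by omega) (by simpa using hb)
      exact Finset.disjoint_left.1 hd' ((hcell _).2 ⟨i, hi, rfl⟩) hx
    · have hcnt : ((w ∩ V).filter (fun c => c ∉ O)).card ≤ cnt5 ν s := by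
        have h1 : (w ∩ V).filter (fun c => c ∉ O) ⊆
            ((Finset.range 5).filter (fun i => ν.testBit (s + i) = true)).image
              (fun i => lp a d (((s + i : ℕ) : ℤ) - 4)) := by
          intro c hc
          obtain ⟨t, t1', t2', t3, rfl⟩ := hline c hc
          have hcw := (Finset.mem_inter.1 (Finset.mem_filter.1 hc).1).1
          obtain ⟨i, hi, hie⟩ := (hcell _).1 hcw
          have e := lp_inj hd hie
          rw [Finset.mem_image]
          refine ⟨i, Finset.mem_filter.2 ⟨Finset.mem_range.2 hi, ?_⟩, hie.symm⟩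
          have : s + i = t := by omega
          rw [this]
          exact t3
        refine (Finset.card_le_card h1).trans (Finset.card_image_le.trans ?_)
        rw [Finset.card_filter]
        simp only [Finset.sum_range_succ, Finset.sum_range_zero, cnt5, Nat.add_zero, Nat.zero_add]
        have hb : ∀ b : Bool, (if b = true then 1 else 0) = b.toNat := by decide
        rw [hb, hb, hb, hb, hb]
      unfold extra
      split_ifs with hin
      · have h0 : (w ∩ O).card = 0 := by
          rw [Finset.card_eq_zero, ← Finset.disjoint_iff_inter_eq_empty, Finset.disjoint_left]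
          intro c hcw hcO
          obtain ⟨i, hi, rfl⟩ := (hcell _).1 hcw
          exact L.off (s + i) (by omega) (by omega) hcO
        omega
      · omega
    · intro b hb1 hb2
      exact (hcell _).2 ⟨b - s, by omega, by congr 1; omega⟩

theorem okW_sound {a d : Cell} (hd : SDir d) {ν o : ℕ} {V O X : Finset Cell} (L : Lay a d ν o V O)
    (ho : o ≤ 2) {β : ℕ} (hβ : ∀ t : ℕ, t < 17 → β.testBit t = true → lp a d ((t : ℤ) - 4) ∈ X)
    (h : okW ν β o = true) : W3 L0 X V := by
  intro w hw _ hdw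
  rcases L.count hd ho hβ hw hdw with h3 | ⟨s, hs, hb, hc, _⟩
  · exact h3
  · unfold okW at h
    rw [List.all_eq_true] at h
    have := h s (List.mem_range.2 hs)
    rw [hb, Bool.false_or, decide_eq_true_iff] at this
    omega

theorem safe_sound {K : Set Cell} {a d : Cell} (hd : SDir d) (hK : ∀ t : ℤ, 0 ≤ t → lp a d t ∉ K)
    (m : ℕ) : ∀ {lv o ν β : ℕ} {X V O : Finset Cell}, safe m lv o ν β = true → o + lv ≤ 2 →
    Lay a d ν o V O → (∀ t : ℕ, t < 17 → β.testBit t = true → lp a d ((t : ℤ) - 4) ∈ X) →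
    S L0 K m lv X V := by
  induction m with
  | zero =>
    intro lv o ν β X V O h hlv L hβ
    cases lv with
    | zero => exact okW_sound hd L (by omega) hβ h
    | succ lv => exact absurd h (by simp [safe])
  | succ m ih =>
    intro lv o ν β X V O h hlv L hβ
    cases lv with
    | zero => exact okW_sound hd L (by omega) hβ h
    | succ lv =>
      rw [safe, Bool.and_eq_true, Bool.and_eq_true, List.all_eq_true] at h
      obtain ⟨h1, h2, h3⟩ := h
      refine ⟨okW_sound hd L (by omega) hβ h1, ?_⟩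
      intro e heX heV
      by_cases hline : ∃ t : ℕ, 4 ≤ t ∧ t ≤ 12 ∧ e = lp a d ((t : ℤ) - 4)
      · obtain ⟨t, t1, t2, rfl⟩ := hline
        have hν : ν.testBit t = false := by
          by_contra hc
          exact heV (L.mem' t t1 t2 (by simpa using hc))
        have hβt : β.testBit t = false := by
          by_contra hc
          exact heX (hβ t (by omega) (by simpa using hc))
        have hLay : Lay a d (ν ||| 2 ^ t) o (insert (lp a d ((t : ℤ) - 4)) V) O := by
          refine ⟨?_, ?_, L.off, L.sub.trans (Finset.subset_insert _ _), L.card⟩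
          · intro c hc
            rcases Finset.mem_insert.1 hc with rfl | hc
            · exact Or.inr ⟨t, t1, t2, by rw [tb_or_pow]; simp, rfl⟩
            · rcases L.mem c hc with h | ⟨u, u1, u2, u3, u4⟩
              · exact Or.inl h
              · exact Or.inr ⟨u, u1, u2, by rw [tb_or_pow, u3]; rfl, u4⟩
          · intro u u1 u2 u3
            rw [tb_or_pow, Bool.or_eq_true] at u3
            rcases u3 with u3 | u3
            · exact Finset.mem_insert_of_mem (L.mem' u u1 u2 u3)
            · rw [decide_eq_true_iff] at u3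
              rw [u3]
              exact Finset.mem_insert_self _ _
        have h4 := h3 (t - 4) (List.mem_range.2 (by omega))
        rw [show t - 4 + 4 = t by omega, hν, hβt, Bool.false_or, Bool.false_or, Bool.or_eq_true,
          List.any_eq_true] at h4
        rcases h4 with h4 | ⟨j, hj, h4⟩
        · left
          exact ih h4 (by omega) hLay hβ
        · right
          rw [List.mem_range] at hj
          rw [Bool.and_eq_true, Bool.and_eq_true] at h4
          obtain ⟨g1, g2, g3⟩ := h4
          have hjν : (ν ||| 2 ^ t).testBit (j + 4) = false := by simpa using g1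
          refine ⟨hK _ (by omega), lp a d (((j + 4 : ℕ) : ℤ) - 4), ?_, ?_, ?_⟩
          · intro hc
            rcases hLay.mem _ hc with h | ⟨u, u1, u2, u3, u4⟩
            · exact L.off (j + 4) (by omega) (by omega) h
            · have := lp_inj hd u4
              have hu : u = j + 4 := by omega
              rw [hu, hjν] at u3
              exact absurd u3 (by simp)
          · intro w hw _ hdw hcard
            rcases hLay.count hd (by omega) hβ hw hdw with h3' | ⟨s, hs, hb, hc, hmem⟩
            · omega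
            · unfold blkOK at g2
              rw [List.all_eq_true] at g2
              have := g2 s (List.mem_range.2 hs)
              rw [hb, Bool.false_or, Bool.or_eq_true, decide_eq_true_iff, decide_eq_true_iff] at this
              rcases this with this | this
              · omega
              · exact hmem (j + 4) (by omega) (by omega)
          · apply ih g3 (by omega) hLay
            intro u hu hub
            rw [tb_or_pow, Bool.or_eq_true] at hub
            rcases hub with hub | hub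
            · exact Finset.mem_insert_of_mem (hβ u hu hub)
            · rw [decide_eq_true_iff] at hub
              rw [← hub]
              exact Finset.mem_insert_self _ _
      · left
        apply ih (O := insert e O) h2 (by omega) ?_ hβ
        push Not at hline
        refine ⟨?_, ?_, ?_, ?_, ?_⟩
        · intro c hc
          rcases Finset.mem_insert.1 hc with rfl | hc
          · exact Or.inl (Finset.mem_insert_self _ _)
          · rcases L.mem c hc with h | h
            · exact Or.inl (Finset.mem_insert_of_mem h)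
            · exact Or.inr h
        · intro u u1 u2 u3
          exact Finset.mem_insert_of_mem (L.mem' u u1 u2 u3)
        · intro u u1 u2 hc
          rcases Finset.mem_insert.1 hc with hc | hc
          · exact hline u u1 u2 hc.symm
          · exact L.off u u1 u2 hc
        · exact Finset.insert_subset_insert _ L.sub
        · exact (Finset.card_insert_le _ _).trans (by have := L.card; omega)


theorem near_window {w1 d : Cell} (hd : Dir d) {q : ℤ} (h1 : -4 ≤ q) (h2 : q ≤ 4) :
    ∃ w, IsW w ∧ w1 ∈ w ∧ lp w1 d q ∈ w := by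
  rcases le_total 0 q with h | h
  · refine ⟨wnd w1 d, ⟨w1, d, hd, rfl⟩, mem_wnd.2 ⟨0, by norm_num, ?_⟩, mem_wnd.2 ⟨q.toNat, by omega, ?_⟩⟩
    · simp [wc]
    · simp only [wc, lp]
      rw [show ((q.toNat : ℕ) : ℤ) = q by omega]
  · refine ⟨wnd (lp w1 d q) d, ⟨_, d, hd, rfl⟩, mem_wnd.2 ⟨(-q).toNat, by omega, ?_⟩,
      mem_wnd.2 ⟨0, by norm_num, ?_⟩⟩
    · simp only [wc, lp]
      rw [show (((-q).toNat : ℕ) : ℤ) = -q by omega]
      ext <;> simp
    · simp [wc]

theorem lp_neg (a d : Cell) (t : ℤ) : lp a (-d.1, -d.2) t = lp a d (-t) := by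
  simp only [lp]
  ext <;> simp

theorem lp_shift (a d : Cell) (s t : ℤ) : lp (lp a d s) d t = lp a d (s + t) := by
  simp only [lp]
  ext
  · show a.1 + s * d.1 + t * d.1 = a.1 + (s + t) * d.1
    ring
  · show a.2 + s * d.2 + t * d.2 = a.2 + (s + t) * d.2
    ring

/-- far stone: no window through it meets `K`; `K` is convex along the lines through it -/
theorem tcase2 {K : Set Cell} {X : Finset Cell} {w1 e1 : Cell} (hn1 : e1 ≠ w1)
    (hiso : ∀ w, IsW w → w1 ∈ w → ∀ c ∈ w, c ∉ K)
    (hconv : ∀ d, Dir d → ∀ s t u : ℤ, s ≤ t → t ≤ u → lp w1 d s ∈ K → lp w1 d u ∈ K →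
      lp w1 d t ∈ K) :
    S L0 K 5 2 X (insert e1 {w1}) := by
  classical
  have hor : ∀ d, Dir d → ∃ d', SDir d' ∧ (∀ q : ℤ, -4 ≤ q → lp w1 d' q ∉ K) ∧
      ((∀ t, lp w1 d' t = lp w1 d t) ∨ (∀ t, lp w1 d' t = lp w1 d (-t))) := by
    intro d hd
    have hnear : ∀ q : ℤ, -4 ≤ q → q ≤ 4 → lp w1 d q ∉ K := by
      intro q h1 h2
      obtain ⟨w, hw, hw1', hq⟩ := near_window (w1 := w1) hd h1 h2
      exact hiso w hw hw1' _ hq
    by_cases h : ∃ q : ℤ, 0 < q ∧ lp w1 d q ∈ K
    · obtain ⟨q, hq, hqK⟩ := h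
      refine ⟨(-d.1, -d.2), hd.sdir_neg, ?_, Or.inr (lp_neg w1 d)⟩
      intro p hp
      rw [lp_neg]
      rcases le_or_gt (-4) (-p) with h4 | h4
      · exact hnear _ h4 (by omega)
      · intro hpK
        exact hnear 0 (by norm_num) (by norm_num) (hconv d hd (-p) 0 q (by omega) (by omega) hpK hqK)
    · push Not at h
      refine ⟨d, hd.sdir, ?_, Or.inl fun _ => rfl⟩
      intro q hq
      rcases le_or_gt q 0 with h0 | h0
      · exact hnear q hq (by omega)
      · exact h q h0
  refine ⟨?_, ?_⟩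
  · intro w _ _ _
    refine (Finset.card_le_card Finset.inter_subset_right).trans ((Finset.card_insert_le _ _).trans ?_)
    simp
  intro e2 he2 he2'
  have hn2 : e2 ≠ e1 ∧ e2 ≠ w1 := by simpa [not_or] using he2'
  by_cases h : ∃ w, IsW w ∧ Disjoint w X ∧ w1 ∈ w ∧ e1 ∈ w ∧ e2 ∈ w
  · right
    obtain ⟨w, hw, hdw, hw1w, he1w, he2w⟩ := h
    refine ⟨hiso w hw hw1w e2 he2w, ?_⟩
    obtain ⟨a', d0, hd0, rfl⟩ := hw
    rw [mem_wnd] at hw1w he1w he2w
    obtain ⟨i0, hi0, e0⟩ := hw1w
    obtain ⟨i1, hi1, f1⟩ := he1w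
    obtain ⟨i2, hi2, f2⟩ := he2w
    have g1 : e1 = lp w1 d0 ((i1 : ℤ) - i0) := by
      rw [← f1, ← e0]
      simp only [wc, lp]
      ext <;> simp <;> ring
    have g2 : e2 = lp w1 d0 ((i2 : ℤ) - i0) := by
      rw [← f2, ← e0]
      simp only [wc, lp]
      ext <;> simp <;> ring
    obtain ⟨d, hd, hdK, hds⟩ := hor d0 hd0
    obtain ⟨t1, t2, k1, k2, k3⟩ : ∃ t1 t2 : ℤ, e1 = lp w1 d t1 ∧ e2 = lp w1 d t2 ∧
        (-4 ≤ t1 ∧ t1 ≤ 4 ∧ -4 ≤ t2 ∧ t2 ≤ 4 ∧ t1 - t2 ≤ 4 ∧ t2 - t1 ≤ 4) := by
      rcases hds with hds | hds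
      · exact ⟨(i1 : ℤ) - i0, (i2 : ℤ) - i0, by rw [hds]; exact g1, by rw [hds]; exact g2, by omega⟩
      · exact ⟨-((i1 : ℤ) - i0), -((i2 : ℤ) - i0), by rw [hds, neg_neg]; exact g1,
          by rw [hds, neg_neg]; exact g2, by omega⟩
    have hw10 : w1 = lp w1 d 0 := by simp [lp]
    have m1 : t1 ≠ 0 := fun h => hn1 (by rw [k1, h, ← hw10])
    have m2 : t2 ≠ 0 := fun h => hn2.2 (by rw [k2, h, ← hw10])
    have m3 : t1 ≠ t2 := fun h => hn2.1 (by rw [k1, k2, h])
    -- the leftmost of the three stones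
    obtain ⟨mn, hmn1, hmn2⟩ : ∃ mn : ℤ, (mn ≤ 0 ∧ mn ≤ t1 ∧ mn ≤ t2) ∧ (mn = 0 ∨ mn = t1 ∨ mn = t2) := by
      refine ⟨min 0 (min t1 t2), ⟨min_le_left _ _, (min_le_right _ _).trans (min_le_left _ _),
        (min_le_right _ _).trans (min_le_right _ _)⟩, ?_⟩
      omega
    set a := lp w1 d mn with ha
    have haK : ∀ t : ℤ, 0 ≤ t → lp a d t ∉ K := by
      intro t ht
      rw [ha, lp_shift]
      exact hdK _ (by omega)
    obtain ⟨p, hp⟩ : ∃ p : ℕ, (p : ℤ) = 0 - mn := ⟨(0 - mn).toNat, by omega⟩
    obtain ⟨q, hq⟩ : ∃ q : ℕ, (q : ℤ) = t1 - mn := ⟨(t1 - mn).toNat, by omega⟩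
    obtain ⟨r, hr⟩ : ∃ r : ℕ, (r : ℤ) = t2 - mn := ⟨(t2 - mn).toNat, by omega⟩
    have hs := init_safe (p := p) (q := q) (r := r) (by omega) (by omega) (by omega) (by omega)
      (by omega) (by omega) (by omega)
    have c1 : lp a d (((p + 4 : ℕ) : ℤ) - 4) = w1 := by
      rw [ha, lp_shift, show mn + (((p + 4 : ℕ) : ℤ) - 4) = 0 by omega, ← hw10]
    have c2 : lp a d (((q + 4 : ℕ) : ℤ) - 4) = e1 := by
      rw [ha, lp_shift, show mn + (((q + 4 : ℕ) : ℤ) - 4) = t1 by omega, ← k1]
    have c3 : lp a d (((r + 4 : ℕ) : ℤ) - 4) = e2 := by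
      rw [ha, lp_shift, show mn + (((r + 4 : ℕ) : ℤ) - 4) = t2 by omega, ← k2]
    refine ⟨lp a d (((3 : ℕ) : ℤ) - 4), ?_, ?_, ?_⟩
    · intro hc
      rw [Finset.mem_insert, Finset.mem_insert, Finset.mem_singleton] at hc
      rcases hc with hc | hc | hc
      · rw [← c3] at hc
        have := lp_inj hd hc
        omega
      · rw [← c2] at hc
        have := lp_inj hd hc
        omega
      · rw [← c1] at hc
        have := lp_inj hd hc
        omega
    · intro w' _ _ _ hcard
      have h3 : (w' ∩ insert e2 (insert e1 {w1})).card ≤ 3 := by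
        refine (Finset.card_le_card Finset.inter_subset_right).trans ?_
        refine (Finset.card_insert_le _ _).trans ?_
        have := Finset.card_insert_le e1 ({w1} : Finset Cell)
        rw [Finset.card_singleton] at this
        omega
      omega
    · refine safe_sound (O := ∅) hd haK 4 hs (by norm_num) ?_ ?_
      · refine ⟨?_, ?_, by simp, by simp, by simp⟩
        · intro c hc
          right
          rw [Finset.mem_insert, Finset.mem_insert, Finset.mem_singleton] at hc
          rcases hc with rfl | rfl | rfl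
          · exact ⟨r + 4, by omega, by omega, by rw [tb_or_pow]; simp, c3.symm⟩
          · exact ⟨q + 4, by omega, by omega, by rw [tb_or_pow, tb_or_pow]; simp, c2.symm⟩
          · exact ⟨p + 4, by omega, by omega, by
              rw [tb_or_pow, tb_or_pow, Nat.testBit_two_pow]; simp, c1.symm⟩
        · intro t _ _ ht
          rw [tb_or_pow, tb_or_pow, Nat.testBit_two_pow] at ht
          simp only [Bool.or_eq_true, decide_eq_true_iff] at ht
          rw [Finset.mem_insert, Finset.mem_insert, Finset.mem_singleton]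
          rcases ht with (rfl | rfl) | rfl
          · exact Or.inr (Or.inr c1)
          · exact Or.inr (Or.inl c2)
          · exact Or.inl c3
      · intro t _ ht
        rw [Nat.testBit_two_pow, decide_eq_true_iff] at ht
        rw [← ht]
        exact Finset.mem_insert_self _ _
  · left
    apply S.pure (by norm_num) (by norm_num)
    intro w hw _ hdw
    have hmiss : (w ∩ insert e2 (insert e1 {w1})).card < (insert e2 (insert e1 ({w1} : Finset Cell))).card := by
      apply Finset.card_lt_card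
      rw [Finset.ssubset_iff_subset_ne]
      refine ⟨Finset.inter_subset_right, ?_⟩
      intro heq
      apply h
      refine ⟨w, hw, hdw, ?_, ?_, ?_⟩
      · have : w1 ∈ insert e2 (insert e1 ({w1} : Finset Cell)) := by simp
        rw [← heq] at this
        exact (Finset.mem_inter.1 this).1
      · have : e1 ∈ insert e2 (insert e1 ({w1} : Finset Cell)) := by simp
        rw [← heq] at this
        exact (Finset.mem_inter.1 this).1
      · have : e2 ∈ insert e2 (insert e1 ({w1} : Finset Cell)) := by simp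
        rw [← heq] at this
        exact (Finset.mem_inter.1 this).1
    have h3 : (insert e2 (insert e1 ({w1} : Finset Cell))).card ≤ 3 := by
      refine (Finset.card_insert_le _ _).trans ?_
      have := Finset.card_insert_le e1 ({w1} : Finset Cell)
      rw [Finset.card_singleton] at this
      omega
    show (w ∩ insert e2 (insert e1 ({w1} : Finset Cell))).card + 1 ≤ 3
    omega

end Pool.Agent.H98.Gomoku
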