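import Pool.Agent.H98.Gomoku.Loop
import Pool.Agent.H98.Gomoku.TCase
import Pool.Agent.H98.Gomoku.Sym

set_option autoImplicit false

/-!
From checked strategy trees to tables of won positions.

All positions have the black stones `c0`, `c1` and two white stones. Tables are numbers with bit
`1024 * p + q` for the white stones `cl p`, `cl q`.
-/
namespace Pool.Agent.H98.Gomoku
open G

/-- Black's first two stones -/
def c0 : Cell := (16, 16)
def c1 : Cell := (17, 15)

/-- the two white stones are different and not on a black stone -/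
def Leg (p q : Cell) : Prop := p ≠ c0 ∧ p ≠ c1 ∧ q ≠ c0 ∧ q ≠ c1 ∧ q ≠ p

/-- uniformly won second moves -/
def Bd (P : Cell → Cell → Prop) : Prop := ∃ N, ∀ p q, P p q → Leg p q → Win N {c0, c1} {p, q}

theorem Bd.imp {P Q : Cell → Cell → Prop} (h : Bd P) (hPQ : ∀ p q, Q p q → P p q) : Bd Q := by
  obtain ⟨N, h⟩ := h
  exact ⟨N, fun p q hq hl => h p q (hPQ p q hq) hl⟩

theorem Bd.or {P Q : Cell → Cell → Prop} (h : Bd P) (h' : Bd Q) : Bd fun p q => P p q ∨ Q p q := by
  obtain ⟨N, h⟩ := h
  obtain ⟨M, h'⟩ := h'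
  refine ⟨max N M, ?_⟩
  intro p q hpq hl
  rcases hpq with hpq | hpq
  · exact (h p q hpq hl).mono (le_max_left _ _)
  · exact (h' p q hpq hl).mono (le_max_right _ _)

theorem Bd.list {α : Type} {l : List α} {P : α → Cell → Cell → Prop} (h : ∀ a ∈ l, Bd (P a)) :
    Bd fun p q => ∃ a ∈ l, P a p q := by
  obtain ⟨N, hN⟩ := unif l (fun a N => ∀ p q, P a p q → Leg p q → Win N {c0, c1} {p, q})
    (fun a n m hnm hw p q hq hl => (hw p q hq hl).mono hnm) h
  exact ⟨N, fun p q ⟨a, ha, hq⟩ hl => hN a ha p q hq hl⟩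

theorem Leg.swap {p q : Cell} (h : Leg p q) : Leg q p :=
  ⟨h.2.2.1, h.2.2.2.1, h.1, h.2.1, h.2.2.2.2.symm⟩

theorem Bd.swap {P : Cell → Cell → Prop} (h : Bd P) : Bd fun p q => P q p := by
  obtain ⟨N, h⟩ := h
  refine ⟨N, ?_⟩
  intro p q hpq hl
  exact (h q p hpq hl.swap).congr rfl (Finset.pair_comm _ _)

/-- the symmetries of the pair of black stones -/
def gs (g : ℕ) (c : Cell) : Cell :=
  if g = 0 then c else if g = 1 then (32 - c.2, 32 - c.1) else if g = 2 then (c.2 + 1, c.1 - 1)
  else (33 - c.1, 31 - c.2)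

theorem gs_mv (g : ℕ) : ∃ k v, k < 8 ∧ (∀ c, mv k v (gs g c) = c) ∧
    ({mv k v c0, mv k v c1} : Finset Cell) = {c0, c1} ∧ ({gs g c0, gs g c1} : Finset Cell) = {c0, c1} ∧
    Function.Injective (gs g) := by
  by_cases h0 : g = 0
  · subst h0
    exact ⟨0, (0, 0), by norm_num, fun c => by simp [mv, lin, gs], by decide, by decide,
      fun a b h => by simpa [gs] using h⟩
  by_cases h1 : g = 1
  · subst h1
    refine ⟨7, (32, 32), by norm_num, fun c => by simp [mv, lin, gs], by decide, by decide, ?_⟩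
    intro a b h
    simp only [gs] at h
    norm_num at h
    ext <;> omega
  by_cases h2 : g = 2
  · subst h2
    refine ⟨4, (1, -1), by norm_num, fun c => by simp [mv, lin, gs], by decide, by decide, ?_⟩
    intro a b h
    simp only [gs] at h
    norm_num at h
    ext <;> omega
  · refine ⟨3, (33, 31), by norm_num, fun c => by simp [mv, lin, gs, h0, h1, h2], by decide, ?_, ?_⟩
    · simp only [gs, h0, h1, h2, if_false]
      decide
    · intro a b h
      simp only [gs, h0, h1, h2, if_false, Prod.mk.injEq] at h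
      ext <;> omega

theorem Leg.gs {p q : Cell} (h : Leg p q) (g : ℕ) : Leg (gs g p) (gs g q) := by
  obtain ⟨k, v, hk, h1, h2, h3, hinj⟩ := gs_mv g
  have key : ∀ x : Cell, x ≠ c0 → x ≠ c1 → Gomoku.gs g x ≠ c0 ∧ Gomoku.gs g x ≠ c1 := by
    intro x hx0 hx1
    have hx : Gomoku.gs g x ∉ ({c0, c1} : Finset Cell) := by
      rw [← h3]
      simp only [Finset.mem_insert, Finset.mem_singleton, not_or]
      exact ⟨fun e => hx0 (hinj e), fun e => hx1 (hinj e)⟩
    simpa [not_or] using hx
  exact ⟨(key p h.1 h.2.1).1, (key p h.1 h.2.1).2, (key q h.2.2.1 h.2.2.2.1).1,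
    (key q h.2.2.1 h.2.2.2.1).2, fun e => h.2.2.2.2 (hinj e)⟩

theorem Bd.gs {P : Cell → Cell → Prop} (h : Bd P) (g : ℕ) : Bd fun p q => P (gs g p) (gs g q) := by
  obtain ⟨N, h⟩ := h
  refine ⟨N, ?_⟩
  intro p q hpq hl
  obtain ⟨k, v, hk, h1, h2, h3, hinj⟩ := gs_mv g
  refine ((h _ _ hpq (hl.gs g)).map hk v).congr ?_ ?_
  · rw [Finset.image_insert, Finset.image_singleton, h2]
  · rw [Finset.image_insert, Finset.image_singleton, h1, h1]

/-! ### positions -/

theorem mem_setOf {l : List ℕ} {c : Cell} : c ∈ setOf l ↔ ∃ i ∈ l, cl i = c := by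
  have key : ∀ (l : List ℕ) (s : Finset Cell), c ∈ l.foldl (fun s b => insert (cl b) s) s ↔
      c ∈ s ∨ ∃ i ∈ l, cl i = c := by
    intro l
    induction l with
    | nil => intro s; simp
    | cons a l ih =>
      intro s
      rw [List.foldl_cons, ih, Finset.mem_insert]
      simp only [List.mem_cons, exists_eq_or_imp]
      constructor
      · rintro ((h | h) | h)
        · exact Or.inr (Or.inl h.symm)
        · exact Or.inl h
        · exact Or.inr (Or.inr h)
      · rintro (h | h | h)
        · exact Or.inl (Or.inr h)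
        · exact Or.inl (Or.inl h.symm)
        · exact Or.inr h
  unfold setOf
  rw [key]
  simp

theorem setOf_cons (a : ℕ) (l : List ℕ) : setOf (a :: l) = insert (cl a) (setOf l) := by
  ext c
  rw [Finset.mem_insert, mem_setOf, mem_setOf]
  simp only [List.mem_cons, exists_eq_or_imp]
  constructor
  · rintro (h | h)
    · exact Or.inl h.symm
    · exact Or.inr h
  · rintro (h | h)
    · exact Or.inl h.symm
    · exact Or.inr h

theorem setOf_nil : setOf [] = ∅ := rfl

theorem setOf_card (l : List ℕ) : (setOf l).card ≤ l.length := by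
  induction l with
  | nil => simp [setOf_nil]
  | cons a l ih =>
    rw [setOf_cons, List.length_cons]
    exact (Finset.card_insert_le _ _).trans (by omega)

theorem run_disj {bs ws : List ℕ} {lv : ℕ} {l : List ℕ} {k : K} (h : run bs ws lv l k = true) :
    Disjoint (setOf bs) (setOf ws) ∧ ∀ c ∈ setOf bs, Inner c := by
  obtain ⟨B', fr', bl', h1, h2⟩ := startB_sound bs St.empty h
  obtain ⟨fr'', d1, d2, d3, d4, h3, h4⟩ := startW_sound ws h1 h2
  exact ⟨h3.disj, h3.innB⟩

theorem posC_sound {bs ws : List ℕ} {l : List ℕ} (h : posC bs ws l = true) :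
    ∃ N, Win N (setOf bs) (setOf ws) := by
  have hd := (run_disj h).1
  obtain ⟨y, rest, hg, hk⟩ := run_sound h
  obtain ⟨N, hN⟩ := hg 3
  refine ⟨N, ?_⟩
  have := (hN Set.univ [] ∅ (setOf bs) (Finset.Subset.refl _) hd (by simp) (by
    intro i hi
    simp at hi) ⟨fun _ _ _ => trivial, fun _ _ _ _ _ _ _ => trivial⟩ (by simp) ?_).win
  · refine this.congr rfl ?_
    simp
  · apply S.pure (by norm_num) (by norm_num)
    intro w _ _ _
    simp

/-- a strategy for one more white stone outside a mask -/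
theorem famC_sound {bs ws : List ℕ} {A : ℕ} {l : List ℕ} (h : famC bs ws A l = true) :
    Disjoint (setOf bs) (setOf ws) ∧
    ∃ N, ∀ q, q ∉ setOf bs → q ∉ setOf ws → (InB q → A.testBit (ix q) = false) →
      Win N (setOf bs) (insert q (setOf ws)) := by
  have hd := (run_disj h).1
  refine ⟨hd, ?_⟩
  obtain ⟨y, rest, hg, h0⟩ := run_sound h
  obtain ⟨N, hN⟩ := hg 2
  refine ⟨N, ?_⟩
  intro q hqb hqw hA
  have := (hN Set.univ [q] ∅ (setOf bs) (Finset.Subset.refl _) hd ?_ ?_
    ⟨fun _ _ _ => trivial, fun _ _ _ _ _ _ _ => trivial⟩ (by simp) ?_).win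
  · refine this.congr rfl ?_
    ext x
    simp only [List.toFinset_cons, List.toFinset_nil, Finset.union_empty, Finset.mem_union,
      Finset.mem_insert, Finset.notMem_empty, or_false]
    exact Or.comm
  · rw [Finset.disjoint_left]
    intro x hx
    simp only [Finset.union_empty, List.mem_toFinset, List.mem_singleton]
    rintro rfl
    rcases Finset.mem_union.1 hx with hx | hx
    · exact hqb hx
    · exact hqw hx
  · intro i hi
    have hi0 : i = 0 := by simpa using hi
    subst hi0
    show Av y.z y.z1 q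
    apply av_of_tb
    intro hb
    have h1 := zero_of_beq h0 (ix q)
    rw [tb_sdf, hA hb] at h1
    simpa using h1
  · apply S.pure (by norm_num) (by norm_num)
    intro w _ _ _
    have h1 : (w ∩ ([q].toFinset ∪ ∅)).card ≤ 1 := by
      refine (Finset.card_le_card Finset.inter_subset_right).trans ?_
      simp
    omega

theorem no_five_small {S : Finset Cell} (h : S.card < 5) : ¬ Five S := by
  rintro ⟨a, d, hd, hs⟩
  have := Finset.card_le_card hs
  rw [wnd_card hd] at this
  omega

theorem land_tb {l : List ℕ} {i : ℕ} (hi : i < 1024) (h : ∀ A ∈ l, A.testBit i = true) :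
    (l.foldr Nat.land FULL).testBit i = true := by
  induction l with
  | nil => simpa [full_tb] using hi
  | cons a l ih =>
    rw [List.foldr_cons, tb_land, h a List.mem_cons_self,
      ih fun A hA => h A (List.mem_cons_of_mem _ hA)]
    rfl

theorem cl_inj {i j : ℕ} (hi : i < 1024) (hj : j < 1024) (h : cl i = cl j) : i = j := by
  rw [← ix_cl (i := i), ← ix_cl (i := j), h]

theorem G.Pos.sound {bs ws : List ℕ} (h : Pos bs ws) : ∃ N, Win N (setOf bs) (setOf ws) := by
  induction h with
  | leaf l h => exact posC_sound h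
  | @node bs ws b As Ex hA hE h ih =>
    unfold nodeOK at h
    simp only [Bool.and_eq_true, Nat.ble_eq, List.all_eq_true, Bool.not_eq_true'] at h
    obtain ⟨⟨⟨h1, h2⟩, h3⟩, h4, h5⟩ := h
    obtain ⟨B', fr', bl', g1, g2⟩ := startB_sound (b :: bs) St.empty h1
    obtain ⟨fr'', d1, d2, d3, d4, st, g4⟩ := startW_sound ws g1 g2
    have hst : St L0 (setOf (b :: bs)) (setOf ws) B' fr'' bl' d1 d2 d3 d4 := st
    obtain ⟨N1, hN1⟩ := unif Ex (fun e N => Win N (setOf (b :: bs)) (setOf (e :: ws)))
      (fun e n m hnm hw => hw.mono hnm) ih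
    obtain ⟨N2, hN2⟩ := unif As (fun A N => ∀ q, q ∉ setOf (b :: bs) → q ∉ setOf ws →
      (InB q → A.testBit (ix q) = false) → Win N (setOf (b :: bs)) (insert q (setOf ws)))
      (fun A n m hnm hw q q1 q2 q3 => (hw q q1 q2 q3).mono hnm)
      (fun A hAm => by obtain ⟨l, hl⟩ := hA A hAm; exact (famC_sound hl).2)
    have hne : As ≠ [] := by
      rintro rfl
      simp at h4
    obtain ⟨A0, As', rfl⟩ := List.exists_cons_of_ne_nil hne
    have hdis : Disjoint (setOf (b :: bs)) (setOf ws) := by
      obtain ⟨l, hl⟩ := hA A0 List.mem_cons_self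
      exact (famC_sound hl).1
    have hbb : ∀ i ∈ bs ++ ws, cl b ≠ cl i := by
      intro i hi he
      have := h2 i hi
      rw [cl_inj (by omega) (by omega) he] at this
      simp at this
    refine ⟨max N1 N2 + 1, cl b, ?_, ?_, Or.inr ?_⟩
    · rw [mem_setOf]
      rintro ⟨i, hi, he⟩
      exact hbb i (List.mem_append_left _ hi) he.symm
    · rw [mem_setOf]
      rintro ⟨i, hi, he⟩
      exact hbb i (List.mem_append_right _ hi) he.symm
    · intro e he heW
      rw [← setOf_cons] at he ⊢
      refine ⟨?_, ?_⟩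
      · intro h5
        obtain ⟨w, hw, hs⟩ := five_iff.1 h5
        have hcard : 4 ≤ (w ∩ setOf ws).card := by
          have e1 : w ⊆ insert e (w ∩ setOf ws) := by
            intro x hx
            rcases Finset.mem_insert.1 (hs hx) with h | h
            · exact h ▸ Finset.mem_insert_self _ _
            · exact Finset.mem_insert_of_mem (Finset.mem_inter.2 ⟨hx, h⟩)
          have e2 := Finset.card_le_card e1
          have e3 := Finset.card_insert_le e (w ∩ setOf ws)
          rw [hw.card] at e2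
          omega
        obtain ⟨x, hx⟩ : (w ∩ setOf ws).Nonempty := Finset.card_pos.1 (by omega)
        rw [Finset.mem_inter] at hx
        obtain ⟨k, p, hr⟩ := rep_of_inner hw hx.1 (hst.innW x hx.2)
        have hb4 := (hst.hc w k p hr).2.2.2 hcard
        have hb5 : bl'.testBit (wb k p) = true := by
          by_contra hc
          have := zero_of_beq g4 (wb k p)
          rw [tb_sdf, hb4] at this
          simp only [Bool.not_eq_true] at hc
          rw [hc] at this
          simp at this
        apply hst.hbl w k p hr hb5 (by simp [L0])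
        rw [Finset.disjoint_left]
        intro y hy hyB
        rcases Finset.mem_insert.1 (hs hy) with h | h
        · exact he (h ▸ hyB)
        · exact Finset.disjoint_left.1 hst.disj hyB h
      · by_cases hex : InB e ∧ ∀ A ∈ A0 :: As', A.testBit (ix e) = true
        · obtain ⟨heb, hall⟩ := hex
          have hlt := ix_lt heb
          have h6 := zero_of_beq h5 (ix e)
          rw [tb_sdf, land_tb hlt hall] at h6
          have h7 : (ofL (b :: (bs ++ (ws ++ Ex)))).testBit (ix e) = true := by simpa using h6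
          rw [tb_ofL, List.mem_cons, List.mem_append, List.mem_append] at h7
          rcases h7 with h7 | h7 | h7 | h7
          · exact absurd (mem_setOf.2 ⟨b, List.mem_cons_self, by rw [← h7, cl_ix heb]⟩) he
          · exact absurd (mem_setOf.2 ⟨_, List.mem_cons_of_mem _ h7, cl_ix heb⟩) he
          · exact absurd (mem_setOf.2 ⟨_, h7, cl_ix heb⟩) heW
          · have := hN1 _ h7
            rw [setOf_cons (ix e), cl_ix heb] at this
            exact this.mono (le_max_left _ _)
        · obtain ⟨A, hAm, hAt⟩ : ∃ A ∈ A0 :: As', (InB e → A.testBit (ix e) = false) := by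
            by_cases heb : InB e
            · by_contra hcon
              apply hex
              refine ⟨heb, ?_⟩
              intro A hAm
              by_contra hf
              exact hcon ⟨A, hAm, fun _ => by simpa using hf⟩
            · exact ⟨A0, List.mem_cons_self, fun h => absurd h heb⟩
          exact (hN2 A hAm e he heW hAt).mono (le_max_right _ _)

theorem G.PosL.mem {L : List (ℕ × ℕ × ℕ)} (h : PosL L) :
    ∀ g ∈ L, ∃ N, Win N {cl (g.1 - 31), cl g.1} {cl g.2.2, cl g.2.1} := by
  induction h with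
  | nil => intro g hg; simp at hg
  | @cons o p q L h t ih =>
    intro g hg
    rcases List.mem_cons.1 hg with rfl | hg
    · exact h.sound
    · exact ih g hg

/-- the pair is inside the standard area when moved to the standard place -/
def pOK (g : ℕ × ℕ × ℕ) : Bool :=
  (Nat.ble 4 (g.1 % 32) && Nat.ble (g.1 % 32) 27 && Nat.ble 1 (g.1 / 32) && Nat.ble (g.1 / 32) 31) &&
  (Nat.ble (g.1 % 32) (g.2.1 % 32 + 16) && Nat.ble (g.2.1 % 32 + 16) (g.1 % 32 + 31) &&
  Nat.ble (g.1 / 32) (g.2.1 / 32 + 16) && Nat.ble (g.2.1 / 32 + 16) (g.1 / 32 + 31)) &&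
  (Nat.ble (g.1 % 32) (g.2.2 % 32 + 16) && Nat.ble (g.2.2 % 32 + 16) (g.1 % 32 + 31) &&
  Nat.ble (g.1 / 32) (g.2.2 / 32 + 16) && Nat.ble (g.2.2 / 32 + 16) (g.1 / 32 + 31))

/-- bit of a pair -/
def pBit (g : ℕ × ℕ × ℕ) : ℕ := 1024 * (g.2.1 + 528 - g.1) + (g.2.2 + 528 - g.1)

/-- table of a list of pairs -/
def pTab (L : List (ℕ × ℕ × ℕ)) : ℕ :=
  L.foldr (fun g a => cond (pOK g) (Nat.lor (Nat.shiftLeft 1 (pBit g)) a) a) 0

theorem pTab_tb (L : List (ℕ × ℕ × ℕ)) (i : ℕ) (h : (pTab L).testBit i = true) :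
    ∃ g ∈ L, pOK g = true ∧ i = pBit g := by
  induction L with
  | nil => simp [pTab] at h
  | cons a L ih =>
    have e : pTab (a :: L) = cond (pOK a) (Nat.lor (Nat.shiftLeft 1 (pBit a)) (pTab L)) (pTab L) := rfl
    rw [e] at h
    by_cases ha : pOK a = true
    · rw [ha, Bool.cond_true, tb_lor, tb_one, Bool.or_eq_true, decide_eq_true_iff] at h
      rcases h with h | h
      · exact ⟨a, List.mem_cons_self, ha, h⟩
      · obtain ⟨g, hg, h1⟩ := ih h
        exact ⟨g, List.mem_cons_of_mem _ hg, h1⟩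
    · rw [Bool.not_eq_true] at ha
      rw [ha, Bool.cond_false] at h
      obtain ⟨g, hg, h1⟩ := ih h
      exact ⟨g, List.mem_cons_of_mem _ hg, h1⟩

/-- the table only has bits of won positions -/
def TOK (T : ℕ) : Prop := Bd fun p q => InB p ∧ InB q ∧ T.testBit (1024 * ix p + ix q) = true

theorem TOK.lor {T T' : ℕ} (h : TOK T) (h' : TOK T') : TOK (Nat.lor T T') := by
  refine (Bd.or h h').imp ?_
  rintro p q ⟨h1, h2, h3⟩
  rw [tb_lor, Bool.or_eq_true] at h3
  rcases h3 with h3 | h3
  · exact Or.inl ⟨h1, h2, h3⟩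
  · exact Or.inr ⟨h1, h2, h3⟩

theorem TOK.zero : TOK 0 := ⟨0, fun p q h => by simp at h⟩

theorem TOK.pairs {L : List (ℕ × ℕ × ℕ)}
    (h : ∀ g ∈ L, ∃ N, Win N {cl (g.1 - 31), cl g.1} {cl g.2.2, cl g.2.1}) : TOK (pTab L) := by
  have key : ∀ g ∈ L, Bd fun p q => InB p ∧ InB q ∧ pOK g = true ∧ 1024 * ix p + ix q = pBit g := by
    intro g hg
    obtain ⟨N, hN⟩ := h g hg
    refine ⟨N, ?_⟩
    rintro p q ⟨hp, hq, hok, hb⟩ hl
    simp only [pOK, Bool.and_eq_true, Nat.ble_eq] at hok
    unfold pBit at hb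
    have hp' := ix_lt hp
    have hq' := ix_lt hq
    have ep := ix_eq hp
    have eq := ix_eq hq
    obtain ⟨p1, p2, p3, p4⟩ := hp
    obtain ⟨q1, q2, q3, q4⟩ := hq
    set o := g.1
    set a := g.2.1
    set b := g.2.2
    have e1 : ix p = a + 528 - o := by omega
    have e2 : ix q = b + 528 - o := by omega
    refine ((hN.map (k := 0) (by norm_num) (16 - ((o % 32 : ℕ) : ℤ), 16 - ((o / 32 : ℕ) : ℤ)))).congr ?_ ?_
    · have f1 : mv 0 (16 - ((o % 32 : ℕ) : ℤ), 16 - ((o / 32 : ℕ) : ℤ)) (cl o) = c0 := by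
        simp only [mv, lin, cl, c0, if_true]
        ext <;> simp
      have f2 : mv 0 (16 - ((o % 32 : ℕ) : ℤ), 16 - ((o / 32 : ℕ) : ℤ)) (cl (o - 31)) = c1 := by
        simp only [mv, lin, cl, c1, if_true]
        ext
        · show (((o - 31) % 32 : ℕ) : ℤ) + (16 - ((o % 32 : ℕ) : ℤ)) = 17
          omega
        · show (((o - 31) / 32 : ℕ) : ℤ) + (16 - ((o / 32 : ℕ) : ℤ)) = 15
          omega
      rw [Finset.image_insert, Finset.image_singleton, f1, f2, Finset.pair_comm]
    · have f1 : mv 0 (16 - ((o % 32 : ℕ) : ℤ), 16 - ((o / 32 : ℕ) : ℤ)) (cl a) = p := by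
        simp only [mv, lin, cl, if_true]
        ext
        · show (((a % 32 : ℕ) : ℤ)) + (16 - ((o % 32 : ℕ) : ℤ)) = p.1
          omega
        · show (((a / 32 : ℕ) : ℤ)) + (16 - ((o / 32 : ℕ) : ℤ)) = p.2
          omega
      have f2 : mv 0 (16 - ((o % 32 : ℕ) : ℤ), 16 - ((o / 32 : ℕ) : ℤ)) (cl b) = q := by
        simp only [mv, lin, cl, if_true]
        ext
        · show (((b % 32 : ℕ) : ℤ)) + (16 - ((o % 32 : ℕ) : ℤ)) = q.1
          omega
        · show (((b / 32 : ℕ) : ℤ)) + (16 - ((o / 32 : ℕ) : ℤ)) = q.2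
          omega
      rw [Finset.image_insert, Finset.image_singleton, f1, f2, Finset.pair_comm]
  refine (Bd.list key).imp ?_
  rintro p q ⟨hp, hq, ht⟩
  obtain ⟨g, hg, h1, h2⟩ := pTab_tb L _ ht
  exact ⟨g, hg, hp, hq, h1, h2⟩

end Pool.Agent.H98.Gomoku
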