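import Pool.Agent.H98.Gomoku.Facts

set_option autoImplicit false

/-!
Families: positions with one (or no) white stone given, won for all positions of the other stone
outside a mask.
-/
namespace Pool.Agent.H98.Gomoku
open G

theorem cl528 : cl 528 = c0 := by decide
theorem cl497 : cl 497 = c1 := by decide

/-- one family -/
def FamG (r A : ℕ) : Prop :=
  ∃ N, ∀ q, q ≠ c0 → q ≠ c1 → q ≠ cl r → (InB q → A.testBit (ix q) = false) →
    Win N {c0, c1} {cl r, q}

theorem setOf_two : setOf [497, 528] = {c0, c1} := by decide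

theorem G.FamL.mem {L : List (ℕ × ℕ)} (h : FamL L) : ∀ g ∈ L, FamG g.1 g.2 := by
  induction h with
  | nil => intro g hg; simp at hg
  | @cons r A L h t ih =>
    intro g hg
    rcases List.mem_cons.1 hg with rfl | hg
    · obtain ⟨l, h⟩ := h
      obtain ⟨_, N, hN⟩ := famC_sound h
      refine ⟨N, ?_⟩
      intro q h0 h1 h2 hA
      have e : setOf [r] = {cl r} := rfl
      rw [setOf_two, e] at hN
      have := hN q (by simp [h0, h1]) (by simpa using h2) hA
      exact this.congr rfl (Finset.pair_comm _ _)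
    · exact ih g hg

/-- table of a list of families -/
def fTab (L : List (ℕ × ℕ)) : ℕ :=
  L.foldr (fun g a => Nat.lor (Nat.shiftLeft (sdf FULL g.2) (1024 * g.1)) a) 0

theorem fTab_tb (L : List (ℕ × ℕ)) {p q : ℕ} (hp : p < 1024) (hq : q < 1024)
    (h : (fTab L).testBit (1024 * p + q) = true) :
    ∃ g ∈ L, g.1 = p ∧ g.2.testBit q = false := by
  induction L with
  | nil => simp [fTab] at h
  | cons a L ih =>
    have e : fTab (a :: L) = Nat.lor (Nat.shiftLeft (sdf FULL a.2) (1024 * a.1)) (fTab L) := rfl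
    rw [e, tb_lor, Bool.or_eq_true] at h
    rcases h with h | h
    · rw [tb_shl, Bool.and_eq_true, decide_eq_true_iff, tb_sdf, full_tb, Bool.and_eq_true,
        decide_eq_true_iff] at h
      obtain ⟨h1, h2, h3⟩ := h
      have h4 : a.1 = p := by omega
      refine ⟨a, List.mem_cons_self, h4, ?_⟩
      rw [h4, show 1024 * p + q - 1024 * p = q by omega] at h3
      simpa using h3
    · obtain ⟨g, hg, h1⟩ := ih h
      exact ⟨g, List.mem_cons_of_mem _ hg, h1⟩

theorem TOK.fam {L : List (ℕ × ℕ)} (h : ∀ g ∈ L, FamG g.1 g.2) : TOK (fTab L) := by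
  have key : ∀ g ∈ L, Bd fun p q => p = cl g.1 ∧ (InB q → g.2.testBit (ix q) = false) := by
    intro g hg
    obtain ⟨N, hN⟩ := h g hg
    refine ⟨N, ?_⟩
    rintro p q ⟨rfl, hq⟩ hl
    exact hN q hl.2.2.1 hl.2.2.2.1 hl.2.2.2.2 hq
  refine (Bd.list key).imp ?_
  rintro p q ⟨hp, hq, ht⟩
  obtain ⟨g, hg, h1, h2⟩ := fTab_tb L (ix_lt hp) (ix_lt hq) ht
  exact ⟨g, hg, by rw [h1, cl_ix hp], fun _ => h2⟩

/-- cells near Black's first stone -/
def Near (n : ℤ) (c : Cell) : Prop := 16 - n ≤ c.1 ∧ c.1 ≤ 16 + n ∧ 16 - n ≤ c.2 ∧ c.2 ≤ 16 + n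

instance (n : ℤ) (c : Cell) : Decidable (Near n c) := by unfold Near; infer_instance

/-- the cells at distance at most 13 -/
def BOX : ℕ := 0x3ffffff83ffffff83ffffff83ffffff83ffffff83ffffff83ffffff83ffffff83ffffff83ffffff83ffffff83ffffff83ffffff83ffffff83ffffff83ffffff83ffffff83ffffff83ffffff83ffffff83ffffff83ffffff83ffffff83ffffff83ffffff83ffffff83ffffff8000000000000000000000000

theorem box_tb : ∀ x, x < 32 → ∀ y, y < 32 →
    (BOX.testBit (x + 32 * y) = decide (3 ≤ x ∧ x ≤ 29 ∧ 3 ≤ y ∧ y ≤ 29)) := by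
  decide +kernel

theorem box_far {q : Cell} (hq : InB q) (h : ¬ Near 13 q) : BOX.testBit (ix q) = false := by
  have h1 := ix_eq hq
  obtain ⟨a1, a2, a3, a4⟩ := hq
  have := box_tb q.1.toNat (by omega) q.2.toNat (by omega)
  rw [show q.1.toNat + 32 * q.2.toNat = ix q by omega] at this
  rw [this, decide_eq_false_iff_not]
  intro h2
  apply h
  unfold Near
  omega

/-- mask inside the box -/
theorem far_of_box {A : ℕ} (hA : Nat.beq (sdf A BOX) 0 = true) {q : Cell} (h : ¬ Near 13 q) :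
    InB q → A.testBit (ix q) = false := by
  intro hq
  have := zero_of_beq hA (ix q)
  rw [tb_sdf, box_far hq h] at this
  simpa using this

/-- the cells at distance at most 14 -/
def BOX' : ℕ := 0x7ffffffc7ffffffc7ffffffc7ffffffc7ffffffc7ffffffc7ffffffc7ffffffc7ffffffc7ffffffc7ffffffc7ffffffc7ffffffc7ffffffc7ffffffc7ffffffc7ffffffc7ffffffc7ffffffc7ffffffc7ffffffc7ffffffc7ffffffc7ffffffc7ffffffc7ffffffc7ffffffc7ffffffc7ffffffc0000000000000000

theorem box'_tb : ∀ x, x < 32 → ∀ y, y < 32 →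
    (BOX'.testBit (x + 32 * y) = decide (2 ≤ x ∧ x ≤ 30 ∧ 2 ≤ y ∧ y ≤ 30)) := by
  decide +kernel

theorem box'_far {q : Cell} (hq : InB q) (h : ¬ Near 14 q) : BOX'.testBit (ix q) = false := by
  have h1 := ix_eq hq
  obtain ⟨a1, a2, a3, a4⟩ := hq
  have := box'_tb q.1.toNat (by omega) q.2.toNat (by omega)
  rw [show q.1.toNat + 32 * q.2.toNat = ix q by omega] at this
  rw [this, decide_eq_false_iff_not]
  intro h2
  apply h
  unfold Near
  omega

/-- mask of the first stones of a list of families with mask inside `X` -/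
def fR (X : ℕ) (L : List (ℕ × ℕ)) : ℕ :=
  L.foldr (fun g a => cond (Nat.beq (sdf g.2 X) 0) (Nat.lor (Nat.shiftLeft 1 g.1) a) a) 0

theorem fR_tb (X : ℕ) (L : List (ℕ × ℕ)) {i : ℕ} (h : (fR X L).testBit i = true) :
    ∃ g ∈ L, g.1 = i ∧ Nat.beq (sdf g.2 X) 0 = true := by
  induction L with
  | nil => simp [fR] at h
  | cons a L ih =>
    have e : fR X (a :: L) = cond (Nat.beq (sdf a.2 X) 0) (Nat.lor (Nat.shiftLeft 1 a.1) (fR X L)) (fR X L) := rfl
    rw [e] at h
    by_cases ha : Nat.beq (sdf a.2 X) 0 = true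
    · rw [ha, Bool.cond_true, tb_lor, tb_one, Bool.or_eq_true, decide_eq_true_iff] at h
      rcases h with h | h
      · exact ⟨a, List.mem_cons_self, h.symm, ha⟩
      · obtain ⟨g, hg, h1⟩ := ih h
        exact ⟨g, List.mem_cons_of_mem _ hg, h1⟩
    · rw [Bool.not_eq_true] at ha
      rw [ha, Bool.cond_false] at h
      obtain ⟨g, hg, h1⟩ := ih h
      exact ⟨g, List.mem_cons_of_mem _ hg, h1⟩

/-- a family for the first stone, the other stone being far away -/
def ROK (n : ℤ) (R : ℕ) : Prop := Bd fun p q => InB p ∧ R.testBit (ix p) = true ∧ ¬ Near n q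

theorem ROK.fam {n : ℤ} {X : ℕ} (hX : ∀ q, InB q → ¬ Near n q → X.testBit (ix q) = false)
    {L : List (ℕ × ℕ)} (h : ∀ g ∈ L, FamG g.1 g.2) : ROK n (fR X L) := by
  have key : ∀ g ∈ L, Bd fun p q => p = cl g.1 ∧ (InB q → g.2.testBit (ix q) = false) := by
    intro g hg
    obtain ⟨N, hN⟩ := h g hg
    refine ⟨N, ?_⟩
    rintro p q ⟨rfl, hq⟩ hl
    exact hN q hl.2.2.1 hl.2.2.2.1 hl.2.2.2.2 hq
  refine (Bd.list key).imp ?_
  rintro p q ⟨hp, ht, hq⟩
  obtain ⟨g, hg, h1, h2⟩ := fR_tb X L ht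
  refine ⟨g, hg, by rw [h1, cl_ix hp], ?_⟩
  intro hqb
  have := zero_of_beq h2 (ix q)
  rw [tb_sdf, hX q hqb hq] at this
  simpa using this

/-! ### no white stone given -/

/-- a proof for no white stone: mask, board of the relevant cells, octagon around them, and
cells isolated from the octagon -/
structure MR where
  A : ℕ
  K : ℕ
  x0 : ℤ
  x1 : ℤ
  y0 : ℤ
  y1 : ℤ
  s0 : ℤ
  s1 : ℤ
  d0 : ℤ
  d1 : ℤ
  ps : List ℕ

def MR.In (r : MR) (c : Cell) : Prop :=
  (r.x0 ≤ c.1 ∧ c.1 ≤ r.x1) ∧ (r.y0 ≤ c.2 ∧ c.2 ≤ r.y1) ∧ (r.s0 ≤ c.1 + c.2 ∧ c.1 + c.2 ≤ r.s1) ∧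
    (r.d0 ≤ c.1 - c.2 ∧ c.1 - c.2 ≤ r.d1)

instance (r : MR) (c : Cell) : Decidable (r.In c) := by unfold MR.In; infer_instance

/-- no window through the cell meets the octagon -/
def MR.Iso (r : MR) (p : Cell) : Prop := ∀ w, IsW w → p ∈ w → ∀ c ∈ w, ¬ r.In c

def MG (r : MR) : Prop :=
  ∃ N, ∀ p q, Leg p q → r.Iso p → (InB q → r.A.testBit (ix q) = false) → Win N {c0, c1} {p, q}

theorem m_sound {r : MR} {l : List ℕ} (hK : ∀ i, r.K.testBit i = true → r.In (cl i))
    (h : mC r.A r.K l = true) : MG r := by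
  have hd := (run_disj h).1
  obtain ⟨y, rest, hg, hk⟩ := run_sound h
  rw [Bool.cond_eq_ite] at hk
  split_ifs at hk with h0
  have h1 : Nat.beq (sdf (Nat.lor y.z (spread y.z3)) r.K) 0 = true := hk
  obtain ⟨N, hN⟩ := hg 5
  refine ⟨N, ?_⟩
  intro p q hl hiso hA
  obtain ⟨l1, l2, l3, l4, l5⟩ := hl
  rw [setOf_two, setOf_nil] at hd hN
  have hpK : p ∉ {c | r.In c} := hiso (wnd p (1, 0)) ⟨p, _, Or.inl rfl, rfl⟩
    (mem_wnd.2 ⟨0, by norm_num, by simp [wc]⟩) p (mem_wnd.2 ⟨0, by norm_num, by simp [wc]⟩)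
  have hset : ([q].toFinset ∪ {p} : Finset Cell) = insert q {p} := by
    ext x
    simp
  have := (hN {c | r.In c} [q] {p} {c0, c1} (Finset.Subset.refl _) hd ?_ ?_ ?_ ?_ ?_).win
  · refine this.congr rfl ?_
    rw [hset, Finset.empty_union, Finset.pair_comm]
  · rw [hset, Finset.disjoint_left]
    intro x hx hx'
    simp only [Finset.union_empty, Finset.mem_insert, Finset.mem_singleton] at hx hx'
    rcases hx with rfl | rfl <;> rcases hx' with hx' | hx'
    · exact l3 hx'.symm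
    · exact l1 hx'.symm
    · exact l4 hx'.symm
    · exact l2 hx'.symm
  · intro i hi
    have hi0 : i = 0 := by simpa using hi
    subst hi0
    show Av y.z y.z1 q
    apply av_of_tb
    intro hb
    have h1 := zero_of_beq h0 (ix q)
    rw [tb_sdf, hA hb] at h1
    simpa using h1
  · refine ⟨?_, ?_⟩
    · intro c hc hz
      have h2 := zero_of_beq h1 (ix c)
      rw [tb_sdf, tb_lor, hz] at h2
      have h3 := hK (ix c) (by simpa using h2)
      rwa [cl_ix hc] at h3
    · intro w k p hr hz c hc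
      have h2 := zero_of_beq h1 (ix c)
      rw [tb_sdf, tb_lor, spread_tb hr hz hc] at h2
      have h3 := hK (ix c) (by simpa using h2)
      rwa [cl_ix ((hr.mem c).1 hc).1] at h3
  · intro c hc
    rw [Finset.mem_singleton] at hc
    rw [hc]
    exact hpK
  · rw [hset]
    apply tcase2 l5 hiso
    intro d hd s t u hst htu h1 h2
    have h1' : r.In (lp p d s) := h1
    have h2' : r.In (lp p d u) := h2
    show r.In (lp p d t)
    unfold MR.In lp at h1' h2' ⊢
    rcases hd with rfl | rfl | rfl | rfl <;> simp only [mul_one, mul_zero, mul_neg] at h1' h2' ⊢ <;> omega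

end Pool.Agent.H98.Gomoku
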