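import Pool.Agent.H98.Gomoku.MList
import Pool.Agent.H98.Gomoku.M00
import Pool.Agent.H98.Gomoku.F00
import Pool.Agent.H98.Gomoku.F01
import Pool.Agent.H98.Gomoku.F02
import Pool.Agent.H98.Gomoku.F03
import Pool.Agent.H98.Gomoku.X496_466
import Pool.Agent.H98.Gomoku.X529_496
import Pool.Agent.H98.Gomoku.X561_559
import Pool.Agent.H98.Gomoku.X561_466
import Pool.Agent.H98.Gomoku.P00
import Pool.Agent.H98.Gomoku.P01
import Pool.Agent.H98.Gomoku.P02
import Pool.Agent.H98.Gomoku.P03
import Pool.Agent.H98.Gomoku.P04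
import Pool.Agent.H98.Gomoku.P05
import Pool.Agent.H98.Gomoku.P06
import Pool.Agent.H98.Gomoku.P07
import Pool.Agent.H98.Gomoku.P08
import Pool.Agent.H98.Gomoku.P09
import Pool.Agent.H98.Gomoku.P10
import Pool.Agent.H98.Gomoku.P11
import Pool.Agent.H98.Gomoku.P12
import Pool.Agent.H98.Gomoku.P13
import Pool.Agent.H98.Gomoku.P14
import Pool.Agent.H98.Gomoku.P15
import Pool.Agent.H98.Gomoku.P16
import Pool.Agent.H98.Gomoku.P17
import Pool.Agent.H98.Gomoku.P18
import Pool.Agent.H98.Gomoku.P19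
import Pool.Agent.H98.Gomoku.P20
import Pool.Agent.H98.Gomoku.P21
import Pool.Agent.H98.Gomoku.P22
import Pool.Agent.H98.Gomoku.P23
import Pool.Agent.H98.Gomoku.P24
import Pool.Agent.H98.Gomoku.P25
import Pool.Agent.H98.Gomoku.P26
import Pool.Agent.H98.Gomoku.P27
import Pool.Agent.H98.Gomoku.P28
import Pool.Agent.H98.Gomoku.P29
import Pool.Agent.H98.Gomoku.P30
import Pool.Agent.H98.Gomoku.P31

set_option autoImplicit false
set_option maxRecDepth 100000

namespace Pool.Agent.H98.Gomoku
open G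

/-- the first moves -/
def PL : List ℕ := [496, 561, 592, 593, 594, 624, 625, 626, 627, 656, 657, 658, 659, 660, 688, 689, 690, 691, 692, 693, 720, 721, 722, 723, 724, 725, 726, 752, 753, 754, 755, 756, 757, 758, 759, 784, 785, 786, 787, 788, 789, 790, 791, 792, 816, 817, 818, 819, 820, 821, 822, 823, 824, 825, 848, 849, 850, 851, 852, 853, 854, 855, 856, 857, 858]

/-- all families -/
def FL : List (ℕ × ℕ) := F00.L ++ (F01.L ++ (F02.L ++ F03.L))

/-- all pairs -/
def PP : List (ℕ × ℕ × ℕ) := X496_466.L ++ (X529_496.L ++ (X561_559.L ++ (X561_466.L ++ (P00.L ++ (P01.L ++ (P02.L ++ (P03.L ++ (P04.L ++ (P05.L ++ (P06.L ++ (P07.L ++ (P08.L ++ (P09.L ++ (P10.L ++ (P11.L ++ (P12.L ++ (P13.L ++ (P14.L ++ (P15.L ++ (P16.L ++ (P17.L ++ (P18.L ++ (P19.L ++ (P20.L ++ (P21.L ++ (P22.L ++ (P23.L ++ (P24.L ++ (P25.L ++ (P26.L ++ (P27.L ++ (P28.L ++ (P29.L ++ (P30.L ++ P31.L))))))))))))))))))))))))))))))))))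

/-- a property of the members of two lists -/
theorem allApp {α : Type} {P : α → Prop} {l₁ l₂ : List α} (h₁ : ∀ x ∈ l₁, P x)
    (h₂ : ∀ x ∈ l₂, P x) : ∀ x ∈ l₁ ++ l₂, P x := by
  intro x hx
  rcases List.mem_append.1 hx with h | h
  · exact h₁ x h
  · exact h₂ x h

theorem fl_ok : ∀ g ∈ FL, FamG g.1 g.2 := by
  unfold FL
  exact allApp F00.ok.mem (allApp F01.ok.mem (allApp F02.ok.mem F03.ok.mem))

theorem pp_ok : TOK (pTab PP) := by
  apply TOK.pairs
  unfold PP
  exact allApp X496_466.ok.mem (allApp X529_496.ok.mem (allApp X561_559.ok.mem (allApp X561_466.ok.mem (allApp P00.ok.mem (allApp P01.ok.mem (allApp P02.ok.mem (allApp P03.ok.mem (allApp P04.ok.mem (allApp P05.ok.mem (allApp P06.ok.mem (allApp P07.ok.mem (allApp P08.ok.mem (allApp P09.ok.mem (allApp P10.ok.mem (allApp P11.ok.mem (allApp P12.ok.mem (allApp P13.ok.mem (allApp P14.ok.mem (allApp P15.ok.mem (allApp P16.ok.mem (allApp P17.ok.mem (allApp P18.ok.mem (allApp P19.ok.mem (allApp P20.ok.mem (allApp P21.ok.mem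 (allApp P22.ok.mem (allApp P23.ok.mem (allApp P24.ok.mem (allApp P25.ok.mem (allApp P26.ok.mem (allApp P27.ok.mem (allApp P28.ok.mem (allApp P29.ok.mem (allApp P30.ok.mem P31.ok.mem))))))))))))))))))))))))))))))))))

theorem ml_ok : ML.all mOK = true := by decide +kernel

theorem mg_ok : ∀ g ∈ ML, MG g := by
  have h := ml_ok
  rw [List.all_eq_true] at h
  intro g hg
  have hK := mOK_K (h g hg)
  simp only [ML, List.mem_cons, List.not_mem_nil, or_false] at hg
  rcases hg with rfl
  · obtain ⟨l, hl⟩ := M00.a0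
    exact m_sound hK hl

/-- table of the pairs -/
@[irreducible] def TP : ℕ := pTab PP

/-- table of the families -/
@[irreducible] def TF : ℕ := fTab FL

/-- table of the proofs without white stone -/
@[irreducible] def TM : ℕ := mTab ML

/-- the table of won second moves -/
@[irreducible] def TT : ℕ := Nat.lor TP (Nat.lor TF TM)

/-- first stones with a family -/
@[irreducible] def RR : ℕ := fR BOX FL

/-- first stones with a larger family -/
@[irreducible] def RR0 : ℕ := fR BOX' FL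

theorem tp_ok : TOK TP := by
  unfold TP
  exact pp_ok

theorem tf_ok : TOK TF := by
  unfold TF
  exact TOK.fam fl_ok

theorem tm_ok : TOK TM := by
  unfold TM
  exact TOK.m ml_ok mg_ok

theorem tt_ok : TOK TT := by
  unfold TT
  exact TOK.lor tp_ok (TOK.lor tf_ok tm_ok)

theorem rr_ok : ROK 13 RR := by
  unfold RR
  exact ROK.fam (fun _ h1 h2 => box_far h1 h2) fl_ok

theorem rr0_ok : ROK 14 RR0 := by
  unfold RR0
  exact ROK.fam (fun _ h1 h2 => box'_far h1 h2) fl_ok

theorem chk1 : check1 TT RR RR0 PL = true := by decide +kernel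

theorem chk2 : check2 TT = true := by decide +kernel

theorem chk3 : check3 ML RR RR0 = true := by decide +kernel

theorem chk4 : pOKs PL = true := by decide +kernel

theorem chk5 : octOK PL = true := by decide +kernel

theorem chk6 : (ML.any fun r => decide (r.y1 ≤ 22) && Nat.beq (sdf r.A BOX) 0) = true := by
  decide +kernel

/-- Black wins within a bounded number of moves. -/
theorem win_empty : ∃ N, Win N ∅ ∅ :=
  final tt_ok rr_ok rr0_ok mg_ok chk4 chk5 chk1 chk2 chk3 chk6

end Pool.Agent.H98.Gomoku
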