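import Mathlib

set_option autoImplicit false

/-!
Five in a row on the infinite board: the game, finite horizon wins, and the passage from a finite
horizon win to a strategy.
-/

namespace Pool.Agent.H98.Gomoku

abbrev Cell := ℤ × ℤ

/-- the four line directions -/
def Dir (d : Cell) : Prop := d = (1, 0) ∨ d = (0, 1) ∨ d = (1, 1) ∨ d = (1, -1)

/-- the `t`-th cell of the window with start `a` and direction `d` -/
def wc (a d : Cell) (t : ℕ) : Cell := (a.1 + t * d.1, a.2 + t * d.2)

/-- the window with start `a` and direction `d` -/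
def wnd (a d : Cell) : Finset Cell := (Finset.range 5).image (wc a d)

/-- a set of stones holding five in a row -/
def Five (S : Finset Cell) : Prop := ∃ a d : Cell, Dir d ∧ wnd a d ⊆ S

/-- Black, to move, wins within `n` of his moves. -/
def Win : ℕ → Finset Cell → Finset Cell → Prop
  | 0, _, _ => False
  | n + 1, B, W => ∃ b, b ∉ B ∧ b ∉ W ∧ (Five (insert b B) ∨
      ∀ e, e ∉ insert b B → e ∉ W → ¬ Five (insert e W) ∧ Win n (insert b B) (insert e W))

theorem Dir.ne_zero {d : Cell} (h : Dir d) : d ≠ 0 := by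
  rcases h with h | h | h | h <;> subst h <;> decide

theorem wc_inj {a d : Cell} (h : Dir d) : Function.Injective (wc a d) := by
  intro s t hst
  simp only [wc, Prod.mk.injEq] at hst
  obtain ⟨h1, h2⟩ := hst
  rcases h with h | h | h | h <;> subst h <;> simp at h1 h2 <;> omega

theorem wnd_card {a d : Cell} (h : Dir d) : (wnd a d).card = 5 := by
  rw [wnd, Finset.card_image_of_injective _ (wc_inj h), Finset.card_range]

theorem mem_wnd {a d c : Cell} : c ∈ wnd a d ↔ ∃ t : ℕ, t < 5 ∧ wc a d t = c := by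
  simp [wnd]

theorem wnd_nonempty (a d : Cell) : (wnd a d).Nonempty := ⟨wc a d 0, mem_wnd.2 ⟨0, by norm_num, rfl⟩⟩

theorem Five.mono {S T : Finset Cell} (h : Five S) (hST : S ⊆ T) : Five T := by
  obtain ⟨a, d, hd, hs⟩ := h
  exact ⟨a, d, hd, hs.trans hST⟩

theorem exists_fresh (S : Finset Cell) : ∃ c : Cell, c ∉ S := Infinite.exists_notMem_finset S

theorem Win.mono {n m : ℕ} (h : n ≤ m) : ∀ {B W : Finset Cell}, Win n B W → Win m B W := by
  induction n generalizing m with
  | zero => intro B W hw; exact hw.elim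
  | succ n ih =>
    intro B W hw
    obtain ⟨m, rfl⟩ : ∃ k, m = k + 1 := ⟨m - 1, by omega⟩
    obtain ⟨b, hb, hbW, hw⟩ := hw
    refine ⟨b, hb, hbW, ?_⟩
    rcases hw with h5 | hw
    · exact Or.inl h5
    · right
      intro e he heW
      obtain ⟨h1, h2⟩ := hw e he heW
      exact ⟨h1, ih (by omega) h2⟩

/-- An extra black stone does no harm. -/
theorem Win.insert_black {n : ℕ} : ∀ {B W : Finset Cell} {x : Cell}, Win n B W → x ∉ W →
    Win n (insert x B) W := by
  induction n with
  | zero => intro B W x hw; exact hw.elim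
  | succ n ih =>
    intro B W x hw hx
    by_cases hxB : x ∈ B
    · rwa [Finset.insert_eq_self.2 hxB]
    obtain ⟨b, hb, hbW, hw⟩ := hw
    by_cases hbx : b = x
    · subst hbx
      obtain ⟨y, hy⟩ := exists_fresh (insert b B ∪ W)
      simp only [Finset.mem_union, not_or] at hy
      refine ⟨y, hy.1, hy.2, ?_⟩
      rcases hw with h5 | hw
      · exact Or.inl (h5.mono (Finset.subset_insert _ _))
      · right
        intro e he heW
        simp only [Finset.mem_insert, not_or] at he
        obtain ⟨h1, h2⟩ := hw e (by simp [he]) heW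
        refine ⟨h1, ih h2 ?_⟩
        simp only [Finset.mem_insert, not_or]
        exact ⟨fun h => he.1 h.symm, hy.2⟩
    · refine ⟨b, by simp [hb, hbx], hbW, ?_⟩
      rcases hw with h5 | hw
      · left
        exact h5.mono (Finset.insert_subset_insert _ (Finset.subset_insert _ _))
      · right
        intro e he heW
        simp only [Finset.mem_insert, not_or] at he
        obtain ⟨h1, h2⟩ := hw e (by simp [he]) heW
        refine ⟨h1, ?_⟩
        rw [Finset.insert_comm]
        apply ih h2
        simp only [Finset.mem_insert, not_or]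
        exact ⟨fun h => he.2.1 h.symm, hx⟩

theorem Win.superset {n : ℕ} {B B' W : Finset Cell} (h : Win n B W) (hs : B ⊆ B')
    (hd : Disjoint B' W) : Win n B' W := by
  classical
  have key : ∀ V : Finset Cell, Disjoint V W → Win n (V ∪ B) W := by
    intro V
    induction V using Finset.induction_on with
    | empty => intro _; simpa using h
    | insert x V hx ih =>
      intro hV
      rw [Finset.disjoint_insert_left] at hV
      rw [Finset.insert_union]
      exact (ih hV.2).insert_black hV.1
  have := key B' hd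
  rwa [Finset.union_eq_left.2 hs] at this

/-- The win predicate does not see cells, only the sets. -/
theorem Win.congr {n : ℕ} {B B' W W' : Finset Cell} (h : Win n B W) (h1 : B = B') (h2 : W = W') :
    Win n B' W' := by subst h1; subst h2; exact h

/-! ### From a finite horizon win to a strategy -/

/-- stones at the positions of a list of given parity -/
noncomputable def stones (par : ℕ) (l : List Cell) : Finset Cell :=
  (Finset.range l.length).filter (fun i => i % 2 = par) |>.image (fun i => l.getD i (0, 0))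

open Classical in
/-- a best move -/
noncomputable def bestMove (B W : Finset Cell) : Cell :=
  if h : ∃ n, Win n B W then
    if h' : ∃ b, b ∉ B ∧ b ∉ W ∧ (Five (insert b B) ∨
      ∀ e, e ∉ insert b B → e ∉ W → ¬ Five (insert e W) ∧ Win (Nat.find h - 1) (insert b B) (insert e W))
    then h'.choose else (0, 0)
  else (0, 0)

theorem bestMove_spec {n : ℕ} {B W : Finset Cell} (h : Win n B W) :
    ∃ m, m + 1 ≤ n ∧ bestMove B W ∉ B ∧ bestMove B W ∉ W ∧ (Five (insert (bestMove B W) B) ∨
      ∀ e, e ∉ insert (bestMove B W) B → e ∉ W → ¬ Five (insert e W) ∧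
        Win m (insert (bestMove B W) B) (insert e W)) := by
  classical
  have hex : ∃ n, Win n B W := ⟨n, h⟩
  have hf := Nat.find_spec hex
  have hle : Nat.find hex ≤ n := Nat.find_min' hex h
  have hpos : Nat.find hex ≠ 0 := by
    intro h0
    rw [h0] at hf
    exact hf
  obtain ⟨m, hm⟩ : ∃ m, Nat.find hex = m + 1 := ⟨Nat.find hex - 1, by omega⟩
  have hf' : Win (m + 1) B W := hm ▸ hf
  have h' : ∃ b, b ∉ B ∧ b ∉ W ∧ (Five (insert b B) ∨
      ∀ e, e ∉ insert b B → e ∉ W → ¬ Five (insert e W) ∧
        Win (Nat.find hex - 1) (insert b B) (insert e W)) := by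
    rw [hm]; exact hf'
  refine ⟨m, by omega, ?_⟩
  have hb : bestMove B W = h'.choose := by
    unfold bestMove
    rw [dif_pos hex, dif_pos h']
  have := h'.choose_spec
  rw [← hb, hm] at this
  exact this

theorem stones_ofFn (p : ℕ → Cell) (par k : ℕ) :
    stones par (List.ofFn (fun i : Fin k => p (i : ℕ))) =
      ((Finset.range k).filter (fun i => i % 2 = par)).image p := by
  unfold stones
  rw [List.length_ofFn]
  apply Finset.image_congr
  intro i hi
  simp only [Finset.coe_filter, Finset.mem_range, Set.mem_setOf_eq] at hi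
  simp [List.getD_eq_getElem?_getD, hi.1]

theorem strategy_of_win {N : ℕ} (h : Win N ∅ ∅) :
    ∃ σ : List (ℤ × ℤ) → ℤ × ℤ,
      ∀ p : ℕ → ℤ × ℤ,
        (∀ k : ℕ, p (2 * k) = σ (List.ofFn (fun i : Fin (2 * k) => p (i : ℕ)))) →
        (∀ j i : ℕ, i < 2 * j + 1 → p i ≠ p (2 * j + 1)) →
        ∃ m : ℕ, m < N ∧
          (∀ k : ℕ, k ≤ m → ∀ i : ℕ, i < 2 * k → p i ≠ p (2 * k)) ∧
          (∃ a d : ℤ × ℤ,
              (d = (1, 0) ∨ d = (0, 1) ∨ d = (1, 1) ∨ d = (1, -1)) ∧
              ∀ t : ℤ, 0 ≤ t → t < 5 →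
                ∃ i : ℕ, i ≤ m ∧ p (2 * i) = (a.1 + t * d.1, a.2 + t * d.2)) ∧
          ¬ (∃ a d : ℤ × ℤ,
              (d = (1, 0) ∨ d = (0, 1) ∨ d = (1, 1) ∨ d = (1, -1)) ∧
              ∀ t : ℤ, 0 ≤ t → t < 5 →
                ∃ i : ℕ, i < m ∧ p (2 * i + 1) = (a.1 + t * d.1, a.2 + t * d.2)) := by
  classical
  refine ⟨fun l => bestMove (stones 0 l) (stones 1 l), ?_⟩
  intro p hσ hleg
  set Bk : ℕ → Finset Cell := fun k => (Finset.range k).image (fun i => p (2 * i)) with hBk
  set Wk : ℕ → Finset Cell := fun k => (Finset.range k).image (fun i => p (2 * i + 1)) with hWk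
  have e0 : ∀ k, stones 0 (List.ofFn (fun i : Fin (2 * k) => p (i : ℕ))) = Bk k := by
    intro k
    rw [stones_ofFn]
    ext c
    simp only [hBk, Finset.mem_image, Finset.mem_filter, Finset.mem_range]
    constructor
    · rintro ⟨i, ⟨hi, hp⟩, rfl⟩
      exact ⟨i / 2, by omega, by congr 1; omega⟩
    · rintro ⟨i, hi, rfl⟩
      exact ⟨2 * i, ⟨by omega, by omega⟩, rfl⟩
  have e1 : ∀ k, stones 1 (List.ofFn (fun i : Fin (2 * k) => p (i : ℕ))) = Wk k := by
    intro k
    rw [stones_ofFn]
    ext c
    simp only [hWk, Finset.mem_image, Finset.mem_filter, Finset.mem_range]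
    constructor
    · rintro ⟨i, ⟨hi, hp⟩, rfl⟩
      exact ⟨i / 2, by omega, by congr 1; omega⟩
    · rintro ⟨i, hi, rfl⟩
      exact ⟨2 * i + 1, ⟨by omega, by omega⟩, rfl⟩
  have hmv : ∀ k, p (2 * k) = bestMove (Bk k) (Wk k) := by
    intro k
    rw [hσ k]
    simp only [e0, e1]
  have hBs : ∀ k, Bk (k + 1) = insert (p (2 * k)) (Bk k) := by
    intro k; simp [hBk, Finset.range_add_one, Finset.image_insert]
  have hWs : ∀ k, Wk (k + 1) = insert (p (2 * k + 1)) (Wk k) := by
    intro k; simp [hWk, Finset.range_add_one, Finset.image_insert]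
  have key : ∀ r k, Win r (Bk k) (Wk k) →
      (∀ j, j < k → ∀ i : ℕ, i < 2 * j → p i ≠ p (2 * j)) → ¬ Five (Wk k) →
      ∃ m, m < k + r ∧ (∀ j, j ≤ m → ∀ i : ℕ, i < 2 * j → p i ≠ p (2 * j)) ∧
        Five (Bk (m + 1)) ∧ ¬ Five (Wk m) := by
    intro r
    induction r using Nat.strong_induction_on with
    | _ r ih =>
      intro k hw hl h5
      obtain ⟨m, hm, hb, hbW, hcase⟩ := bestMove_spec hw
      rw [← hmv] at hb hbW hcase
      have hlk : ∀ i : ℕ, i < 2 * k → p i ≠ p (2 * k) := by
        intro i hi heq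
        rcases Nat.even_or_odd' i with ⟨j, rfl | rfl⟩
        · apply hb
          rw [← heq]
          exact Finset.mem_image.2 ⟨j, Finset.mem_range.2 (by omega), rfl⟩
        · apply hbW
          rw [← heq]
          exact Finset.mem_image.2 ⟨j, Finset.mem_range.2 (by omega), rfl⟩
      have hl' : ∀ j, j ≤ k → ∀ i : ℕ, i < 2 * j → p i ≠ p (2 * j) := by
        intro j hj
        rcases Nat.lt_or_eq_of_le hj with h | rfl
        · exact hl j h
        · exact hlk
      rcases hcase with hf | hf
      · exact ⟨k, by omega, hl', by rw [hBs]; exact hf, h5⟩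
      · have he1 : p (2 * k + 1) ∉ insert (p (2 * k)) (Bk k) := by
          rw [← hBs]
          intro hmem
          obtain ⟨i, hi, hpi⟩ := Finset.mem_image.1 hmem
          rw [Finset.mem_range] at hi
          exact hleg k (2 * i) (by omega) hpi
        have he2 : p (2 * k + 1) ∉ Wk k := by
          intro hmem
          obtain ⟨i, hi, hpi⟩ := Finset.mem_image.1 hmem
          rw [Finset.mem_range] at hi
          exact hleg k (2 * i + 1) (by omega) hpi
        obtain ⟨h51, hw1⟩ := hf _ he1 he2
        rw [← hBs, ← hWs] at hw1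
        rw [← hWs] at h51
        obtain ⟨m', hm', h1, h2, h3⟩ := ih m (by omega) (k + 1) hw1
          (fun j hj => hl' j (by omega)) h51
        exact ⟨m', by omega, h1, h2, h3⟩
  have hW0 : ¬ Five (Wk 0) := by
    rintro ⟨a, d, hd, hs⟩
    have := hs (mem_wnd.2 ⟨0, by norm_num, rfl⟩)
    simp [hWk] at this
  obtain ⟨m, hm, h1, h2, h3⟩ := key N 0 (by simpa [hBk, hWk] using h) (by omega) hW0
  refine ⟨m, by omega, h1, ?_, ?_⟩
  · obtain ⟨a, d, hd, hs⟩ := h2
    refine ⟨a, d, hd, ?_⟩
    intro t ht0 ht5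
    obtain ⟨i, hi, hpi⟩ := Finset.mem_image.1 (hs (mem_wnd.2 ⟨t.toNat, by omega, rfl⟩))
    rw [Finset.mem_range] at hi
    refine ⟨i, by omega, ?_⟩
    rw [hpi]
    simp only [wc]
    rw [Int.toNat_of_nonneg ht0]
  · rintro ⟨a, d, hd, hs⟩
    apply h3
    refine ⟨a, d, hd, ?_⟩
    intro c hc
    obtain ⟨t, ht, rfl⟩ := mem_wnd.1 hc
    obtain ⟨i, hi, hpi⟩ := hs t (by omega) (by exact_mod_cast ht)
    refine Finset.mem_image.2 ⟨i, Finset.mem_range.2 hi, ?_⟩
    simp only [hpi, wc]

end Pool.Agent.H98.Gomoku
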