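import Pool.Agent.H98.Gomoku.Sem

set_option autoImplicit false

namespace Pool.Agent.H98.Gomoku
open G

theorem win_five {L : Finset Cell → Prop} {n : ℕ} {T W w : Finset Cell} {f : Cell} (hf : f ∉ W) (hw : IsW w)
    (h : w ⊆ insert f T) : WinL L (n + 1) T W := by
  by_cases hT : f ∈ T
  · rw [Finset.insert_eq_self.2 hT] at h
    obtain ⟨y, hy⟩ := exists_fresh (T ∪ W)
    simp only [Finset.mem_union, not_or] at hy
    exact ⟨y, hy.1, hy.2, Or.inl (five_iff.2 ⟨w, hw, h.trans (Finset.subset_insert _ _)⟩)⟩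
  · exact ⟨f, hT, hf, Or.inl (five_iff.2 ⟨w, hw, h⟩)⟩

theorem not_five {L : Finset Cell → Prop} {T Wt W'' : Finset Cell} {e : Cell} (hsub : Wt ⊆ W'') (hd : Disjoint T Wt) (he : e ∉ T)
    (hbd : ∀ w, IsW w → ¬ L w → Disjoint w T → (w ∩ W'').card ≤ 3) : ¬ FiveL L (insert e Wt) := by
  rintro ⟨w, hw, hl, hsubw⟩
  have hdw : Disjoint w T := by
    rw [Finset.disjoint_left]
    intro c hc hcT
    rcases Finset.mem_insert.1 (hsubw hc) with h | h
    · exact he (h ▸ hcT)
    · exact Finset.disjoint_left.1 hd hcT h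
  have h1 := hbd w hw hl hdw
  have h2 : w ⊆ insert e (w ∩ W'') := by
    intro c hc
    rcases Finset.mem_insert.1 (hsubw hc) with h | h
    · exact Finset.mem_insert.2 (Or.inl h)
    · exact Finset.mem_insert.2 (Or.inr (Finset.mem_inter.2 ⟨hc, hsub h⟩))
  have h3 := Finset.card_le_card h2
  have h4 := Finset.card_insert_le e (w ∩ W'')
  rw [hw.card] at h3
  omega

theorem step_win {L : Finset Cell → Prop} {n : ℕ} {T Wt W'' w : Finset Cell} {b v : Cell} (hb : b ∉ Wt) (hv : v ∉ Wt)
    (hbv : b ≠ v) (hw : IsW w) (hws : w ⊆ insert b (insert v T)) (hd : Disjoint T Wt)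
    (hbd : ∀ w, IsW w → ¬ L w → Disjoint w (insert b T) → (w ∩ W'').card ≤ 3) (hsub : Wt ⊆ W'')
    (hnext : b ∉ T → v ∉ T → WinL L (n + 1) (insert b T) (insert v Wt)) : WinL L (n + 2) T Wt := by
  by_cases hbT : b ∈ T
  · apply win_five hv hw
    rw [Finset.insert_comm, Finset.insert_eq_self.2 hbT] at hws
    exact hws
  by_cases hvT : v ∈ T
  · apply win_five hb hw
    rw [Finset.insert_eq_self.2 hvT] at hws
    exact hws
  refine ⟨b, hbT, hb, Or.inr ?_⟩
  intro e he heW
  have hd' : Disjoint (insert b T) Wt := by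
    rw [Finset.disjoint_insert_left]
    exact ⟨hb, hd⟩
  refine ⟨not_five hsub hd' he hbd, ?_⟩
  by_cases hev : e = v
  · subst hev
    exact hnext hbT hvT
  · apply win_five (f := v) _ hw
    · rw [Finset.insert_comm]
      exact hws
    · rw [Finset.mem_insert, not_or]
      exact ⟨fun h => hev h.symm, hv⟩

theorem tb_add {B : ℕ} {Bs : Finset Cell} (hb : ∀ i, B.testBit i = true → ∃ c ∈ Bs, ix c = i) (x : Cell) :
    ∀ i, (Nat.lor B (Nat.shiftLeft 1 (ix x))).testBit i = true → ∃ c ∈ insert x Bs, ix c = i := by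
  intro i hi
  rw [tb_lor, tb_one, Bool.or_eq_true, decide_eq_true_iff] at hi
  rcases hi with h | h
  · obtain ⟨c, hc, he⟩ := hb i h
    exact ⟨c, Finset.mem_insert_of_mem hc, he⟩
  · exact ⟨x, Finset.mem_insert_self _ _, h.symm⟩

theorem seq_sound (L : Finset Cell → Prop) (l : List ℕ) : ∀ {B fr pd bl c1 c2 c3 c4 z : ℕ} {k : K} {Bs Ws : Finset Cell} {v : Cell},
    (∀ c ∈ Bs, Inner c) → (∀ c ∈ Ws, Inner c) → Inner v →
    (∀ i, B.testBit i = true → ∃ c ∈ Bs, ix c = i) →
    (∀ i, fr.testBit i = true → ∃ c, Inner c ∧ ix c = i ∧ (c ∉ Bs ∧ c ∉ insert v Ws)) →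
    pd = Nat.shiftLeft PAT (ix v) → Cnt Ws c1 c2 c3 c4 →
    seq l B fr pd bl c1 c2 c3 c4 z k = true →
    ∃ z' W' d1 d2 d3 d4 rest, (∀ i, z.testBit i = true → z'.testBit i = true) ∧ Ws ⊆ W' ∧
      (∀ c ∈ W', Inner c) ∧ Cnt W' d1 d2 d3 d4 ∧ (∀ i, (sdf d4 bl).testBit i = false) ∧
      k z' (sdf d3 bl) (sdf d2 bl) (sdf d1 bl) rest = true ∧
      ∀ T V : Finset Cell, Bs ⊆ T → Disjoint T (insert v Ws ∪ V) →
        (∀ c ∈ V, InB c → z'.testBit (ix c) = false) →
        (∀ w, IsW w → ¬ L w → Disjoint w T → (w ∩ (W' ∪ V)).card ≤ 3) →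
        WinL L (l.length + 1) T (insert v Ws ∪ V) := by
  induction l with
  | nil =>
    intro B fr pd bl c1 c2 c3 c4 z k Bs Ws v _ _ _ _ _ _ _ h
    exact absurd h (by simp [seq])
  | cons t rest ih =>
    intro B fr pd bl c1 c2 c3 c4 z k Bs Ws v hBi hWi hvi hb hfr hpd hc h
    have hun : seq (t :: rest) B fr pd bl c1 c2 c3 c4 z k =
      cond (Nat.beq (Nat.land t 3) 0)
        (five t B fr fun fb =>
          cond (Nat.beq (sdf c4 bl) 0) (k (Nat.lor z fb) (sdf c3 bl) (sdf c2 bl) (sdf c1 bl) rest) false)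
        (step t B fr fun _ w B' fr' u =>
          addC pd c1 c2 c3 c4 fun c1' c2' c3' c4' =>
            seq rest B' fr' (Nat.shiftLeft PAT w) bl c1' c2' c3' c4' (Nat.lor z u) k) := rfl
    rw [hun, Bool.cond_eq_ite] at h
    split_ifs at h with htag
    · -- five
      obtain ⟨f, hf1, hf2, hk, w, hw, hwc⟩ := five_sound h hBi hb hfr
      rw [Bool.cond_eq_ite] at hk
      split_ifs at hk with h0
      refine ⟨_, Ws, c1, c2, c3, c4, rest, ?_, subset_rfl, hWi, hc, fun i => zero_of_beq h0 i, hk, ?_⟩
      · intro i hi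
        rw [tb_lor, hi, Bool.true_or]
      · intro T V hBT hd hV hbd
        apply win_five (f := f) _ hw
        · intro c hcw
          rcases hwc c hcw with h' | h'
          · exact Finset.mem_insert_of_mem (hBT h')
          · exact Finset.mem_insert.2 (Or.inl h')
        · rw [Finset.mem_union, not_or]
          refine ⟨hf2.2, ?_⟩
          intro hfV
          have := hV f hfV hf1.inB
          rw [tb_lor, tb_one, decide_eq_true rfl, Bool.or_true] at this
          exact absurd this (by simp)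
    · -- step
      obtain ⟨b, v', hb1, hv1, hb3, hv3, hbv, hk, ⟨hfb, hfv⟩, w, hw, hwc⟩ := step_sound h hBi hb hfr
      have hk' : seq rest (Nat.lor B (Nat.shiftLeft 1 (ix b)))
          (Nat.xor (Nat.xor fr (Nat.shiftLeft 1 (ix b))) (Nat.shiftLeft 1 (ix v')))
          (Nat.shiftLeft PAT (ix v')) bl (Nat.lor c1 pd) (Nat.lor c2 (Nat.land c1 pd))
          (Nat.lor c3 (Nat.land c2 pd)) (Nat.lor c4 (Nat.land c3 pd))
          (Nat.lor z (Nat.lor (Nat.shiftLeft 1 (ix b)) (Nat.shiftLeft 1 (ix v')))) k = true := hk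
      obtain ⟨z', W', d1, d2, d3, d4, rest', h1, h2, h3, h4, h5, h6, h7⟩ :=
        ih (Bs := insert b Bs) (Ws := insert v Ws) (v := v')
        (by
          intro c hcm
          rcases Finset.mem_insert.1 hcm with rfl | hcm
          · exact hb1
          · exact hBi c hcm)
        (by
          intro c hcm
          rcases Finset.mem_insert.1 hcm with rfl | hcm
          · exact hvi
          · exact hWi c hcm)
        hv1 (tb_add hb b)
        (by
          intro i hi
          rw [tb_xor, tb_xor, tb_one, tb_one] at hi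
          have hib : i ≠ ix b := by
            intro he
            subst he
            rw [hfb] at hi
            have : ix b ≠ ix v' := fun he => hbv (ix_inj hb1.inB hv1.inB he)
            simp [this] at hi
          have hiv : i ≠ ix v' := by
            intro he
            subst he
            rw [hfv] at hi
            have : ix v' ≠ ix b := fun he => hbv (ix_inj hv1.inB hb1.inB he).symm
            simp [this] at hi
          have hfi : fr.testBit i = true := by simpa [hib, hiv] using hi
          obtain ⟨c, g1, g2, g3, g4⟩ := hfr i hfi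
          refine ⟨c, g1, g2, ?_, ?_⟩
          · rw [Finset.mem_insert, not_or]
            exact ⟨fun he => hib (by rw [← g2, he]), g3⟩
          · rw [Finset.mem_insert, not_or]
            exact ⟨fun he => hiv (by rw [← g2, he]), g4⟩)
        rfl (by rw [hpd]; exact hc.add v) hk'
      refine ⟨z', W', d1, d2, d3, d4, rest', ?_, ?_, h3, h4, h5, h6, ?_⟩
      · intro i hi
        apply h1
        rw [tb_lor, hi, Bool.true_or]
      · exact (Finset.subset_insert _ _).trans h2
      · intro T V hBT hd hV hbd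
        have hVb : ∀ c : Cell, InB c → (c = b ∨ c = v') → c ∉ V := by
          intro c hcb hcc hcV
          have := hV c hcV hcb
          rw [h1 (ix c) (by
            rw [tb_lor, tb_lor, tb_one, tb_one]
            rcases hcc with rfl | rfl <;> simp)] at this
          exact absurd this (by simp)
        have hbW : b ∉ insert v Ws ∪ V := by
          rw [Finset.mem_union, not_or]
          exact ⟨hb3.2, hVb b hb1.inB (Or.inl rfl)⟩
        have hvW : v' ∉ insert v Ws ∪ V := by
          rw [Finset.mem_union, not_or]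
          exact ⟨hv3.2, hVb v' hv1.inB (Or.inr rfl)⟩
        rw [List.length_cons]
        refine step_win (W'' := W' ∪ V) hbW hvW hbv hw ?_ hd ?_ ?_ ?_
        · intro c hcw
          rcases hwc c hcw with h' | h' | h'
          · exact Finset.mem_insert_of_mem (Finset.mem_insert_of_mem (hBT h'))
          · exact Finset.mem_insert.2 (Or.inl h')
          · exact Finset.mem_insert_of_mem (Finset.mem_insert.2 (Or.inl h'))
        · intro w' hw' hl hdw
          exact hbd w' hw' hl (hdw.mono_right (Finset.subset_insert _ _))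
        · exact Finset.union_subset_union_left h2
        · intro hbT hvT
          rw [← Finset.insert_union]
          apply h7 (insert b T) V (Finset.insert_subset_insert _ hBT) _ hV
          · intro w' hw' hl hdw
            exact hbd w' hw' hl (hdw.mono_right (Finset.subset_insert _ _))
          · rw [Finset.insert_union, Finset.disjoint_insert_left, Finset.disjoint_insert_right,
              Finset.mem_insert, not_or]
            exact ⟨⟨hbv, hbW⟩, hvT, hd⟩

/-- relation between a position and the numbers of the checker -/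
structure St (L : Finset Cell → Prop) (B W : Finset Cell) (b fr bl c1 c2 c3 c4 : ℕ) : Prop where
  innB : ∀ c ∈ B, Inner c
  innW : ∀ c ∈ W, Inner c
  disj : Disjoint B W
  hb : ∀ i, b.testBit i = true → ∃ c ∈ B, ix c = i
  hfr : ∀ i, fr.testBit i = true → ∃ c, Inner c ∧ ix c = i ∧ (c ∉ B ∧ c ∉ W)
  hfr' : ∀ c, Inner c → c ∉ B → c ∉ W → fr.testBit (ix c) = true
  hbl : ∀ w k p, Rep w k p → bl.testBit (wb k p) = true → ¬ L w → ¬ Disjoint w B
  hc : Cnt W c1 c2 c3 c4

theorem bl_add {L : Finset Cell → Prop} {B : Finset Cell} {bl : ℕ}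
    (h : ∀ w k p, Rep w k p → bl.testBit (wb k p) = true → ¬ L w → ¬ Disjoint w B)
    {x : Cell} (hx : InB x) : ∀ w k p, Rep w k p →
      (Nat.lor bl (Nat.shiftLeft PAT (ix x))).testBit (wb k p) = true → ¬ L w → ¬ Disjoint w (insert x B) := by
  intro w k p hr hbit hl hd
  rw [Finset.disjoint_insert_right] at hd
  rw [tb_lor, Bool.or_eq_true] at hbit
  rcases hbit with h' | h'
  · exact h w k p hr h' hl hd.2
  · exact hd.1 (mem_pat hr hx h')

theorem leaf_sound {L : Finset Cell → Prop} {t B fr bl c1 c2 c3 c4 : ℕ} {l : List ℕ} {k : K} {Bs Ws : Finset Cell}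
    (st : St L Bs Ws B fr bl c1 c2 c3 c4)
    (h : step t B fr (fun b w B' fr' u => seq l B' fr' (Nat.shiftLeft PAT w)
      (Nat.lor bl (Nat.shiftLeft PAT b)) c1 c2 c3 c4 u k) = true) (lv : ℕ) :
    ∃ z z1 z2 z3 rest, Good L lv Bs Ws z z1 z2 z3 ∧ k z z1 z2 z3 rest = true := by
  obtain ⟨b, v, hb1, hv1, hb3, hv3, hbv, hk, ⟨hfb, hfv⟩, w, hw, hwc⟩ := step_sound h st.innB st.hb st.hfr
  obtain ⟨z', W', d1, d2, d3, d4, rest', h1, h2, h3, h4, h5, h6, h7⟩ :=
    seq_sound L l (Bs := insert b Bs) (Ws := Ws) (v := v)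
    (by
      intro c hcm
      rcases Finset.mem_insert.1 hcm with rfl | hcm
      · exact hb1
      · exact st.innB c hcm)
    st.innW hv1 (tb_add st.hb b)
    (by
      intro i hi
      rw [tb_xor, tb_xor, tb_one, tb_one] at hi
      have hib : i ≠ ix b := by
        intro he
        subst he
        rw [hfb] at hi
        have : ix b ≠ ix v := fun he => hbv (ix_inj hb1.inB hv1.inB he)
        simp [this] at hi
      have hiv : i ≠ ix v := by
        intro he
        subst he
        rw [hfv] at hi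
        have : ix v ≠ ix b := fun he => hbv (ix_inj hv1.inB hb1.inB he).symm
        simp [this] at hi
      have hfi : fr.testBit i = true := by simpa [hib, hiv] using hi
      obtain ⟨c, g1, g2, g3, g4⟩ := st.hfr i hfi
      refine ⟨c, g1, g2, ?_, ?_⟩
      · rw [Finset.mem_insert, not_or]
        exact ⟨fun he => hib (by rw [← g2, he]), g3⟩
      · rw [Finset.mem_insert, not_or]
        exact ⟨fun he => hiv (by rw [← g2, he]), g4⟩)
    rfl st.hc hk
  refine ⟨_, _, _, _, rest', ?_, h6⟩
  intro m
  refine ⟨l.length + 2, ?_⟩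
  intro K U F T hBT hTW hXV hU hK hF hS
  have hV : ∀ c ∈ U.toFinset ∪ F, InB c → z'.testBit (ix c) = false := by
    intro c hc hcb
    rcases Finset.mem_union.1 hc with hc | hc
    · rw [List.mem_toFinset] at hc
      obtain ⟨i, hi, rfl⟩ := List.getElem_of_mem hc
      exact (hU i hi).1 hcb
    · by_contra hcon
      exact hF c hc (hK.1 c hcb (by simpa using hcon))
  have hbd : ∀ w, IsW w → ¬ L w → Disjoint w (insert b T) →
      (w ∩ (W' ∪ (U.toFinset ∪ F))).card ≤ 3 := by
    apply bound h3 h2 h4 _ h5 (fun _ h => h) (fun _ h => h) (fun _ h => h) hU hK hF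
    · exact hS.w3.mono (Finset.union_subset_union_left (Finset.subset_insert _ _)) (fun _ h => h)
    · intro w' k' p' hr hbit hl hd
      exact bl_add st.hbl hb1.inB w' k' p' hr hbit hl (hd.mono_right (Finset.insert_subset_insert _ hBT))
  have hVb : ∀ c : Cell, InB c → (c = b ∨ c = v) → c ∉ U.toFinset ∪ F := by
    intro c hcb hcc hcV
    have := hV c hcV hcb
    rw [h1 (ix c) (by
      rw [tb_lor, tb_one, tb_one]
      rcases hcc with rfl | rfl <;> simp)] at this
    exact absurd this (by simp)
  have hbW : b ∉ Ws ∪ (U.toFinset ∪ F) := by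
    rw [Finset.mem_union, not_or]
    exact ⟨hb3.2, hVb b hb1.inB (Or.inl rfl)⟩
  have hvW : v ∉ Ws ∪ (U.toFinset ∪ F) := by
    rw [Finset.mem_union, not_or]
    exact ⟨hv3.2, hVb v hv1.inB (Or.inr rfl)⟩
  have hdis : Disjoint T (Ws ∪ (U.toFinset ∪ F)) := by
    rw [Finset.disjoint_union_right]
    exact ⟨hTW, hXV.mono_left Finset.subset_union_left⟩
  refine step_win (W'' := W' ∪ (U.toFinset ∪ F)) hbW hvW hbv hw ?_ hdis hbd
    (Finset.union_subset_union_left h2) ?_
  · intro c hcw
    rcases hwc c hcw with h' | h' | h'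
    · exact Finset.mem_insert_of_mem (Finset.mem_insert_of_mem (hBT h'))
    · exact Finset.mem_insert.2 (Or.inl h')
    · exact Finset.mem_insert_of_mem (Finset.mem_insert.2 (Or.inl h'))
  · intro hbT hvT
    rw [← Finset.insert_union]
    apply h7 (insert b T) _ (Finset.insert_subset_insert _ hBT) _ hV hbd
    rw [Finset.insert_union, Finset.disjoint_insert_left, Finset.disjoint_insert_right,
      Finset.mem_insert, not_or]
    exact ⟨⟨hbv, hbW⟩, hvT, hdis⟩

/-- a five at once -/
theorem five_good {L : Finset Cell → Prop} {t B fr bl c1 c2 c3 c4 : ℕ} {k : ℕ → Bool} {Bs Ws : Finset Cell}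
    (st : St L Bs Ws B fr bl c1 c2 c3 c4) (h : five t B fr k = true) (lv : ℕ) :
    ∃ fb, Good L lv Bs Ws fb 0 0 0 ∧ k fb = true := by
  obtain ⟨f, hf1, hf2, hk, w, hw, hwc⟩ := five_sound h st.innB st.hb st.hfr
  refine ⟨_, ?_, hk⟩
  intro m
  refine ⟨1, ?_⟩
  intro K U F T hBT hTW hXV hU hK hF hS
  apply win_five (f := f) _ hw
  · intro c hcw
    rcases hwc c hcw with h' | h'
    · exact Finset.mem_insert_of_mem (hBT h')
    · exact Finset.mem_insert.2 (Or.inl h')
  · rw [Finset.mem_union, Finset.mem_union, not_or, not_or]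
    refine ⟨hf2.2, ?_, ?_⟩
    · intro hc
      rw [List.mem_toFinset] at hc
      obtain ⟨i, hi, he⟩ := List.getElem_of_mem hc
      have := (hU i hi).1 (by rw [he]; exact hf1.inB)
      rw [he, tb_one, decide_eq_true rfl] at this
      exact absurd this (by simp)
    · intro hc
      exact hF f hc (hK.1 f hf1.inB (by rw [tb_one, decide_eq_true rfl]))

end Pool.Agent.H98.Gomoku
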