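import Pool.Agent.H98.Gomoku.Node

set_option autoImplicit false

namespace Pool.Agent.H98.Gomoku
open G

theorem sp1_tb {y s j t : ℕ} (h : y.testBit j = true) (ht : t < 5) : (sp1 y s).testBit (j + t * s) = true := by
  unfold sp1
  simp only [tb_lor, tb_shl]
  have ht' : t = 0 ∨ t = 1 ∨ t = 2 ∨ t = 3 ∨ t = 4 := by omega
  rcases ht' with rfl | rfl | rfl | rfl | rfl
  · simp [h]
  · have e : j + 1 * s - s = j := by omega
    simp [h]
  · have e : j + 2 * s - Nat.mul 2 s = j := by simp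
    have e2 : Nat.mul 2 s ≤ j + 2 * s := by simp
    rw [e, h]
    simp [e2]
  · have e : j + 3 * s - Nat.mul 3 s = j := by simp
    have e2 : Nat.mul 3 s ≤ j + 3 * s := by simp
    rw [e, h]
    simp [e2]
  · have e : j + 4 * s - Nat.mul 4 s = j := by simp
    have e2 : Nat.mul 4 s ≤ j + 4 * s := by simp
    rw [e, h]
    simp [e2]

theorem spread_tb {z : ℕ} {w : Finset Cell} {k p : ℕ} (hr : Rep w k p) (h : z.testBit (wb k p) = true)
    {c : Cell} (hc : c ∈ w) : (spread z).testBit (ix c) = true := by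
  obtain ⟨hcb, t, ht, he⟩ := (hr.mem c).1 hc
  have hk := hr.hk
  unfold spread
  have hz : Nat.beq z 0 = false := by
    by_contra hcon
    have := zero_of_beq (by simpa using hcon : Nat.beq z 0 = true) (wb k p)
    rw [this] at h
    exact absurd h (by simp)
  rw [hz, Bool.cond_false, tb_land, full_tb, tb_shr]
  have hlt := ix_lt hcb
  simp only [hlt, decide_true, Bool.and_true]
  rw [he]
  have hk' : k = 0 ∨ k = 1 ∨ k = 2 ∨ k = 3 := by omega
  rcases hk' with rfl | rfl | rfl | rfl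
  · have h' := sp1_tb (s := 1) (t := t) h ht
    rw [show wb 0 p + t * 1 = 132 + (p + t * sk 0) by unfold wb sk; simp; ring] at h'
    rw [tb_lor, tb_lor, h']
    rfl
  · have h0 : (Nat.shiftRight z 2048).testBit (p + 132) = true := by
      rw [tb_shr, show 2048 + (p + 132) = wb 1 p by unfold wb; ring]
      exact h
    have h' := sp1_tb (s := 32) (t := t) h0 ht
    rw [show p + 132 + t * 32 = 132 + (p + t * sk 1) by unfold sk; simp; ring] at h'
    rw [tb_lor, tb_lor, h']
    simp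
  · have h0 : (Nat.shiftRight z 4096).testBit (p + 132) = true := by
      rw [tb_shr, show 4096 + (p + 132) = wb 2 p by unfold wb; ring]
      exact h
    have h' := sp1_tb (s := 33) (t := t) h0 ht
    rw [show p + 132 + t * 33 = 132 + (p + t * sk 2) by unfold sk; simp; ring] at h'
    rw [tb_lor, tb_lor, tb_lor, h']
    simp
  · have h0 : (Nat.shiftRight z 6144).testBit (p + 132) = true := by
      rw [tb_shr, show 6144 + (p + 132) = wb 3 p by unfold wb; ring]
      exact h
    have h' := sp1_tb (s := 31) (t := t) h0 ht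
    rw [show p + 132 + t * 31 = 132 + (p + t * sk 3) by unfold sk; simp; ring] at h'
    rw [tb_lor, tb_lor, tb_lor, h']
    simp

theorem fc_eq (n : ℕ) (f : ℕ → Bool) : fc n f = f n := by
  cases n <;> rfl

/-- outside the computed board of a default, the cell avoids its first zone -/
theorem av_of_tb {y y1 : ℕ} {c : Cell} (h : InB c → (Nat.lor y (spread y1)).testBit (ix c) = false) :
    Av y y1 c := by
  refine ⟨?_, ?_⟩
  · intro hc
    have := h hc
    rw [tb_lor, Bool.or_eq_false_iff] at this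
    exact this.1
  · intro w k p hr hb hcw
    have hc := ((hr.mem c).1 hcw).1
    have := h hc
    rw [tb_lor, Bool.or_eq_false_iff] at this
    rw [spread_tb hr hb hcw] at this
    exact absurd this.2 (by simp)

theorem St.insertB {L : Finset Cell → Prop} {Bs Ws : Finset Cell} {B fr bl c1 c2 c3 c4 : ℕ} (st : St L Bs Ws B fr bl c1 c2 c3 c4)
    {x : Cell} (hx : Inner x) (hB : x ∉ Bs) (hW : x ∉ Ws) :
    St L (insert x Bs) Ws (Nat.lor B (Nat.shiftLeft 1 (ix x))) (Nat.xor fr (Nat.shiftLeft 1 (ix x)))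
      (Nat.lor bl (Nat.shiftLeft PAT (ix x))) c1 c2 c3 c4 := by
  have hfx := st.hfr' x hx hB hW
  refine ⟨?_, st.innW, ?_, tb_add st.hb x, ?_, ?_, bl_add st.hbl hx.inB, st.hc⟩
  · intro c hc
    rcases Finset.mem_insert.1 hc with rfl | hc
    · exact hx
    · exact st.innB c hc
  · rw [Finset.disjoint_insert_left]
    exact ⟨hW, st.disj⟩
  · intro i hi
    rw [tb_xor, tb_one] at hi
    have hix : i ≠ ix x := by
      rintro rfl
      rw [hfx] at hi
      simp at hi
    have hfi : fr.testBit i = true := by simpa [hix] using hi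
    obtain ⟨c, g1, g2, g3, g4⟩ := st.hfr i hfi
    refine ⟨c, g1, g2, ?_, g4⟩
    rw [Finset.mem_insert, not_or]
    exact ⟨fun he => hix (by rw [← g2, he]), g3⟩
  · intro c hc hcB hcW
    rw [Finset.mem_insert, not_or] at hcB
    have h1 := st.hfr' c hc hcB.2 hcW
    have h2 : ix c ≠ ix x := fun he => hcB.1 (ix_inj hc.inB hx.inB he)
    rw [tb_xor, tb_one, h1]
    simp [h2]

theorem St.insertW {L : Finset Cell → Prop} {Bs Ws : Finset Cell} {B fr bl c1 c2 c3 c4 : ℕ} (st : St L Bs Ws B fr bl c1 c2 c3 c4)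
    {x : Cell} (hx : Inner x) (hB : x ∉ Bs) (hW : x ∉ Ws) :
    St L Bs (insert x Ws) B (Nat.xor fr (Nat.shiftLeft 1 (ix x))) bl
      (Nat.lor c1 (Nat.shiftLeft PAT (ix x)))
      (Nat.lor c2 (Nat.land c1 (Nat.shiftLeft PAT (ix x))))
      (Nat.lor c3 (Nat.land c2 (Nat.shiftLeft PAT (ix x))))
      (Nat.lor c4 (Nat.land c3 (Nat.shiftLeft PAT (ix x)))) := by
  have hfx := st.hfr' x hx hB hW
  refine ⟨st.innB, ?_, ?_, st.hb, ?_, ?_, st.hbl, st.hc.add x⟩
  · intro c hc
    rcases Finset.mem_insert.1 hc with rfl | hc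
    · exact hx
    · exact st.innW c hc
  · rw [Finset.disjoint_insert_right]
    exact ⟨hB, st.disj⟩
  · intro i hi
    rw [tb_xor, tb_one] at hi
    have hix : i ≠ ix x := by
      rintro rfl
      rw [hfx] at hi
      simp at hi
    have hfi : fr.testBit i = true := by simpa [hix] using hi
    obtain ⟨c, g1, g2, g3, g4⟩ := st.hfr i hfi
    refine ⟨c, g1, g2, g3, ?_⟩
    rw [Finset.mem_insert, not_or]
    exact ⟨fun he => hix (by rw [← g2, he]), g4⟩
  · intro c hc hcB hcW
    rw [Finset.mem_insert, not_or] at hcW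
    have h1 := st.hfr' c hc hcB hcW.2
    have h2 : ix c ≠ ix x := fun he => hcW.1 (ix_inj hc.inB hx.inB he)
    rw [tb_xor, tb_one, h1]
    simp [h2]

/-- soundness of a checker of Black-to-move nodes -/
def BNS (bn : BNT) : Prop :=
  ∀ (L : Finset Cell → Prop) (lv : ℕ) (l : List ℕ) (B fr bl c1 c2 c3 c4 : ℕ) (k : K)
    (Bs Ws : Finset Cell), St L Bs Ws B fr bl c1 c2 c3 c4 → bn lv l B fr bl c1 c2 c3 c4 k = true →
    ∃ (y : Zn) (rest : List ℕ), Good L lv Bs Ws y.z y.z1 y.z2 y.z3 ∧ k y.z y.z1 y.z2 y.z3 rest = true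

theorem defL_sound {bn : BNT} (hbn : BNS bn) {L : Finset Cell → Prop} {lv B fr bl c1 c2 c3 c4 : ℕ} {Bs Ws : Finset Cell}
    (st : St L Bs Ws B fr bl c1 c2 c3 c4) (n : ℕ) :
    ∀ {l : List ℕ} {E z z1 z2 z3 : ℕ} {k : ℕ → K},
      defL bn n lv l B fr bl c1 c2 c3 c4 E z z1 z2 z3 k = true →
      ∃ (D : List Zn) (E' z' z1' z2' z3' : ℕ) (rest : List ℕ),
        (∀ d ∈ D, Good L lv Bs Ws d.z d.z1 d.z2 d.z3) ∧
        (∀ i, E.testBit i = true → E'.testBit i = true ∨
          ∃ d ∈ D, (Nat.lor d.z (spread d.z1)).testBit i = false) ∧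
        sub z z' ∧ sub z1 z1' ∧ sub z2 z2' ∧ sub z3 z3' ∧
        (∀ d ∈ D, sub d.z z' ∧ sub d.z2 z1' ∧ sub d.z3 z2' ∧ sub d.z3 z3') ∧
        k E' z' z1' z2' z3' rest = true := by
  induction n with
  | zero =>
    intro l E z z1 z2 z3 k h
    have h' : (fc E fun E => fc z fun z => fc z1 fun z1 => fc z2 fun z2 => fc z3 fun z3 =>
      k E z z1 z2 z3 l) = true := h
    simp only [fc_eq] at h'
    exact ⟨[], E, z, z1, z2, z3, l, by simp, fun i hi => Or.inl hi, sub.refl _, sub.refl _,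
      sub.refl _, sub.refl _, by simp, h'⟩
  | succ n ih =>
    intro l E z z1 z2 z3 k h
    have h' : (bn lv l B fr bl c1 c2 c3 c4 fun y y1 y2 y3 l' =>
        defL bn n lv l' B fr bl c1 c2 c3 c4 (Nat.land E (Nat.lor y (spread y1))) (Nat.lor z y)
          (Nat.lor z1 y2) (Nat.lor z2 y3) (Nat.lor z3 y3) k) = true := h
    obtain ⟨y, rest, hy, h''⟩ := hbn _ _ _ _ _ _ _ _ _ _ _ _ _ st h'
    obtain ⟨D, E', z', z1', z2', z3', rest', g1, g2, g3, g4, g5, g6, g7, g8⟩ := ih h''
    refine ⟨y :: D, E', z', z1', z2', z3', rest', ?_, ?_, (sub_lor_left _ _).trans g3,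
      (sub_lor_left _ _).trans g4, (sub_lor_left _ _).trans g5, (sub_lor_left _ _).trans g6, ?_, g8⟩
    · intro d hd
      rcases List.mem_cons.1 hd with rfl | hd
      · exact hy
      · exact g1 d hd
    · intro i hi
      by_cases hb : (Nat.lor y.z (spread y.z1)).testBit i = true
      · rcases g2 i (by rw [tb_land, hi, hb]; rfl) with h1 | ⟨d, hd, h1⟩
        · exact Or.inl h1
        · exact Or.inr ⟨d, List.mem_cons_of_mem _ hd, h1⟩
      · exact Or.inr ⟨y, List.mem_cons_self, by simpa using hb⟩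
    · intro d hd
      rcases List.mem_cons.1 hd with rfl | hd
      · exact ⟨(sub_lor_right _ _).trans g3, (sub_lor_right _ _).trans g4,
          (sub_lor_right _ _).trans g5, (sub_lor_right _ _).trans g6⟩
      · exact g7 d hd

theorem expL_sound {bn : BNT} (hbn : BNS bn) {L : Finset Cell → Prop} {lv B fr bl c1 c2 c3 c4 : ℕ} {Bs Ws : Finset Cell}
    (st : St L Bs Ws B fr bl c1 c2 c3 c4) (n : ℕ) :
    ∀ {l : List ℕ} {E z z1 z2 z3 : ℕ} {k : K},
      expL bn n lv l B fr bl c1 c2 c3 c4 E z z1 z2 z3 k = true →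
      ∃ (X : List (Cell × Zn)) (z' z1' z2' z3' : ℕ) (rest : List ℕ),
        (∀ x ∈ X, Good L lv Bs (insert x.1 Ws) x.2.z x.2.z1 x.2.z2 x.2.z3) ∧
        (∀ i, E.testBit i = true → ∃ x ∈ X, Inner x.1 ∧ ix x.1 = i) ∧
        sub z z' ∧ sub z1 z1' ∧ sub z2 z2' ∧ sub z3 z3' ∧
        (∀ x ∈ X, sub x.2.z z' ∧ sub x.2.z1 z1' ∧ sub x.2.z2 z2' ∧ sub x.2.z3 z3') ∧
        k z' z1' z2' z3' rest = true := by
  induction n with
  | zero =>
    intro l E z z1 z2 z3 k h
    have h' : cond (Nat.beq E 0) (k z z1 z2 z3 l) false = true := h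
    rw [Bool.cond_eq_ite] at h'
    split_ifs at h' with h0
    refine ⟨[], z, z1, z2, z3, l, by simp, ?_, sub.refl _, sub.refl _, sub.refl _, sub.refl _,
      by simp, h'⟩
    intro i hi
    rw [zero_of_beq h0 i] at hi
    exact absurd hi (by simp)
  | succ n ih =>
    intro l E z z1 z2 z3 k h
    cases l with
    | nil => exact absurd h (by simp [expL])
    | cons e l' =>
      have h' : cond (Nat.beq (Nat.land fr (Nat.shiftLeft 1 e)) (Nat.shiftLeft 1 e))
          (bn lv l' B (Nat.xor fr (Nat.shiftLeft 1 e)) bl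
            (Nat.lor c1 (Nat.shiftLeft PAT e)) (Nat.lor c2 (Nat.land c1 (Nat.shiftLeft PAT e)))
            (Nat.lor c3 (Nat.land c2 (Nat.shiftLeft PAT e)))
            (Nat.lor c4 (Nat.land c3 (Nat.shiftLeft PAT e))) fun y y1 y2 y3 l'' =>
              expL bn n lv l'' B fr bl c1 c2 c3 c4 (sdf E (Nat.shiftLeft 1 e)) (Nat.lor z y)
                (Nat.lor z1 y1) (Nat.lor z2 y2) (Nat.lor z3 y3) k)
          false = true := h
      rw [Bool.cond_eq_ite] at h'
      split_ifs at h' with h0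
      have hfe : fr.testBit e = true := sub_of_beq h0 (by rw [tb_one]; exact decide_eq_true rfl)
      obtain ⟨x, hx1, rfl, hx3, hx4⟩ := st.hfr e hfe
      obtain ⟨y, rest, hy, h''⟩ := hbn _ _ _ _ _ _ _ _ _ _ _ _ _ (st.insertW hx1 hx3 hx4) h'
      obtain ⟨X, z', z1', z2', z3', rest', g1, g2, g3, g4, g5, g6, g7, g8⟩ := ih h''
      refine ⟨(x, y) :: X, z', z1', z2', z3', rest', ?_, ?_, (sub_lor_left _ _).trans g3,
        (sub_lor_left _ _).trans g4, (sub_lor_left _ _).trans g5, (sub_lor_left _ _).trans g6, ?_, g8⟩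
      · intro d hd
        rcases List.mem_cons.1 hd with rfl | hd
        · exact hy
        · exact g1 d hd
      · intro i hi
        by_cases hb : i = ix x
        · exact ⟨(x, y), List.mem_cons_self, hx1, hb.symm⟩
        · obtain ⟨d, hd, h1⟩ := g2 i (by rw [tb_sdf, tb_one, hi]; simp [hb])
          exact ⟨d, List.mem_cons_of_mem _ hd, h1⟩
      · intro d hd
        rcases List.mem_cons.1 hd with rfl | hd
        · exact ⟨(sub_lor_right _ _).trans g3, (sub_lor_right _ _).trans g4,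
            (sub_lor_right _ _).trans g5, (sub_lor_right _ _).trans g6⟩
        · exact g7 d hd

theorem not_occ_tb {L : Finset Cell → Prop} {Bs Ws : Finset Cell} {B fr bl c1 c2 c3 c4 : ℕ} (st : St L Bs Ws B fr bl c1 c2 c3 c4)
    {c : Cell} (hc : InB c) (h1 : c ∉ Bs) (h2 : c ∉ Ws) :
    (Nat.xor FULL (Nat.xor INNER fr)).testBit (ix c) = true := by
  rw [tb_xor, tb_xor, full_tb]
  have hlt := ix_lt hc
  simp only [hlt, decide_true]
  by_cases hi : Inner c
  · rw [inner_ix hi, st.hfr' c hi h1 h2]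
    rfl
  · have e1 : INNER.testBit (ix c) = false := by
      by_contra hcon
      have := (inner_iff.1 (by simpa using hcon)).2
      rw [cl_ix hc] at this
      exact hi this
    have e2 : fr.testBit (ix c) = false := by
      by_contra hcon
      obtain ⟨c', g1, g2, _⟩ := st.hfr _ (by simpa using hcon)
      exact hi (ix_inj g1.inB hc g2 ▸ g1)
    rw [e1, e2]
    rfl

theorem node_sound {bn : BNT} (hbn : BNS bn) {L : Finset Cell → Prop} {lv t B fr bl c1 c2 c3 c4 : ℕ} {l : List ℕ} {k : K}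
    {Bs Ws : Finset Cell} (st : St L Bs Ws B fr bl c1 c2 c3 c4)
    (h : node bn lv t l B fr bl c1 c2 c3 c4 k = true) :
    ∃ (y : Zn) (rest : List ℕ), Good L lv Bs Ws y.z y.z1 y.z2 y.z3 ∧ k y.z y.z1 y.z2 y.z3 rest = true := by
  cases lv with
  | zero => exact absurd h (by simp [node])
  | succ lv' =>
    cases l with
    | nil => exact absurd h (by simp [node])
    | cons ne l' =>
      set b := Nat.land (Nat.shiftRight t 2) 1023 with hbdef
      have h' : cond (Nat.beq (Nat.land fr (Nat.shiftLeft 1 b)) (Nat.shiftLeft 1 b))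
          (fc (Nat.lor B (Nat.shiftLeft 1 b)) fun B' => fc (Nat.xor fr (Nat.shiftLeft 1 b)) fun fr' =>
            fc (Nat.lor bl (Nat.shiftLeft PAT b)) fun bl' =>
            cond (Nat.beq (sdf c4 bl') 0)
              (defL bn (Nat.land (Nat.shiftRight t 12) 31) lv' l' B' fr' bl' c1 c2 c3 c4
                (Nat.xor FULL (Nat.xor INNER fr')) (Nat.shiftLeft 1 b) (sdf c3 bl') (sdf c2 bl') (sdf c1 bl')
                fun E z z1 z2 z3 l'' => expL bn ne (lv' + 1) l'' B' fr' bl' c1 c2 c3 c4 E z z1 z2 z3 k)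
              false)
          false = true := h
      rw [Bool.cond_eq_ite] at h'
      split_ifs at h' with h0
      simp only [fc_eq] at h'
      rw [Bool.cond_eq_ite] at h'
      split_ifs at h' with h4
      have hfb : fr.testBit b = true := sub_of_beq h0 (by rw [tb_one]; exact decide_eq_true rfl)
      obtain ⟨x, hx1, hx2, hx3, hx4⟩ := st.hfr b hfb
      rw [← hx2] at h' h4
      have st' := st.insertB hx1 hx3 hx4
      obtain ⟨D, E', z', z1', z2', z3', rest', g1, g2, g3, g4, g5, g6, g7, g8⟩ :=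
        defL_sound hbn st' _ h'
      obtain ⟨X, z'', z1'', z2'', z3'', rest'', f1, f2, f3, f4, f5, f6, f7, f8⟩ :=
        expL_sound hbn st' _ g8
      refine ⟨⟨z'', z1'', z2'', z3''⟩, rest'', ?_, f8⟩
      have hbz : z''.testBit (ix x) = true := f3 _ (g3 _ (by rw [tb_one]; exact decide_eq_true rfl))
      apply node_good hx1.inB hx4 hbz
      apply wnode D X g1 f1 ?_ ?_ f7 st'.innW st'.hc st'.hbl (fun i => zero_of_beq h4 i)
        (g4.trans f4) (g5.trans f5) (g6.trans f6)
      · -- coverage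
        have hinb : ∀ c, InB c → c ∉ insert x Bs → c ∉ Ws →
            (∃ y ∈ X, y.1 = c) ∨ ∃ d ∈ D, Av d.z d.z1 c := by
          intro c hc hcB hcW
          rcases g2 (ix c) (not_occ_tb st' hc hcB hcW) with h1 | ⟨d, hd, h1⟩
          · obtain ⟨y, hy, hyi, hye⟩ := f2 _ h1
            exact Or.inl ⟨y, hy, ix_inj hyi.inB hc hye⟩
          · exact Or.inr ⟨d, hd, av_of_tb fun _ => h1⟩
        intro c hcB hcW
        by_cases hc : InB c
        · exact hinb c hc hcB hcW
        · -- outside the board: any default will do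
          have hD : ∃ d, d ∈ D := by
            have h00 : InB ((0, 0) : Cell) := by decide
            have n00 : ¬ Inner ((0, 0) : Cell) := by decide
            rcases g2 (ix (0, 0)) (not_occ_tb st' h00 (fun hh => n00 (st'.innB _ hh))
              (fun hh => n00 (st'.innW _ hh))) with h1 | ⟨d, hd, _⟩
            · obtain ⟨y, hy, hyi, hye⟩ := f2 _ h1
              exact absurd (ix_inj hyi.inB h00 hye ▸ hyi) n00
            · exact ⟨d, hd⟩
          obtain ⟨d, hd⟩ := hD
          exact Or.inr ⟨d, hd, av_of_tb fun hh => absurd hh hc⟩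
      · intro d hd
        obtain ⟨a0, a1, a2, a3⟩ := g7 d hd
        exact ⟨a0.trans f3, a1.trans f4, a2.trans f5, a3.trans f6⟩

/-- soundness of the pairing rule -/
theorem pair_good {L L' : Finset Cell → Prop} {lv : ℕ} {B W : Finset Cell} {z z1 z2 z3 : ℕ} {a b : Cell}
    (hab : a ≠ b) (hL' : ∀ w, L' w ↔ L w ∨ (a ∈ w ∧ b ∈ w)) (haB : a ∉ B) (hbB : b ∉ B)
    (ha : InB a) (hb : InB b)
    (haW : a ∉ W) (hbW : b ∉ W) (h : Good L' lv B (insert b (insert a W)) z z1 z2 z3) :
    Good L lv B W (Nat.lor z (Nat.lor (Nat.shiftLeft 1 (ix a)) (Nat.shiftLeft 1 (ix b)))) z1 z2 z3 := by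
  intro m
  obtain ⟨N, hN⟩ := h m
  refine ⟨N + 1, ?_⟩
  intro K U F T hBT hTW hXV hU hK hF hS
  set zz := Nat.lor z (Nat.lor (Nat.shiftLeft 1 (ix a)) (Nat.shiftLeft 1 (ix b))) with hzz
  have hsub : sub z zz := sub_lor_left _ _
  have hza : zz.testBit (ix a) = true := by
    rw [hzz, tb_lor, tb_lor, tb_one, decide_eq_true rfl]; simp
  have hzb : zz.testBit (ix b) = true := by
    rw [hzz, tb_lor, tb_lor, tb_one, tb_one, decide_eq_true (rfl : ix b = ix b)]; simp
  have hV : ∀ c, InB c → zz.testBit (ix c) = true → c ∉ U.toFinset ∪ F := by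
    intro c hcb hz hc
    rcases Finset.mem_union.1 hc with hc | hc
    · rw [List.mem_toFinset] at hc
      obtain ⟨i, hi, rfl⟩ := List.getElem_of_mem hc
      have := (hU i hi).1 hcb
      rw [hz] at this
      exact absurd this (by simp)
    · exact hF c hc (hK.1 c hcb hz)
  have haV := hV a ha hza
  have hbV := hV b hb hzb
  have hd0 : Disjoint T (W ∪ (U.toFinset ∪ F)) := by
    rw [Finset.disjoint_union_right]
    exact ⟨hTW, hXV.mono_left Finset.subset_union_left⟩
  apply pair_win hab (fun w hw => (hL' w).1 hw) hd0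
  · rw [Finset.mem_union, not_or]; exact ⟨haW, haV⟩
  · rw [Finset.mem_union, not_or]; exact ⟨hbW, hbV⟩
  have hTe : (T.erase a).erase b ⊆ T := (Finset.erase_subset _ _).trans (Finset.erase_subset _ _)
  have key := hN K U F ((T.erase a).erase b)
    (by
      intro c hc
      rw [Finset.mem_erase, Finset.mem_erase]
      exact ⟨fun h => hbB (h ▸ hc), fun h => haB (h ▸ hc), hBT hc⟩)
    (by
      rw [Finset.disjoint_insert_right, Finset.disjoint_insert_right]
      refine ⟨by simp, by simp, hTW.mono_left hTe⟩)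
    (by
      rw [Finset.disjoint_union_left, Finset.disjoint_insert_left, Finset.disjoint_insert_left]
      exact ⟨(hXV.mono_left Finset.subset_union_left).mono_left hTe, hbV, haV,
        hXV.mono_left Finset.subset_union_right⟩)
    (hU.mono hsub (sub.refl _) (sub.refl _) (sub.refl _)) (hK.mono hsub (sub.refl _)) hF
    (by
      apply S.mono (fun w hw => (hL' w).2 (Or.inl hw)) hS
      · intro c hc
        rw [Finset.mem_union, Finset.mem_insert, Finset.mem_insert, Finset.mem_erase, Finset.mem_erase]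
        rcases Finset.mem_union.1 hc with hc | hc
        · by_cases h1 : c = a
          · exact Or.inr (Or.inr (Or.inl h1))
          · by_cases h2 : c = b
            · exact Or.inr (Or.inl h2)
            · exact Or.inl ⟨h2, h1, hc⟩
        · exact Or.inr (Or.inr (Or.inr hc))
      · rw [Finset.disjoint_union_left, Finset.disjoint_insert_left, Finset.disjoint_insert_left]
        exact ⟨(hXV.mono_left Finset.subset_union_left).mono_left hTe, hbV, haV,
          hXV.mono_left Finset.subset_union_right⟩)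
  rw [Finset.insert_union, Finset.insert_union] at key
  exact key

theorem St.addL {L : Finset Cell → Prop} {Bs Ws : Finset Cell} {B fr bl c1 c2 c3 c4 : ℕ}
    (st : St L Bs Ws B fr bl c1 c2 c3 c4) {a b : Cell} (ha : InB a) (hb : InB b) :
    St (fun w => L w ∨ (a ∈ w ∧ b ∈ w)) Bs Ws B fr
      (Nat.lor bl (Nat.land (Nat.shiftLeft PAT (ix a)) (Nat.shiftLeft PAT (ix b)))) c1 c2 c3 c4 := by
  refine ⟨st.innB, st.innW, st.disj, st.hb, st.hfr, st.hfr', ?_, st.hc⟩
  intro w k' p' hr hbit hl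
  rw [tb_lor, tb_land, Bool.or_eq_true, Bool.and_eq_true] at hbit
  rcases hbit with hbit | ⟨g1, g2⟩
  · exact st.hbl w k' p' hr hbit (fun h => hl (Or.inl h))
  · exact absurd (Or.inr ⟨mem_pat hr ha g1, mem_pat hr hb g2⟩) hl

theorem pairT_sound {bn : BNT} (hbn : BNS bn) {L : Finset Cell → Prop} {lv t B fr bl c1 c2 c3 c4 : ℕ}
    {l : List ℕ} {k : K} {Bs Ws : Finset Cell} (st : St L Bs Ws B fr bl c1 c2 c3 c4)
    (h : pairT bn lv t l B fr bl c1 c2 c3 c4 k = true) :
    ∃ (y : Zn) (rest : List ℕ), Good L lv Bs Ws y.z y.z1 y.z2 y.z3 ∧ k y.z y.z1 y.z2 y.z3 rest = true := by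
  cases l with
  | nil => exact absurd h (by simp [pairT])
  | cons y l' =>
    set x := Nat.shiftRight t 2 with hx
    have h' : cond (Nat.beq (Nat.land fr (Nat.shiftLeft 1 x)) (Nat.shiftLeft 1 x))
        (cond (Nat.beq (Nat.land (Nat.xor fr (Nat.shiftLeft 1 x)) (Nat.shiftLeft 1 y)) (Nat.shiftLeft 1 y))
          (bn lv l' B (Nat.xor (Nat.xor fr (Nat.shiftLeft 1 x)) (Nat.shiftLeft 1 y))
            (Nat.lor bl (Nat.land (Nat.shiftLeft PAT x) (Nat.shiftLeft PAT y)))
            (Nat.lor (Nat.lor c1 (Nat.shiftLeft PAT x)) (Nat.shiftLeft PAT y))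
            (Nat.lor (Nat.lor c2 (Nat.land c1 (Nat.shiftLeft PAT x)))
              (Nat.land (Nat.lor c1 (Nat.shiftLeft PAT x)) (Nat.shiftLeft PAT y)))
            (Nat.lor (Nat.lor c3 (Nat.land c2 (Nat.shiftLeft PAT x)))
              (Nat.land (Nat.lor c2 (Nat.land c1 (Nat.shiftLeft PAT x))) (Nat.shiftLeft PAT y)))
            (Nat.lor (Nat.lor c4 (Nat.land c3 (Nat.shiftLeft PAT x)))
              (Nat.land (Nat.lor c3 (Nat.land c2 (Nat.shiftLeft PAT x))) (Nat.shiftLeft PAT y)))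
            fun z z1 z2 z3 r => k (Nat.lor z (Nat.lor (Nat.shiftLeft 1 x) (Nat.shiftLeft 1 y))) z1 z2 z3 r)
          false) false = true := h
    rw [Bool.cond_eq_ite] at h'
    split_ifs at h' with h0
    rw [Bool.cond_eq_ite] at h'
    split_ifs at h' with h1
    have hfx : fr.testBit x = true := sub_of_beq h0 (by rw [tb_one]; exact decide_eq_true rfl)
    obtain ⟨a, ha1, ha2, ha3, ha4⟩ := st.hfr x hfx
    rw [← ha2] at h' h1
    have st1 := st.insertW ha1 ha3 ha4
    have hfy := sub_of_beq h1 (i := y) (by rw [tb_one]; exact decide_eq_true rfl)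
    obtain ⟨b, hb1, hb2, hb3, hb4⟩ := st1.hfr y hfy
    rw [← hb2] at h'
    have st2 := st1.insertW hb1 hb3 hb4
    have hab : a ≠ b := fun h => hb4 (h ▸ Finset.mem_insert_self _ _)
    have hbW : b ∉ Ws := fun h => hb4 (Finset.mem_insert_of_mem h)
    have st3 := st2.addL ha1.inB hb1.inB
    obtain ⟨y', rest, hg, hk⟩ := hbn _ _ _ _ _ _ _ _ _ _ _ _ _ st3 h'
    refine ⟨⟨_, y'.z1, y'.z2, y'.z3⟩, rest, ?_, hk⟩
    exact pair_good hab (fun _ => Iff.rfl) ha3 hb3 ha1.inB hb1.inB ha4 hbW hg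

theorem bn_sound (fuel : ℕ) : BNS (bn fuel) := by
  induction fuel with
  | zero =>
    intro L lv l B fr bl c1 c2 c3 c4 k Bs Ws _ h
    exact absurd h (by simp [bn])
  | succ fuel ih =>
    intro L lv l B fr bl c1 c2 c3 c4 k Bs Ws st h
    cases l with
    | nil => exact absurd h (by simp [bn, bnStep])
    | cons t l' =>
      have h' : (Nat.rec (motive := fun _ => Bool)
        (five t B fr fun fb => k fb 0 0 0 l')
        (fun q _ => Nat.rec (motive := fun _ => Bool)
          (step t B fr fun b w B' fr' u => seq l' B' fr' (Nat.shiftLeft PAT w) (Nat.lor bl (Nat.shiftLeft PAT b)) c1 c2 c3 c4 u k)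
          (fun r _ => Nat.rec (motive := fun _ => Bool)
            (node (bn fuel) lv t l' B fr bl c1 c2 c3 c4 k)
            (fun _ _ => pairT (bn fuel) lv t l' B fr bl c1 c2 c3 c4 k) r) q)
        (Nat.land t 3)) = true := h
      rcases hq : Nat.land t 3 with _ | _ | _ | q
      · rw [hq] at h'
        obtain ⟨fb, hg, hk⟩ := five_good st h' lv
        exact ⟨⟨fb, 0, 0, 0⟩, l', hg, hk⟩
      · rw [hq] at h'
        obtain ⟨z, z1, z2, z3, rest, hg, hk⟩ := leaf_sound st h' lv
        exact ⟨⟨z, z1, z2, z3⟩, rest, hg, hk⟩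
      · rw [hq] at h'
        exact node_sound ih st h'
      · rw [hq] at h'
        exact pairT_sound ih st h'

theorem St.empty : St L0 ∅ ∅ 0 INNER 0 0 0 0 0 := by
  refine ⟨by simp, by simp, by simp, ?_, ?_, ?_, ?_, ?_⟩
  · intro i hi
    simp at hi
  · intro i hi
    obtain ⟨h1, h2⟩ := inner_iff.1 hi
    exact ⟨cl i, h2, ix_cl, by simp, by simp⟩
  · intro c hc _ _
    exact inner_ix hc
  · intro w k p _ hi
    simp at hi
  · intro w k p _
    simp

theorem startB_sound (bs : List ℕ) : ∀ {Bs Ws : Finset Cell} {B fr bl c1 c2 c3 c4 : ℕ}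
    {k : ℕ → ℕ → ℕ → Bool}, St L0 Bs Ws B fr bl c1 c2 c3 c4 → startB bs B fr bl k = true →
    ∃ B' fr' bl', St L0 (bs.foldl (fun s b => insert (cl b) s) Bs) Ws B' fr' bl' c1 c2 c3 c4 ∧
      k B' fr' bl' = true := by
  induction bs with
  | nil =>
    intro Bs Ws B fr bl c1 c2 c3 c4 k st h
    exact ⟨B, fr, bl, st, h⟩
  | cons b bs ih =>
    intro Bs Ws B fr bl c1 c2 c3 c4 k st h
    rw [startB, Bool.cond_eq_ite] at h
    split_ifs at h with h0
    have hfb : fr.testBit b = true := sub_of_beq h0 (by rw [tb_one]; exact decide_eq_true rfl)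
    obtain ⟨x, hx1, rfl, hx3, hx4⟩ := st.hfr b hfb
    obtain ⟨B', fr', bl', h1, h2⟩ := ih (st.insertB hx1 hx3 hx4) h
    refine ⟨B', fr', bl', ?_, h2⟩
    rw [List.foldl_cons, cl_ix hx1.inB]
    exact h1

theorem startW_sound (ws : List ℕ) : ∀ {Bs Ws : Finset Cell} {B fr bl c1 c2 c3 c4 : ℕ}
    {k : ℕ → ℕ → ℕ → ℕ → ℕ → Bool}, St L0 Bs Ws B fr bl c1 c2 c3 c4 → startW ws fr c1 c2 c3 c4 k = true →
    ∃ fr' d1 d2 d3 d4, St L0 Bs (ws.foldl (fun s b => insert (cl b) s) Ws) B fr' bl d1 d2 d3 d4 ∧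
      k fr' d1 d2 d3 d4 = true := by
  induction ws with
  | nil =>
    intro Bs Ws B fr bl c1 c2 c3 c4 k st h
    exact ⟨fr, c1, c2, c3, c4, st, h⟩
  | cons b bs ih =>
    intro Bs Ws B fr bl c1 c2 c3 c4 k st h
    rw [startW, Bool.cond_eq_ite] at h
    split_ifs at h with h0
    have hfb : fr.testBit b = true := sub_of_beq h0 (by rw [tb_one]; exact decide_eq_true rfl)
    obtain ⟨x, hx1, rfl, hx3, hx4⟩ := st.hfr b hfb
    obtain ⟨fr', d1, d2, d3, d4, h1, h2⟩ := ih (st.insertW hx1 hx3 hx4) h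
    refine ⟨fr', d1, d2, d3, d4, ?_, h2⟩
    rw [List.foldl_cons, cl_ix hx1.inB]
    exact h1

def setOf (l : List ℕ) : Finset Cell := l.foldl (fun s b => insert (cl b) s) ∅

theorem run_sound {bs ws : List ℕ} {lv : ℕ} {l : List ℕ} {k : K} (h : run bs ws lv l k = true) :
    ∃ (y : Zn) (rest : List ℕ), Good L0 lv (setOf bs) (setOf ws) y.z y.z1 y.z2 y.z3 ∧
      k y.z y.z1 y.z2 y.z3 rest = true := by
  obtain ⟨B', fr', bl', h1, h2⟩ := startB_sound bs St.empty h
  obtain ⟨fr'', d1, d2, d3, d4, h3, h4⟩ := startW_sound ws h1 h2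
  exact bn_sound _ _ _ _ _ _ _ _ _ _ _ _ _ _ h3 h4

end Pool.Agent.H98.Gomoku
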