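import Pool.Agent.H98.Gomoku.Asm

set_option autoImplicit false

namespace Pool.Agent.H98.Gomoku

/-- the proofs without white stone -/
def ML : List MR := [
  ⟨0x115540002bbf80001fff80001fffe0001fffc0003fff80001fefc0001fdfe0001fffc0003fff80001fffc0001fffe0001fffc0003fff8000137f400004cc80000000000000000000000000000000000000000000000000000000000,
    0x115540002bbf80001fff80001fffe0001fffc0003fff80001fefc0001fdfe0001fffc0003fff80001fffc0001fffe0001fffc0003fff800013ffc00005cd80000000000000000000000000000000000000000000000000000000000,
    9, 25, 7, 22, 18, 46, -12, 16, [876, 877, 878, 879, 880, 881, 882, 883, 884, 885, 886, 887, 888, 889, 890, 891, 908, 909, 910, 911, 912, 913, 914, 915, 916, 917, 918, 919, 920, 921, 922, 923, 924, 940, 941, 942, 943, 944, 945, 946, 947, 948, 949, 950, 951, 952, 953, 954, 955, 956, 957, 972, 973, 974, 975, 976, 977, 978, 979, 980, 981, 982, 983, 984, 985, 986, 987, 988, 989, 990]⟩]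

end Pool.Agent.H98.Gomoku
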