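import Pool.Agent.H98.Gomoku.Leaf

set_option autoImplicit false

namespace Pool.Agent.H98.Gomoku
open G

theorem unif {α : Type} (l : List α) (P : α → ℕ → Prop) (mono : ∀ a n m, n ≤ m → P a n → P a m)
    (h : ∀ a ∈ l, ∃ N, P a N) : ∃ N, ∀ a ∈ l, P a N := by
  induction l with
  | nil => exact ⟨0, by simp⟩
  | cons a l ih =>
    obtain ⟨N1, h1⟩ := ih (fun b hb => h b (List.mem_cons_of_mem _ hb))
    obtain ⟨N2, h2⟩ := h a List.mem_cons_self
    refine ⟨max N1 N2, ?_⟩
    intro b hb
    rcases List.mem_cons.1 hb with rfl | hb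
    · exact mono _ _ _ (le_max_right _ _) h2
    · exact mono _ _ _ (le_max_left _ _) (h1 b hb)

/-- zones of a proof -/
structure Zn where
  z : ℕ
  z1 : ℕ
  z2 : ℕ
  z3 : ℕ

def sub (a b : ℕ) : Prop := ∀ i, a.testBit i = true → b.testBit i = true

theorem sub.refl (a : ℕ) : sub a a := fun _ h => h
theorem sub.trans {a b c : ℕ} (h : sub a b) (h' : sub b c) : sub a c := fun i hi => h' i (h i hi)
theorem sub_lor_left (a b : ℕ) : sub a (Nat.lor a b) := fun i hi => by rw [tb_lor, hi, Bool.true_or]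
theorem sub_lor_right (a b : ℕ) : sub b (Nat.lor a b) := fun i hi => by rw [tb_lor, hi, Bool.or_true]

theorem Av.mono {z zw y yw : ℕ} {c : Cell} (h : Av z zw c) (h1 : sub y z) (h2 : sub yw zw) : Av y yw c := by
  refine ⟨?_, ?_⟩
  · intro hc
    by_contra hcon
    have := h1 _ (by simpa using hcon)
    rw [h.1 hc] at this
    exact absurd this (by simp)
  · intro w k p hr hb
    exact h.2 w k p hr (h2 _ hb)

theorem KOK.mono {z z3 y y3 : ℕ} {K : Set Cell} (h : KOK z z3 K) (h1 : sub y z) (h3 : sub y3 z3) :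
    KOK y y3 K := by
  refine ⟨fun c hc hb => h.1 c hc (h1 _ hb), fun w k p hr hb => h.2 w k p hr (h3 _ hb)⟩

theorem UOK.mono {z z1 z2 z3 y y1 y2 y3 : ℕ} {U : List Cell} (h : UOK z z1 z2 z3 U) (h0 : sub y z)
    (h1 : sub y1 z1) (h2 : sub y2 z2) (h3 : sub y3 z3) : UOK y y1 y2 y3 U := by
  intro i hi
  refine (h i hi).mono h0 ?_
  rcases i with _ | _ | i
  · exact h1
  · exact h2
  · exact h3

theorem UOK.cons {z z1 z2 z3 y y1 y2 y3 : ℕ} {U : List Cell} {e : Cell} (h : UOK z z1 z2 z3 U)
    (he : Av y y1 e) (h0 : sub y z) (h1 : sub y2 z1) (h2 : sub y3 z2) (h3 : sub y3 z3) :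
    UOK y y1 y2 y3 (e :: U) := by
  intro i hi
  rcases i with _ | i
  · exact he
  · have hi' : i < U.length := by simpa using hi
    have := (h i hi').mono (y := y) (yw := zsel y1 y2 y3 (i + 1)) h0 (by
      rcases i with _ | _ | i
      · exact h1
      · exact h2
      · exact h3)
    exact this

theorem Good.winMono {L : Finset Cell → Prop} {N M : ℕ} (h : N ≤ M) {T W : Finset Cell} (hw : WinL L N T W) : WinL L M T W := hw.mono h

theorem wnode {L : Finset Cell → Prop} {lv : ℕ} {Bs Ws : Finset Cell} {z z1 z2 z3 bl c1 c2 c3 c4 : ℕ}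
    (D : List Zn) (X : List (Cell × Zn))
    (hD : ∀ d ∈ D, Good L lv Bs Ws d.z d.z1 d.z2 d.z3)
    (hX : ∀ x ∈ X, Good L (lv + 1) Bs (insert x.1 Ws) x.2.z x.2.z1 x.2.z2 x.2.z3)
    (hcov : ∀ c, c ∉ Bs → c ∉ Ws → (∃ x ∈ X, x.1 = c) ∨ ∃ d ∈ D, Av d.z d.z1 c)
    (hDz : ∀ d ∈ D, sub d.z z ∧ sub d.z2 z1 ∧ sub d.z3 z2 ∧ sub d.z3 z3)
    (hXz : ∀ x ∈ X, sub x.2.z z ∧ sub x.2.z1 z1 ∧ sub x.2.z2 z2 ∧ sub x.2.z3 z3)
    (hin : ∀ c ∈ Ws, Inner c) (hc : Cnt Ws c1 c2 c3 c4)
    (hbl : ∀ w k p, Rep w k p → bl.testBit (wb k p) = true → ¬ L w → ¬ Disjoint w Bs)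
    (h4 : ∀ i, (sdf c4 bl).testBit i = false)
    (s1 : sub (sdf c3 bl) z1) (s2 : sub (sdf c2 bl) z2) (s3 : sub (sdf c1 bl) z3) :
    ∀ m, ∃ N, ∀ (K : Set Cell) (U : List Cell) (F T : Finset Cell),
      Bs ⊆ T → Disjoint T Ws → Disjoint (T ∪ Ws) (U.toFinset ∪ F) →
      UOK z z1 z2 z3 U → KOK z z3 K → (∀ c ∈ F, c ∉ K) →
      S L K m (lv + 1) (T ∪ Ws) (U.toFinset ∪ F) → ∀ e, e ∉ T → e ∉ Ws ∪ (U.toFinset ∪ F) →
      ¬ FiveL L (insert e (Ws ∪ (U.toFinset ∪ F))) ∧ WinL L N T (insert e (Ws ∪ (U.toFinset ∪ F))) := by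
  intro m
  induction m with
  | zero =>
    refine ⟨0, ?_⟩
    intro K U F T _ _ _ _ _ _ hS
    exact hS.elim
  | succ m ihm =>
    obtain ⟨N0, hN0⟩ := ihm
    obtain ⟨N1, hN1⟩ := unif D (fun d N => ∀ (K : Set Cell) (U : List Cell) (F T : Finset Cell),
        Bs ⊆ T → Disjoint T Ws → Disjoint (T ∪ Ws) (U.toFinset ∪ F) →
        UOK d.z d.z1 d.z2 d.z3 U → KOK d.z d.z3 K → (∀ c ∈ F, c ∉ K) →
        S L K m lv (T ∪ Ws) (U.toFinset ∪ F) → WinL L N T (Ws ∪ (U.toFinset ∪ F)))
      (fun d n m' hnm h K U F T a1 a2 a3 a4 a5 a6 a7 => (h K U F T a1 a2 a3 a4 a5 a6 a7).mono hnm)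
      (fun d hd => hD d hd m)
    obtain ⟨N2, hN2⟩ := unif X (fun x N => ∀ (K : Set Cell) (U : List Cell) (F T : Finset Cell),
        Bs ⊆ T → Disjoint T (insert x.1 Ws) → Disjoint (T ∪ insert x.1 Ws) (U.toFinset ∪ F) →
        UOK x.2.z x.2.z1 x.2.z2 x.2.z3 U → KOK x.2.z x.2.z3 K → (∀ c ∈ F, c ∉ K) →
        S L K (m + 1) (lv + 1) (T ∪ insert x.1 Ws) (U.toFinset ∪ F) →
        WinL L N T (insert x.1 Ws ∪ (U.toFinset ∪ F)))
      (fun d n m' hnm h K U F T a1 a2 a3 a4 a5 a6 a7 => (h K U F T a1 a2 a3 a4 a5 a6 a7).mono hnm)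
      (fun x hx => hX x hx (m + 1))
    refine ⟨max (N0 + 1) (max N1 N2), ?_⟩
    intro K U F T hBT hTW hXV hU hK hF hS e heT heV
    have hdis : Disjoint T (Ws ∪ (U.toFinset ∪ F)) := by
      rw [Finset.disjoint_union_right]
      exact ⟨hTW, hXV.mono_left Finset.subset_union_left⟩
    have hWV : Disjoint Ws (U.toFinset ∪ F) := hXV.mono_left Finset.subset_union_right
    have heW : e ∉ Ws := fun h => heV (Finset.mem_union_left _ h)
    have heV' : e ∉ U.toFinset ∪ F := fun h => heV (Finset.mem_union_right _ h)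
    have hbd : ∀ w, IsW w → ¬ L w → Disjoint w T → (w ∩ (Ws ∪ (U.toFinset ∪ F))).card ≤ 3 := by
      apply bound hin subset_rfl hc _ h4 s1 s2 s3 hU hK hF hS.w3
      intro w' k' p' hr hbit hl hd
      exact hbl w' k' p' hr hbit hl (hd.mono_right hBT)
    refine ⟨not_five subset_rfl hdis heT hbd, ?_⟩
    rcases hcov e (fun h => heT (hBT h)) heW with ⟨x, hx, rfl⟩ | ⟨d, hd, hav⟩
    · -- explicit reply
      obtain ⟨g0, g1, g2, g3⟩ := hXz x hx
      have hw := hN2 x hx K U F T hBT (by
          rw [Finset.disjoint_insert_right]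
          exact ⟨heT, hTW⟩) (by
          rw [Finset.disjoint_union_left, Finset.disjoint_insert_left]
          exact ⟨hXV.mono_left Finset.subset_union_left, heV', hWV⟩)
        (hU.mono g0 g1 g2 g3) (hK.mono g0 g3) hF (by
          apply S.mono (fun _ h => h) hS (Finset.union_subset_union_right (Finset.subset_insert _ _))
          rw [Finset.disjoint_union_left, Finset.disjoint_insert_left]
          exact ⟨hXV.mono_left Finset.subset_union_left, heV', hWV⟩)
      rw [Finset.insert_union] at hw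
      exact hw.mono ((le_max_right _ _).trans (le_max_right _ _))
    · obtain ⟨g0, g1, g2, g3⟩ := hDz d hd
      have hcases : S L K m lv (T ∪ Ws) (insert e (U.toFinset ∪ F)) ∨
        (e ∉ K ∧ ∃ x, x ∉ insert e (U.toFinset ∪ F) ∧
          (∀ w, IsW w → ¬ L w → Disjoint w (T ∪ Ws) → 4 ≤ (w ∩ insert e (U.toFinset ∪ F)).card → x ∈ w) ∧
          S L K m (lv + 1) (insert x (T ∪ Ws)) (insert e (U.toFinset ∪ F))) := hS.2 e (by
            rw [Finset.mem_union, not_or]; exact ⟨heT, heW⟩) heV'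
      rcases hcases with hA | ⟨heK, x, hx, _, hB⟩
      · -- silent move
        have hw := hN1 d hd K (e :: U) F T hBT hTW (by
            rw [List.toFinset_cons, Finset.insert_union, Finset.disjoint_insert_right,
              Finset.mem_union, not_or]
            exact ⟨⟨heT, heW⟩, hXV⟩)
          (hU.cons hav g0 g1 g2 g3) (hK.mono g0 g3) hF (by
            rw [List.toFinset_cons, Finset.insert_union]
            exact hA)
        rw [List.toFinset_cons, Finset.insert_union, Finset.union_insert] at hw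
        exact hw.mono ((le_max_left _ _).trans (le_max_right _ _))
      · -- far answer
        have hFe : ∀ c ∈ insert e F, c ∉ K := by
          intro c hc'
          rcases Finset.mem_insert.1 hc' with rfl | hc'
          · exact heK
          · exact hF c hc'
        have hset : Ws ∪ (U.toFinset ∪ insert e F) = insert e (Ws ∪ (U.toFinset ∪ F)) := by
          rw [Finset.union_insert, Finset.union_insert]
        have hset' : U.toFinset ∪ insert e F = insert e (U.toFinset ∪ F) := by
          rw [Finset.union_insert]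
        have main : ∀ y, y ∉ T → y ∉ insert e (Ws ∪ (U.toFinset ∪ F)) →
            S L K m (lv + 1) (insert y T ∪ Ws) (insert e (U.toFinset ∪ F)) →
            WinL L (N0 + 1) T (insert e (Ws ∪ (U.toFinset ∪ F))) := by
          intro y hyT hyW hS'
          have hyW' : y ≠ e ∧ y ∉ Ws ∧ y ∉ U.toFinset ∪ F := by
            simp only [Finset.mem_insert, Finset.mem_union, not_or] at hyW ⊢
            tauto
          refine ⟨y, hyT, hyW, Or.inr ?_⟩
          intro e' he' heW'
          have := hN0 K U (insert e F) (insert y T) (hBT.trans (Finset.subset_insert _ _))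
            (by rw [Finset.disjoint_insert_left]; exact ⟨hyW'.2.1, hTW⟩)
            (by
              rw [hset', Finset.disjoint_insert_right, Finset.insert_union, Finset.disjoint_insert_left]
              refine ⟨?_, hyW'.2.2, hXV⟩
              rw [Finset.mem_insert, Finset.mem_union, not_or, not_or]
              exact ⟨fun h => hyW'.1 h.symm, heT, heW⟩)
            hU hK hFe (by rw [hset']; exact hS') e' he' (by rw [hset]; exact heW')
          rw [hset] at this
          exact this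
        by_cases hxX : x ∈ T ∪ Ws
        · rw [Finset.insert_eq_self.2 hxX] at hB
          obtain ⟨y, hy⟩ := exists_fresh (T ∪ insert e (Ws ∪ (U.toFinset ∪ F)))
          rw [Finset.mem_union, not_or] at hy
          refine (main y hy.1 hy.2 ?_).mono (le_max_left _ _)
          apply S.mono (fun _ h => h) hB (Finset.union_subset_union_left (Finset.subset_insert _ _))
          have hyW' : y ≠ e ∧ y ∉ Ws ∧ y ∉ U.toFinset ∪ F := by
            have := hy.2
            simp only [Finset.mem_insert, Finset.mem_union, not_or] at this ⊢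
            tauto
          rw [Finset.disjoint_insert_right, Finset.insert_union, Finset.disjoint_insert_left]
          refine ⟨?_, hyW'.2.2, hXV⟩
          rw [Finset.mem_insert, Finset.mem_union, not_or, not_or]
          exact ⟨fun h => hyW'.1 h.symm, heT, heW⟩
        · rw [Finset.mem_union, not_or] at hxX
          refine (main x hxX.1 ?_ ?_).mono (le_max_left _ _)
          · simp only [Finset.mem_insert, Finset.mem_union, not_or] at hx ⊢
            exact ⟨hx.1, hxX.2, hx.2⟩
          · rw [Finset.insert_union]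
            exact hB

/-- a node: Black plays `b`, and then the White-to-move node is fine -/
theorem node_good {L : Finset Cell → Prop} {lv : ℕ} {B W : Finset Cell} {z z1 z2 z3 : ℕ} {b : Cell} (hbi : InB b)
    (hbW : b ∉ W) (hz : z.testBit (ix b) = true)
    (h : ∀ m, ∃ N, ∀ (K : Set Cell) (U : List Cell) (F T : Finset Cell),
      insert b B ⊆ T → Disjoint T W → Disjoint (T ∪ W) (U.toFinset ∪ F) →
      UOK z z1 z2 z3 U → KOK z z3 K → (∀ c ∈ F, c ∉ K) →
      S L K m (lv + 1) (T ∪ W) (U.toFinset ∪ F) → ∀ e, e ∉ T → e ∉ W ∪ (U.toFinset ∪ F) →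
      ¬ FiveL L (insert e (W ∪ (U.toFinset ∪ F))) ∧ WinL L N T (insert e (W ∪ (U.toFinset ∪ F)))) :
    Good L (lv + 1) B W z z1 z2 z3 := by
  intro m
  obtain ⟨N, hN⟩ := h m
  refine ⟨N + 1, ?_⟩
  intro K U F T hBT hTW hXV hU hK hF hS
  have hbV : b ∉ U.toFinset ∪ F := by
    rw [Finset.mem_union, not_or]
    constructor
    · intro hc
      rw [List.mem_toFinset] at hc
      obtain ⟨i, hi, he⟩ := List.getElem_of_mem hc
      have := (hU i hi).1 (by rw [he]; exact hbi)
      rw [he, hz] at this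
      exact absurd this (by simp)
    · intro hc
      exact hF b hc (hK.1 b hbi hz)
  have main : ∀ y, y ∉ T → y ∉ W ∪ (U.toFinset ∪ F) → insert b B ⊆ insert y T →
      WinL L (N + 1) T (W ∪ (U.toFinset ∪ F)) := by
    intro y hyT hyW hsub
    rw [Finset.mem_union, not_or] at hyW
    refine ⟨y, hyT, by rw [Finset.mem_union, not_or]; exact hyW, Or.inr ?_⟩
    intro e he heW
    have hdd : Disjoint (insert y T ∪ W) (U.toFinset ∪ F) := by
      rw [Finset.insert_union, Finset.disjoint_insert_left]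
      exact ⟨hyW.2, hXV⟩
    exact hN K U F (insert y T) hsub
      (by rw [Finset.disjoint_insert_left]; exact ⟨hyW.1, hTW⟩) hdd hU hK hF
      (S.mono (fun _ h => h) hS (Finset.union_subset_union_left (Finset.subset_insert _ _)) hdd) e he heW
  by_cases hbT : b ∈ T
  · obtain ⟨y, hy⟩ := exists_fresh (T ∪ (W ∪ (U.toFinset ∪ F)))
    rw [Finset.mem_union, not_or] at hy
    apply main y hy.1 hy.2
    intro c hc
    rcases Finset.mem_insert.1 hc with rfl | hc
    · exact Finset.mem_insert_of_mem hbT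
    · exact Finset.mem_insert_of_mem (hBT hc)
  · apply main b hbT
    · rw [Finset.mem_union, not_or]
      exact ⟨hbW, hbV⟩
    · exact Finset.insert_subset_insert _ hBT

end Pool.Agent.H98.Gomoku
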