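import Pool.Agent.H98.Gomoku.Board

set_option autoImplicit false

/-!
The game with ignored windows, and pairings: if Black answers a White stone on one of the two cells
`a`, `b` by the other one, windows through both cells can be ignored, and both cells can be counted
as White's.
-/
namespace Pool.Agent.H98.Gomoku

/-- a five of White outside the ignored windows -/
def FiveL (L : Finset Cell → Prop) (S : Finset Cell) : Prop := ∃ w, IsW w ∧ ¬ L w ∧ w ⊆ S

theorem FiveL.mono {L : Finset Cell → Prop} {S T : Finset Cell} (h : FiveL L S) (hST : S ⊆ T) :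
    FiveL L T := by
  obtain ⟨w, h1, h2, h3⟩ := h
  exact ⟨w, h1, h2, h3.trans hST⟩

/-- the game with ignored windows -/
def WinL (L : Finset Cell → Prop) : ℕ → Finset Cell → Finset Cell → Prop
  | 0, _, _ => False
  | n + 1, B, W => ∃ b, b ∉ B ∧ b ∉ W ∧ (Five (insert b B) ∨
      ∀ e, e ∉ insert b B → e ∉ W → ¬ FiveL L (insert e W) ∧ WinL L n (insert b B) (insert e W))

/-- nothing is ignored -/
def L0 : Finset Cell → Prop := fun _ => False

theorem WinL.win {n : ℕ} : ∀ {B W : Finset Cell}, WinL L0 n B W → Win n B W := by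
  induction n with
  | zero => intro B W h; exact h.elim
  | succ n ih =>
    intro B W h
    obtain ⟨b, h1, h2, h3⟩ := h
    refine ⟨b, h1, h2, ?_⟩
    rcases h3 with h3 | h3
    · exact Or.inl h3
    · right
      intro e he heW
      obtain ⟨g1, g2⟩ := h3 e he heW
      refine ⟨?_, ih g2⟩
      intro h5
      obtain ⟨w, hw, hs⟩ := five_iff.1 h5
      exact g1 ⟨w, hw, id, hs⟩

theorem WinL.mono {L : Finset Cell → Prop} {n m : ℕ} (h : n ≤ m) :
    ∀ {B W : Finset Cell}, WinL L n B W → WinL L m B W := by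
  induction n generalizing m with
  | zero => intro B W hw; exact hw.elim
  | succ n ih =>
    intro B W hw
    obtain ⟨m, rfl⟩ : ∃ k, m = k + 1 := ⟨m - 1, by omega⟩
    obtain ⟨b, hb, hbW, hw⟩ := hw
    refine ⟨b, hb, hbW, ?_⟩
    rcases hw with h5 | hw
    · exact Or.inl h5
    · right
      intro e he heW
      obtain ⟨h1, h2⟩ := hw e he heW
      exact ⟨h1, ih (by omega) h2⟩

/-- relation between the real position and the position with both cells of the pair white -/
structure PInv (a b : Cell) (T' W' T W : Finset Cell) : Prop where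
  haW : a ∈ W'
  hbW : b ∈ W'
  hT : T' ⊆ T
  hW : W ⊆ W'
  hd : Disjoint T W
  ha : a ∈ W → b ∈ T
  hb : b ∈ W → a ∈ T
  hr : ∀ c ∈ W', c ∉ W → c = a ∨ c = b

theorem PInv.symm {a b : Cell} {T' W' T W : Finset Cell} (h : PInv a b T' W' T W) :
    PInv b a T' W' T W :=
  ⟨h.hbW, h.haW, h.hT, h.hW, h.hd, h.hb, h.ha, fun c h1 h2 => (h.hr c h1 h2).symm⟩

theorem PInv.not_both {a b : Cell} {T' W' T W : Finset Cell} (h : PInv a b T' W' T W) :
    ¬ (a ∈ W ∧ b ∈ W) := fun hh => Finset.disjoint_left.1 h.hd (h.ha hh.1) hh.2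

theorem pair_no_five {L L' : Finset Cell → Prop} {a b : Cell} (hab : a ≠ b)
    (hL' : ∀ w, L' w → L w ∨ (a ∈ w ∧ b ∈ w)) {T' W' T W : Finset Cell}
    (h : PInv a b T' W' T W) {e : Cell} (heT : e ∉ T)
    (h5 : ¬ FiveL L' (insert e W')) : ¬ FiveL L (insert e W) := by
  rintro ⟨w, hw, hL, hs⟩
  apply h5
  refine ⟨w, hw, ?_, hs.trans (Finset.insert_subset_insert _ h.hW)⟩
  intro h'
  rcases hL' w h' with h' | ⟨h1, h2⟩
  · exact hL h'
  · rcases Finset.mem_insert.1 (hs h1) with h1 | h1
    · subst h1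
      rcases Finset.mem_insert.1 (hs h2) with h2 | h2
      · exact hab h2.symm
      · exact heT (h.hb h2)
    · rcases Finset.mem_insert.1 (hs h2) with h2 | h2
      · subst h2
        exact heT (h.ha h1)
      · exact h.not_both ⟨h1, h2⟩

theorem pair_core {L L' : Finset Cell → Prop} {a b : Cell} (hab : a ≠ b)
    (hL' : ∀ w, L' w → L w ∨ (a ∈ w ∧ b ∈ w)) {n : ℕ} {T1 W' : Finset Cell}
    (ih : ∀ {T' W' T W : Finset Cell}, PInv a b T' W' T W → WinL L' n T' W' →
      WinL L (n + 1) T W ∧ ((a ∈ W ∨ b ∈ W) → WinL L n T W))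
    (h3 : ∀ e, e ∉ T1 → e ∉ W' → ¬ FiveL L' (insert e W') ∧ WinL L' n T1 (insert e W'))
    {T2 W2 : Finset Cell} (inv : PInv a b T1 W' T2 W2) {e : Cell} (heT : e ∉ T2)
    (heW : e ∉ W') :
    ¬ FiveL L (insert e W2) ∧ WinL L (n + 1) T2 (insert e W2) ∧
      ((a ∈ W2 ∨ b ∈ W2) → WinL L n T2 (insert e W2)) := by
  obtain ⟨g1, g2⟩ := h3 e (fun h => heT (inv.hT h)) heW
  have hea : e ≠ a := fun h => heW (h ▸ inv.haW)
  have heb : e ≠ b := fun h => heW (h ▸ inv.hbW)
  have inv' : PInv a b T1 (insert e W') T2 (insert e W2) := by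
    refine ⟨Finset.mem_insert_of_mem inv.haW, Finset.mem_insert_of_mem inv.hbW, inv.hT,
      Finset.insert_subset_insert _ inv.hW, ?_, ?_, ?_, ?_⟩
    · rw [Finset.disjoint_insert_right]
      exact ⟨heT, inv.hd⟩
    · intro h
      rcases Finset.mem_insert.1 h with h | h
      · exact absurd h.symm hea
      · exact inv.ha h
    · intro h
      rcases Finset.mem_insert.1 h with h | h
      · exact absurd h.symm heb
      · exact inv.hb h
    · intro c hc hc2
      rw [Finset.mem_insert, not_or] at hc2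
      rcases Finset.mem_insert.1 hc with h | h
      · exact absurd h hc2.1
      · exact inv.hr c h hc2.2
  obtain ⟨k1, k2⟩ := ih inv' g2
  refine ⟨pair_no_five hab hL' inv heT g1, k1, ?_⟩
  intro h
  apply k2
  rcases h with h | h
  · exact Or.inl (Finset.mem_insert_of_mem h)
  · exact Or.inr (Finset.mem_insert_of_mem h)

/-- White takes a cell of the untouched pair -/
theorem pair_take {L L' : Finset Cell → Prop} {a b : Cell} (hab : a ≠ b)
    (hL' : ∀ w, L' w → L w ∨ (a ∈ w ∧ b ∈ w)) {n : ℕ} {T1 W' : Finset Cell}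
    (ih : ∀ {T' W' T W : Finset Cell}, PInv a b T' W' T W → WinL L' n T' W' →
      WinL L (n + 1) T W ∧ ((a ∈ W ∨ b ∈ W) → WinL L n T W))
    (h3 : ∀ e, e ∉ T1 → e ∉ W' → ¬ FiveL L' (insert e W') ∧ WinL L' n T1 (insert e W'))
    {T2 W2 : Finset Cell} (inv : PInv a b T1 W' T2 W2) (haT : a ∉ T2) (haW : a ∉ W2) :
    ¬ FiveL L (insert a W2) ∧ WinL L (n + 1) T2 (insert a W2) := by
  have hbW : b ∉ W2 := fun h => haT (inv.hb h)
  constructor
  · rintro ⟨w, hw, hL, hs⟩
    obtain ⟨f, hf⟩ := exists_fresh (T1 ∪ W')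
    rw [Finset.mem_union, not_or] at hf
    apply (h3 f hf.1 hf.2).1
    refine ⟨w, hw, ?_, ?_⟩
    · intro h'
      rcases hL' w h' with h' | ⟨_, h2⟩
      · exact hL h'
      · rcases Finset.mem_insert.1 (hs h2) with h | h
        · exact hab h.symm
        · exact hbW h
    · intro c hc
      rcases Finset.mem_insert.1 (hs hc) with h | h
      · rw [h]
        exact Finset.mem_insert_of_mem inv.haW
      · exact Finset.mem_insert_of_mem (inv.hW h)
  · have main : ∀ p, p ∉ T2 → p ∉ insert a W2 → b ∈ insert p T2 → WinL L (n + 1) T2 (insert a W2) := by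
      intro p hp1 hp2 hbp
      refine ⟨p, hp1, hp2, Or.inr ?_⟩
      intro e he heW
      have hpa : p ≠ a := fun h => hp2 (h ▸ Finset.mem_insert_self _ _)
      have inv3 : PInv a b T1 W' (insert p T2) (insert a W2) := by
        refine ⟨inv.haW, inv.hbW, inv.hT.trans (Finset.subset_insert _ _), ?_, ?_, fun _ => hbp, ?_, ?_⟩
        · intro c hc
          rcases Finset.mem_insert.1 hc with h | h
          · rw [h]; exact inv.haW
          · exact inv.hW h
        · rw [Finset.disjoint_insert_left, Finset.disjoint_insert_right]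
          exact ⟨hp2, haT, inv.hd⟩
        · intro h
          rcases Finset.mem_insert.1 h with h | h
          · exact absurd h.symm hab
          · exact absurd h hbW
        · intro c hc hc2
          rw [Finset.mem_insert, not_or] at hc2
          exact inv.hr c hc hc2.2
      have heW' : e ∉ W' := by
        intro h
        rcases inv3.hr e h heW with h | h
        · exact heW (h ▸ Finset.mem_insert_self _ _)
        · exact he (h ▸ hbp)
      obtain ⟨k1, _, k3⟩ := pair_core hab hL' ih h3 inv3 he heW'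
      exact ⟨k1, k3 (Or.inl (Finset.mem_insert_self _ _))⟩
    by_cases hbT : b ∈ T2
    · obtain ⟨f, hf⟩ := exists_fresh (T2 ∪ insert a W2)
      rw [Finset.mem_union, not_or] at hf
      exact main f hf.1 hf.2 (Finset.mem_insert_of_mem hbT)
    · refine main b hbT ?_ (Finset.mem_insert_self _ _)
      rw [Finset.mem_insert, not_or]
      exact ⟨fun h => hab h.symm, hbW⟩

theorem pair_comp {L L' : Finset Cell → Prop} {a b : Cell} (hab : a ≠ b)
    (hL' : ∀ w, L' w → L w ∨ (a ∈ w ∧ b ∈ w)) {n : ℕ} :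
    ∀ {T' W' T W : Finset Cell}, PInv a b T' W' T W → WinL L' n T' W' →
      WinL L (n + 1) T W ∧ ((a ∈ W ∨ b ∈ W) → WinL L n T W) := by
  induction n with
  | zero => intro T' W' T W _ h; exact h.elim
  | succ n ih =>
    intro T' W' T W inv h
    obtain ⟨b0, hb1, hb2, h3⟩ := h
    obtain ⟨y, hy1, hy2, hy3⟩ : ∃ y, y ∉ T ∧ y ∉ W ∧ insert b0 T' ⊆ insert y T := by
      by_cases hbT : b0 ∈ T
      · obtain ⟨f, hf⟩ := exists_fresh (T ∪ W)
        rw [Finset.mem_union, not_or] at hf
        refine ⟨f, hf.1, hf.2, ?_⟩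
        intro c hc
        rcases Finset.mem_insert.1 hc with rfl | hc
        · exact Finset.mem_insert_of_mem hbT
        · exact Finset.mem_insert_of_mem (inv.hT hc)
      · exact ⟨b0, hbT, fun h => hb2 (inv.hW h), Finset.insert_subset_insert _ inv.hT⟩
    rcases h3 with h3 | h3
    · exact ⟨⟨y, hy1, hy2, Or.inl (h3.mono hy3)⟩, fun _ => ⟨y, hy1, hy2, Or.inl (h3.mono hy3)⟩⟩
    · have inv2 : PInv a b (insert b0 T') W' (insert y T) W :=
        ⟨inv.haW, inv.hbW, hy3, inv.hW, by
          rw [Finset.disjoint_insert_left]; exact ⟨hy2, inv.hd⟩,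
          fun h => Finset.mem_insert_of_mem (inv.ha h), fun h => Finset.mem_insert_of_mem (inv.hb h),
          inv.hr⟩
      constructor
      · refine ⟨y, hy1, hy2, Or.inr ?_⟩
        intro e he heW
        by_cases heW' : e ∈ W'
        · rcases inv.hr e heW' heW with rfl | rfl
          · exact pair_take hab hL' ih h3 inv2 he heW
          · exact pair_take hab.symm (fun w hw => (hL' w hw).imp id And.symm)
              (fun i j => (ih i.symm j).imp id (fun k hh => k hh.symm)) h3 inv2.symm he heW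
        · obtain ⟨k1, k2, _⟩ := pair_core hab hL' ih h3 inv2 he heW'
          exact ⟨k1, k2⟩
      · intro hab'
        refine ⟨y, hy1, hy2, Or.inr ?_⟩
        intro e he heW
        have heW' : e ∉ W' := by
          intro h
          rcases inv.hr e h heW with rfl | rfl
          · rcases hab' with h | h
            · exact heW h
            · exact he (inv2.hb h)
          · rcases hab' with h | h
            · exact he (inv2.ha h)
            · exact heW h
        obtain ⟨k1, _, k3⟩ := pair_core hab hL' ih h3 inv2 he heW'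
        exact ⟨k1, k3 hab'⟩

theorem pair_win {L L' : Finset Cell → Prop} {a b : Cell} (hab : a ≠ b)
    (hL' : ∀ w, L' w → L w ∨ (a ∈ w ∧ b ∈ w)) {n : ℕ} {T W : Finset Cell} (hd : Disjoint T W)
    (ha : a ∉ W) (hb : b ∉ W)
    (h : WinL L' n ((T.erase a).erase b) (insert b (insert a W))) : WinL L (n + 1) T W := by
  refine (pair_comp hab hL' ⟨?_, ?_, ?_, ?_, hd, fun h => absurd h ha, fun h => absurd h hb, ?_⟩ h).1
  · simp
  · simp
  · exact (Finset.erase_subset _ _).trans (Finset.erase_subset _ _)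
  · intro c hc
    simp [hc]
  · intro c hc hc2
    rw [Finset.mem_insert, Finset.mem_insert] at hc
    tauto

end Pool.Agent.H98.Gomoku
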