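import Pool.Agent.H98.Gomoku.Bits
import Pool.Agent.H98.Gomoku.Pair

set_option autoImplicit false

namespace Pool.Agent.H98.Gomoku
open G

/-- at most three unknown stones in each window free of `X` -/
def W3 (L : Finset Cell → Prop) (X V : Finset Cell) : Prop :=
  ∀ w, IsW w → ¬ L w → Disjoint w X → (w ∩ V).card ≤ 3

/-- `S K m lv X V`: White can make `lv` silent moves outside the explicit area; far fours are
answered one by one. `m` is a bound on the number of moves. -/
def S (L : Finset Cell → Prop) (K : Set Cell) : ℕ → ℕ → Finset Cell → Finset Cell → Prop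
  | _, 0, X, V => W3 L X V
  | 0, _ + 1, _, _ => False
  | m + 1, lv + 1, X, V => W3 L X V ∧ ∀ e, e ∉ X → e ∉ V →
      (S L K m lv X (insert e V) ∨
        (e ∉ K ∧ ∃ x, x ∉ insert e V ∧
          (∀ w, IsW w → ¬ L w → Disjoint w X → 4 ≤ (w ∩ insert e V).card → x ∈ w) ∧
          S L K m (lv + 1) (insert x X) (insert e V)))

theorem S.w3 {L : Finset Cell → Prop} {K : Set Cell} {m lv : ℕ} {X V : Finset Cell}
    (h : S L K m lv X V) : W3 L X V := by
  cases lv with
  | zero => cases m <;> exact h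
  | succ lv =>
    cases m with
    | zero => exact h.elim
    | succ m => exact h.1

theorem W3.mono {L L' : Finset Cell → Prop} {X X' V : Finset Cell} (h : W3 L X V) (hX : X ⊆ X')
    (hL : ∀ w, L w → L' w) : W3 L' X' V := by
  intro w hw hl hd
  exact h w hw (fun h => hl (hL w h)) (hd.mono_right hX)

theorem S.mono {L L' : Finset Cell → Prop} {K : Set Cell} (hL : ∀ w, L w → L' w) {m : ℕ} :
    ∀ {lv : ℕ} {X X' V : Finset Cell}, S L K m lv X V → X ⊆ X' →
    Disjoint X' V → S L' K m lv X' V := by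
  induction m with
  | zero =>
    intro lv X X' V h hX hd
    cases lv with
    | zero => exact W3.mono h hX hL
    | succ lv => exact h.elim
  | succ m ih =>
    intro lv X X' V h hX hd
    cases lv with
    | zero => exact W3.mono h hX hL
    | succ lv =>
      obtain ⟨h1, h2⟩ := h
      refine ⟨h1.mono hX hL, ?_⟩
      intro e he heV
      rcases h2 e (fun h => he (hX h)) heV with h3 | ⟨heK, x, hx, hw, h3⟩
      · left
        apply ih h3 hX
        rw [Finset.disjoint_insert_right]
        exact ⟨he, hd⟩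
      · right
        refine ⟨heK, x, hx, ?_, ?_⟩
        · intro w hw1 hwl hw2 hw3
          exact hw w hw1 (fun h => hwl (hL w h)) (hw2.mono_right hX) hw3
        · apply ih h3 (Finset.insert_subset_insert _ hX)
          rw [Finset.disjoint_insert_left, Finset.disjoint_insert_right]
          exact ⟨hx, he, hd⟩

/-- fewer silent moves -/
theorem S.lv_mono {L : Finset Cell → Prop} {K : Set Cell} {m : ℕ} :
    ∀ {lv : ℕ} {X V : Finset Cell}, S L K m (lv + 1) X V → S L K m lv X V := by
  induction m with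
  | zero => intro lv X V h; exact h.elim
  | succ m ih =>
    intro lv X V h
    cases lv with
    | zero => exact h.1
    | succ lv =>
      refine ⟨h.1, ?_⟩
      intro e he heV
      rcases h.2 e he heV with h3 | ⟨heK, x, hx, hw, h3⟩
      · exact Or.inl (ih h3)
      · exact Or.inr ⟨heK, x, hx, hw, ih h3⟩

/-- few unknown stones in each window -/
theorem S.pure {L : Finset Cell → Prop} {K : Set Cell} {m : ℕ} :
    ∀ {lv : ℕ} {X V : Finset Cell}, lv ≤ 3 → lv ≤ m →
    (∀ w, IsW w → ¬ L w → Disjoint w X → (w ∩ V).card + lv ≤ 3) → S L K m lv X V := by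
  induction m with
  | zero =>
    intro lv X V h3 hm h
    obtain rfl : lv = 0 := by omega
    intro w hw hl hd
    have := h w hw hl hd
    omega
  | succ m ih =>
    intro lv X V h3 hm h
    cases lv with
    | zero =>
      intro w hw hl hd
      have := h w hw hl hd
      omega
    | succ lv =>
      refine ⟨?_, ?_⟩
      · intro w hw hl hd
        have := h w hw hl hd
        omega
      · intro e _ _
        left
        apply ih (by omega) (by omega)
        intro w hw hl hd
        have := h w hw hl hd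
        have h2 : (w ∩ insert e V).card ≤ (w ∩ V).card + 1 := by
          by_cases he : e ∈ w
          · rw [Finset.inter_insert_of_mem he]
            exact Finset.card_insert_le _ _
          · rw [Finset.inter_insert_of_notMem he]
            omega
        omega

/-- the cell avoids the zone given by a cell board and a window board -/
def Av (z zw : ℕ) (c : Cell) : Prop :=
  (InB c → z.testBit (ix c) = false) ∧
    ∀ w k p, Rep w k p → zw.testBit (wb k p) = true → c ∉ w

def zsel (z1 z2 z3 : ℕ) : ℕ → ℕ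
  | 0 => z1
  | 1 => z2
  | _ => z3

def UOK (z z1 z2 z3 : ℕ) (U : List Cell) : Prop :=
  ∀ i (h : i < U.length), Av z (zsel z1 z2 z3 i) U[i]

def KOK (z z3 : ℕ) (K : Set Cell) : Prop :=
  (∀ c, InB c → z.testBit (ix c) = true → c ∈ K) ∧
    ∀ w k p, Rep w k p → z3.testBit (wb k p) = true → ∀ c ∈ w, c ∈ K

/-- the meaning of a checked strategy tree -/
def Good (L : Finset Cell → Prop) (lv : ℕ) (B W : Finset Cell) (z z1 z2 z3 : ℕ) : Prop :=
  ∀ m, ∃ N, ∀ (K : Set Cell) (U : List Cell) (F T : Finset Cell),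
    B ⊆ T → Disjoint T W → Disjoint (T ∪ W) (U.toFinset ∪ F) →
    UOK z z1 z2 z3 U → KOK z z3 K → (∀ c ∈ F, c ∉ K) →
    S L K m lv (T ∪ W) (U.toFinset ∪ F) → WinL L N T (W ∪ (U.toFinset ∪ F))

def Cnt (W : Finset Cell) (c1 c2 c3 c4 : ℕ) : Prop :=
  ∀ w k p, Rep w k p → (1 ≤ (w ∩ W).card → c1.testBit (wb k p) = true) ∧
    (2 ≤ (w ∩ W).card → c2.testBit (wb k p) = true) ∧
    (3 ≤ (w ∩ W).card → c3.testBit (wb k p) = true) ∧
    (4 ≤ (w ∩ W).card → c4.testBit (wb k p) = true)

theorem Cnt.add {W : Finset Cell} {c1 c2 c3 c4 : ℕ} (h : Cnt W c1 c2 c3 c4) (x : Cell) :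
    Cnt (insert x W) (Nat.lor c1 (Nat.shiftLeft PAT (ix x)))
      (Nat.lor c2 (Nat.land c1 (Nat.shiftLeft PAT (ix x))))
      (Nat.lor c3 (Nat.land c2 (Nat.shiftLeft PAT (ix x))))
      (Nat.lor c4 (Nat.land c3 (Nat.shiftLeft PAT (ix x)))) := by
  intro w k p hr
  obtain ⟨h1, h2, h3, h4⟩ := h w k p hr
  by_cases hx : x ∈ w
  · have hm := pat_mem hr hx
    have hle : (w ∩ insert x W).card ≤ (w ∩ W).card + 1 := by
      rw [Finset.inter_insert_of_mem hx]
      exact Finset.card_insert_le _ _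
    refine ⟨fun _ => ?_, fun hc => ?_, fun hc => ?_, fun hc => ?_⟩
    · rw [tb_lor, hm, Bool.or_true]
    · rw [tb_lor, tb_land, hm, h1 (by omega)]; simp
    · rw [tb_lor, tb_land, hm, h2 (by omega)]; simp
    · rw [tb_lor, tb_land, hm, h3 (by omega)]; simp
  · rw [Finset.inter_insert_of_notMem hx]
    refine ⟨fun hc => ?_, fun hc => ?_, fun hc => ?_, fun hc => ?_⟩
    · rw [tb_lor, h1 hc, Bool.true_or]
    · rw [tb_lor, h2 hc, Bool.true_or]
    · rw [tb_lor, h3 hc, Bool.true_or]
    · rw [tb_lor, h4 hc, Bool.true_or]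

theorem idx_of_card {w : Finset Cell} {U : List Cell} {n : ℕ} (hn : 0 < n)
    (h : n ≤ (w ∩ U.toFinset).card) : ∃ i, ∃ hi : i < U.length, n ≤ i + 1 ∧ U[i] ∈ w := by
  by_contra hc
  push Not at hc
  have hsub : w ∩ U.toFinset ⊆ (U.take (n - 1)).toFinset := by
    intro c hcm
    rw [Finset.mem_inter, List.mem_toFinset] at hcm
    obtain ⟨i, hi, rfl⟩ := List.getElem_of_mem hcm.2
    rw [List.mem_toFinset]
    have hin : i < n - 1 := by
      by_contra h'
      exact hc i hi (by omega) hcm.1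
    have : (U.take (n - 1))[i]'(by simp; omega) = U[i] := by simp
    rw [← this]
    exact List.getElem_mem _
  have h1 := Finset.card_le_card hsub
  have h2 : (U.take (n - 1)).toFinset.card ≤ n - 1 := by
    refine (List.toFinset_card_le _).trans ?_
    simp
  omega

theorem bound {L : Finset Cell → Prop} {W W' T F : Finset Cell} {U : List Cell} {K : Set Cell}
    {z z1 z2 z3 bl c1 c2 c3 c4 : ℕ}
    (hin : ∀ c ∈ W', Inner c) (hWW : W ⊆ W') (hc : Cnt W' c1 c2 c3 c4)
    (hbl : ∀ w k p, Rep w k p → bl.testBit (wb k p) = true → ¬ L w → ¬ Disjoint w T)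
    (h4 : ∀ i, (sdf c4 bl).testBit i = false)
    (s1 : ∀ i, (sdf c3 bl).testBit i = true → z1.testBit i = true)
    (s2 : ∀ i, (sdf c2 bl).testBit i = true → z2.testBit i = true)
    (s3 : ∀ i, (sdf c1 bl).testBit i = true → z3.testBit i = true)
    (hU : UOK z z1 z2 z3 U) (hK : KOK z z3 K) (hF : ∀ c ∈ F, c ∉ K)
    (hS : W3 L (T ∪ W) (U.toFinset ∪ F)) :
    ∀ w, IsW w → ¬ L w → Disjoint w T → (w ∩ (W' ∪ (U.toFinset ∪ F))).card ≤ 3 := by
  intro w hw hl hd
  by_cases he : w ∩ W' = ∅
  · rw [Finset.inter_union_distrib_left, he, Finset.empty_union]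
    apply hS w hw hl
    rw [Finset.disjoint_union_right]
    refine ⟨hd, ?_⟩
    rw [Finset.disjoint_iff_inter_eq_empty, ← Finset.subset_empty, ← he]
    exact Finset.inter_subset_inter_left hWW
  · obtain ⟨c0, hc0⟩ := Finset.nonempty_iff_ne_empty.2 he
    rw [Finset.mem_inter] at hc0
    obtain ⟨k, p, hr⟩ := rep_of_inner hw hc0.1 (hin c0 hc0.2)
    have hb : bl.testBit (wb k p) = false := by
      by_contra h
      exact hbl w k p hr (by simpa using h) hl hd
    obtain ⟨g1, g2, g3, g4⟩ := hc w k p hr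
    have hpos : 1 ≤ (w ∩ W').card := Finset.card_pos.2 ⟨c0, Finset.mem_inter.2 hc0⟩
    have k3 : z3.testBit (wb k p) = true := s3 _ (by rw [tb_sdf, g1 hpos, hb]; rfl)
    have hwK : ∀ c ∈ w, c ∈ K := hK.2 w k p hr k3
    have hwF : w ∩ F = ∅ := by
      rw [← Finset.disjoint_iff_inter_eq_empty, Finset.disjoint_left]
      intro c hcw hcF
      exact hF c hcF (hwK c hcw)
    rw [Finset.inter_union_distrib_left, Finset.inter_union_distrib_left, hwF, Finset.union_empty]
    refine (Finset.card_union_le _ _).trans ?_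
    by_contra hcon
    push Not at hcon
    rcases Nat.eq_zero_or_pos (w ∩ U.toFinset).card with h0 | h0
    · have := h4 (wb k p)
      rw [tb_sdf, g4 (by omega), hb] at this
      simp at this
    · obtain ⟨i, hi, hle, hmem⟩ := idx_of_card h0 le_rfl
      have hav := (hU i hi).2 w k p hr
      have hz : (zsel z1 z2 z3 i).testBit (wb k p) = true := by
        rcases i with _ | _ | i
        · exact s1 _ (by rw [tb_sdf, g3 (by omega), hb]; rfl)
        · exact s2 _ (by rw [tb_sdf, g2 (by omega), hb]; rfl)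
        · exact k3
      exact hav hz hmem

/-! ### tokens -/

theorem five_sound {t B fr : ℕ} {k : ℕ → Bool} {Bs : Finset Cell} {P : Cell → Prop}
    (h : five t B fr k = true) (hBi : ∀ c ∈ Bs, Inner c)
    (hb : ∀ i, B.testBit i = true → ∃ c ∈ Bs, ix c = i)
    (hfr : ∀ i, fr.testBit i = true → ∃ c, Inner c ∧ ix c = i ∧ P c) :
    ∃ f, Inner f ∧ P f ∧ k (Nat.shiftLeft 1 (ix f)) = true ∧
      ∃ w, IsW w ∧ ∀ c ∈ w, c ∈ Bs ∨ c = f := by
  unfold five at h
  set d := Nat.land (Nat.shiftRight t 2) 3 with hd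
  set i := Nat.land (Nat.shiftRight t 4) 7
  set p := Nat.shiftRight t 10
  have hd4 : d < 4 := by
    have : d = (t >>> 2) % 4 := Nat.and_two_pow_sub_one_eq_mod _ 2
    rw [this]
    exact Nat.mod_lt _ (by norm_num)
  simp only [Bool.cond_eq_ite] at h
  split_ifs at h with h1 h2
  obtain ⟨f, hf1, hf2, hf3⟩ := hfr _ (sub_of_beq h1 (by rw [tb_one]; exact decide_eq_true rfl))
  rw [← hf2] at h h2
  refine ⟨f, hf1, hf3, h, ?_⟩
  have key : ∀ t', t' < 5 → (B.testBit (p + t' * sk d) = true ∨ p + t' * sk d = ix f) := by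
    intro t' ht'
    have := sub_of_beq h2 (wmask_bit hd4 ht')
    rw [tb_lor, tb_one, Bool.or_eq_true, decide_eq_true_iff] at this
    exact this
  obtain ⟨w, hw, hwc⟩ := real_window hd4 (p := p) (by
    intro t' ht'
    rcases key t' ht' with h' | h'
    · obtain ⟨c, hc, he⟩ := hb _ h'
      rw [← he]
      exact inner_ix (hBi c hc)
    · rw [h']
      exact inner_ix hf1)
  refine ⟨w, hw, ?_⟩
  intro c hc
  obtain ⟨t', ht', rfl⟩ := hwc c hc
  rcases key t' ht' with h' | h'
  · obtain ⟨c, hc, he⟩ := hb _ h'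
    left
    rw [← he, cl_ix (hBi c hc).inB]
    exact hc
  · right
    rw [h', cl_ix hf1.inB]

theorem step_sound {t B fr : ℕ} {k : ℕ → ℕ → ℕ → ℕ → ℕ → Bool} {Bs : Finset Cell} {P : Cell → Prop}
    (h : step t B fr k = true) (hBi : ∀ c ∈ Bs, Inner c)
    (hb : ∀ i, B.testBit i = true → ∃ c ∈ Bs, ix c = i)
    (hfr : ∀ i, fr.testBit i = true → ∃ c, Inner c ∧ ix c = i ∧ P c) :
    ∃ b v : Cell, Inner b ∧ Inner v ∧ P b ∧ P v ∧ b ≠ v ∧
      k (ix b) (ix v) (Nat.lor B (Nat.shiftLeft 1 (ix b)))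
        (Nat.xor (Nat.xor fr (Nat.shiftLeft 1 (ix b))) (Nat.shiftLeft 1 (ix v)))
        (Nat.lor (Nat.shiftLeft 1 (ix b)) (Nat.shiftLeft 1 (ix v))) = true ∧
      (fr.testBit (ix b) = true ∧ fr.testBit (ix v) = true) ∧
      ∃ w, IsW w ∧ ∀ c ∈ w, c ∈ Bs ∨ c = b ∨ c = v := by
  unfold step at h
  set d := Nat.land (Nat.shiftRight t 2) 3 with hd
  set p := Nat.shiftRight t 10
  have hd4 : d < 4 := by
    have : d = (t >>> 2) % 4 := Nat.and_two_pow_sub_one_eq_mod _ 2
    rw [this]
    exact Nat.mod_lt _ (by norm_num)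
  simp only [Bool.cond_eq_ite] at h
  split_ifs at h with h1 h2 h3
  obtain ⟨b, hb1, hb2, hb3⟩ := hfr _ (sub_of_beq h1 (by rw [tb_one]; exact decide_eq_true rfl))
  rw [← hb2] at h h2 h3
  have hv := sub_of_beq h2 (by rw [tb_one]; exact decide_eq_true rfl)
  rw [tb_xor, tb_one] at hv
  set j := Nat.add p (Nat.mul (Nat.land (Nat.shiftRight t 7) 7) (sh d)) with hj
  have hjb : j ≠ ix b := by
    intro he
    have h1' := sub_of_beq h1 (i := ix b) (by rw [← hb2, tb_one]; exact decide_eq_true rfl)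
    rw [he, h1'] at hv
    simp at hv
  have hv' : fr.testBit j = true := by
    simpa [hjb] using hv
  obtain ⟨v, hv1, hv2, hv3⟩ := hfr _ hv'
  rw [← hv2] at h h3
  have hbv : b ≠ v := by
    intro he
    apply hjb
    rw [← hv2, he]
  refine ⟨b, v, hb1, hv1, hb3, hv3, hbv, h, ⟨?_, by rw [hv2]; exact hv'⟩, ?_⟩
  · exact sub_of_beq h1 (by rw [← hb2, tb_one]; exact decide_eq_true rfl)
  have key : ∀ t', t' < 5 → (B.testBit (p + t' * sk d) = true ∨ p + t' * sk d = ix b ∨ p + t' * sk d = ix v) := by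
    intro t' ht'
    have := sub_of_beq h3 (wmask_bit hd4 ht')
    rw [tb_lor, tb_lor, tb_one, tb_one, Bool.or_eq_true, Bool.or_eq_true, decide_eq_true_iff,
      decide_eq_true_iff] at this
    tauto
  obtain ⟨w, hw, hwc⟩ := real_window hd4 (p := p) (by
    intro t' ht'
    rcases key t' ht' with h' | h' | h'
    · obtain ⟨c, hc, he⟩ := hb _ h'
      rw [← he]
      exact inner_ix (hBi c hc)
    · rw [h']
      exact inner_ix hb1
    · rw [h']
      exact inner_ix hv1)
  refine ⟨w, hw, ?_⟩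
  intro c hc
  obtain ⟨t', ht', rfl⟩ := hwc c hc
  rcases key t' ht' with h' | h' | h'
  · obtain ⟨c, hc, he⟩ := hb _ h'
    left
    rw [← he, cl_ix (hBi c hc).inB]
    exact hc
  · right; left
    rw [h', cl_ix hb1.inB]
  · right; right
    rw [h', cl_ix hv1.inB]

end Pool.Agent.H98.Gomoku
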