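import Pool.Agent.H98.Gomoku.Game

set_option autoImplicit false

/-!
A strategy that always plays to a free cell.
-/
namespace Pool.Agent.H98.Gomoku

open Classical in
/-- the best move, or a free cell -/
noncomputable def freeMove (B W : Finset Cell) : Cell :=
  if bestMove B W ∉ B ∧ bestMove B W ∉ W then bestMove B W else (exists_fresh (B ∪ W)).choose

theorem freeMove_free (B W : Finset Cell) : freeMove B W ∉ B ∧ freeMove B W ∉ W := by
  classical
  unfold freeMove
  split_ifs with h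
  · exact h
  · have := (exists_fresh (B ∪ W)).choose_spec
    rw [Finset.mem_union, not_or] at this
    exact this

theorem freeMove_spec {n : ℕ} {B W : Finset Cell} (h : Win n B W) :
    ∃ m, m + 1 ≤ n ∧ (Five (insert (freeMove B W) B) ∨
      ∀ e, e ∉ insert (freeMove B W) B → e ∉ W → ¬ Five (insert e W) ∧
        Win m (insert (freeMove B W) B) (insert e W)) := by
  classical
  obtain ⟨m, hm, h1, h2, h3⟩ := bestMove_spec h
  have : freeMove B W = bestMove B W := by
    unfold freeMove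
    rw [if_pos ⟨h1, h2⟩]
  rw [this]
  exact ⟨m, hm, h3⟩

theorem strategy_free {N : ℕ} (h : Win N ∅ ∅) :
    ∃ σ : List (ℤ × ℤ) → ℤ × ℤ,
      ∀ p : ℕ → ℤ × ℤ,
        (∀ m : ℕ, p (2 * m) = σ (List.ofFn (fun i : Fin (2 * m) => p i))) →
        (∀ m i : ℕ, i < 2 * m + 1 → p i ≠ p (2 * m + 1)) →
        (∀ m i : ℕ, i < 2 * m → p i ≠ p (2 * m)) ∧
        ∃ n : ℕ,
          (∃ a d : ℤ × ℤ,
              d ∈ ({((1 : ℤ), (0 : ℤ)), ((0 : ℤ), (1 : ℤ)), ((1 : ℤ), (1 : ℤ)),
                    ((1 : ℤ), (-1 : ℤ))} : Finset (ℤ × ℤ)) ∧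
              ∀ k : ℕ, k < 5 → ∃ i : ℕ, i ≤ n ∧ p (2 * i) = a + (k : ℤ) • d) ∧
          ¬ (∃ b e : ℤ × ℤ,
              e ∈ ({((1 : ℤ), (0 : ℤ)), ((0 : ℤ), (1 : ℤ)), ((1 : ℤ), (1 : ℤ)),
                    ((1 : ℤ), (-1 : ℤ))} : Finset (ℤ × ℤ)) ∧
              ∀ k : ℕ, k < 5 → ∃ i : ℕ, i < n ∧ p (2 * i + 1) = b + (k : ℤ) • e) := by
  classical
  refine ⟨fun l => freeMove (stones 0 l) (stones 1 l), ?_⟩
  intro p hσ hleg
  set Bk : ℕ → Finset Cell := fun k => (Finset.range k).image (fun i => p (2 * i)) with hBk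
  set Wk : ℕ → Finset Cell := fun k => (Finset.range k).image (fun i => p (2 * i + 1)) with hWk
  have e0 : ∀ k, stones 0 (List.ofFn (fun i : Fin (2 * k) => p (i : ℕ))) = Bk k := by
    intro k
    rw [stones_ofFn]
    ext c
    simp only [hBk, Finset.mem_image, Finset.mem_filter, Finset.mem_range]
    constructor
    · rintro ⟨i, ⟨hi, hp⟩, rfl⟩
      exact ⟨i / 2, by omega, by congr 1; omega⟩
    · rintro ⟨i, hi, rfl⟩
      exact ⟨2 * i, ⟨by omega, by omega⟩, rfl⟩
  have e1 : ∀ k, stones 1 (List.ofFn (fun i : Fin (2 * k) => p (i : ℕ))) = Wk k := by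
    intro k
    rw [stones_ofFn]
    ext c
    simp only [hWk, Finset.mem_image, Finset.mem_filter, Finset.mem_range]
    constructor
    · rintro ⟨i, ⟨hi, hp⟩, rfl⟩
      exact ⟨i / 2, by omega, by congr 1; omega⟩
    · rintro ⟨i, hi, rfl⟩
      exact ⟨2 * i + 1, ⟨by omega, by omega⟩, rfl⟩
  have hmv : ∀ k, p (2 * k) = freeMove (Bk k) (Wk k) := by
    intro k
    rw [hσ k]
    simp only [e0, e1]
  have hBs : ∀ k, Bk (k + 1) = insert (p (2 * k)) (Bk k) := by
    intro k; simp [hBk, Finset.range_add_one, Finset.image_insert]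
  have hWs : ∀ k, Wk (k + 1) = insert (p (2 * k + 1)) (Wk k) := by
    intro k; simp [hWk, Finset.range_add_one, Finset.image_insert]
  have hfree : ∀ k i : ℕ, i < 2 * k → p i ≠ p (2 * k) := by
    intro k i hi heq
    have hf := freeMove_free (Bk k) (Wk k)
    rw [← hmv] at hf
    rcases Nat.even_or_odd' i with ⟨j, rfl | rfl⟩
    · apply hf.1
      rw [← heq]
      exact Finset.mem_image.2 ⟨j, Finset.mem_range.2 (by omega), rfl⟩
    · apply hf.2
      rw [← heq]
      exact Finset.mem_image.2 ⟨j, Finset.mem_range.2 (by omega), rfl⟩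
  have key : ∀ r k, Win r (Bk k) (Wk k) → ¬ Five (Wk k) →
      ∃ m, m < k + r ∧ Five (Bk (m + 1)) ∧ ¬ Five (Wk m) := by
    intro r
    induction r using Nat.strong_induction_on with
    | _ r ih =>
      intro k hw h5
      obtain ⟨m, hm, hcase⟩ := freeMove_spec hw
      rw [← hmv] at hcase
      rcases hcase with hf | hf
      · exact ⟨k, by omega, by rw [hBs]; exact hf, h5⟩
      · have he1 : p (2 * k + 1) ∉ insert (p (2 * k)) (Bk k) := by
          rw [← hBs]
          intro hmem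
          obtain ⟨i, hi, hpi⟩ := Finset.mem_image.1 hmem
          rw [Finset.mem_range] at hi
          exact hleg k (2 * i) (by omega) hpi
        have he2 : p (2 * k + 1) ∉ Wk k := by
          intro hmem
          obtain ⟨i, hi, hpi⟩ := Finset.mem_image.1 hmem
          rw [Finset.mem_range] at hi
          exact hleg k (2 * i + 1) (by omega) hpi
        obtain ⟨h51, hw1⟩ := hf _ he1 he2
        rw [← hBs, ← hWs] at hw1
        rw [← hWs] at h51
        obtain ⟨m', hm', h2, h3⟩ := ih m (by omega) (k + 1) hw1 h51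
        exact ⟨m', by omega, h2, h3⟩
  have hW0 : ¬ Five (Wk 0) := by
    rintro ⟨a, d, hd, hs⟩
    have := hs (mem_wnd.2 ⟨0, by norm_num, rfl⟩)
    simp [hWk] at this
  obtain ⟨m, hm, h2, h3⟩ := key N 0 (by simpa [hBk, hWk] using h) hW0
  refine ⟨hfree, m, ?_, ?_⟩
  · obtain ⟨a, d, hd, hs⟩ := h2
    refine ⟨a, d, by rcases hd with rfl | rfl | rfl | rfl <;> simp, ?_⟩
    intro k hk
    obtain ⟨i, hi, hpi⟩ := Finset.mem_image.1 (hs (mem_wnd.2 ⟨k, hk, rfl⟩))
    rw [Finset.mem_range] at hi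
    refine ⟨i, by omega, ?_⟩
    rw [hpi]
    ext <;> simp [wc]
  · rintro ⟨a, d, hd, hs⟩
    apply h3
    have hd' : Dir d := by
      simp only [Finset.mem_insert, Finset.mem_singleton] at hd
      exact hd
    refine ⟨a, d, hd', ?_⟩
    intro c hc
    obtain ⟨t, ht, rfl⟩ := mem_wnd.1 hc
    obtain ⟨i, hi, hpi⟩ := hs t ht
    refine Finset.mem_image.2 ⟨i, Finset.mem_range.2 hi, ?_⟩
    show p (2 * i + 1) = wc a d t
    rw [hpi]
    ext <;> simp [wc]

end Pool.Agent.H98.Gomoku
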